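import Pool.Agent.P.MP_064970_gt.SG

/-!
G4. A_j = {k : not Reg_k x (1/(j+1)^2)} is in U. For each k, exists_reg and Reg.mono show that k is
in only finitely many A_j; let j(k) be the largest j with k in A_i for all i <= j (any value if k
not in A_0); j(k) -> oo along U (no nonprincipality needed). PP at (x, 1/(j+1)^2, L = j+1) gives q_k
-> x, rho_k -> 0. Zoom: not Reg 0 2, Reg z (1/2) for |z| < j+1, so limO = univ and LIM gives a
member M'. Not flat: x_k, y_k in S_k cap ball 0 2 with |N x_k - N y_k| > 1/10 have U-limits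
(compactness), Conv.pts. Theta'(q,s) = lim Theta_k(q_k + rho_k q, rho_k s) <= Theta_k(q_k + rho_k q,
r) <= Theta_k(x,r) + 400 |q_k + rho_k q - x|/r.
-/

open scoped Manifold ContDiff
open MeasureTheory Set Filter Topology Metric
open scoped RealInnerProductSpace ENNReal ComplexConjugate Real

noncomputable section

namespace MW

universe u

theorem BAD_index (U : Ultrafilter ℕ) (Mk : ℕ → Surf) (hM : ∀ k, (Mk k).Mem) (x : E)
    (hx : x ∉ limO U Mk) : ∃ j : ℕ → ℕ, Tendsto j U atTop ∧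
      ∀ᶠ k in (U : Filter ℕ), ¬ (Mk k).Reg x (1 / ((j k : ℝ) + 1) ^ 2) := by
  classical
  have hA : ∀ J : ℕ, ∀ᶠ k in (U : Filter ℕ), ¬ (Mk k).Reg x (1 / ((J : ℝ) + 1) ^ 2) := by
    intro J
    rw [Ultrafilter.eventually_not]
    exact fun h => hx ⟨_, by positivity, h⟩
  have hex : ∀ k, ∃ J : ℕ, (Mk k).Reg x (1 / ((J : ℝ) + 1) ^ 2) := by
    intro k
    obtain ⟨r, hr, h⟩ := (Mk k).exists_reg ((hM k).sub univ (mem_univ x))
    obtain ⟨J, hJ⟩ := exists_nat_one_div_lt hr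
    refine ⟨J, h.mono (ball_subset_ball (le_trans ?_ hJ.le))⟩
    have h0 : (0 : ℝ) ≤ J := Nat.cast_nonneg J
    exact one_div_le_one_div_of_le (by positivity) (by nlinarith)
  have hlt : ∀ (J k : ℕ), ¬ (Mk k).Reg x (1 / ((J : ℝ) + 1) ^ 2) → J < Nat.find (hex k) := by
    intro J k h
    by_contra hn
    refine h ((Nat.find_spec (hex k)).mono (ball_subset_ball ?_))
    have h1 : ((Nat.find (hex k) : ℕ) : ℝ) ≤ J := Nat.cast_le.2 (not_lt.1 hn)
    have h0 : (0 : ℝ) ≤ (Nat.find (hex k) : ℕ) := Nat.cast_nonneg _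
    exact one_div_le_one_div_of_le (by positivity) (by nlinarith)
  refine ⟨fun k => Nat.find (hex k) - 1, tendsto_atTop.2 fun J => ?_, ?_⟩
  · filter_upwards [hA J] with k hk
    have := hlt J k hk
    omega
  · filter_upwards [hA 0] with k hk
    have := hlt 0 k hk
    exact Nat.find_min (hex k) (by omega)

theorem bad_of (hPP : S_PP) (hLIM : S_LIM) (hCONV : S_CONV) (hMONO : S_MONO) : S_BAD := by
  intro U Mk hM x hx
  obtain ⟨j, hj, hbad⟩ := BAD_index U Mk hM x hx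
  have hch : ∀ k, ∃ (q : E) (ρ : ℝ), 0 < ρ ∧ (¬ (Mk k).Reg x (1 / ((j k : ℝ) + 1) ^ 2) →
      ρ ≤ 1 / ((j k : ℝ) + 1) ∧ ‖q - x‖ ≤ 2 * (1 / ((j k : ℝ) + 1)) ∧ ¬ (Mk k).Reg q (2 * ρ) ∧
        ∀ z ∈ ball q (((j k : ℝ) + 1) * ρ), (Mk k).Reg z (ρ / 2)) := by
    intro k
    by_cases h : (Mk k).Reg x (1 / ((j k : ℝ) + 1) ^ 2)
    · exact ⟨x, 1, one_pos, fun h' => absurd h h'⟩
    · have h0 : (0 : ℝ) ≤ j k := Nat.cast_nonneg _
      obtain ⟨q, ρ, h1, h2, h3, h4, h5⟩ := hPP (Mk k) (hM k) x _ ((j k : ℝ) + 1) (by positivity)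
        (by linarith) h
      refine ⟨q, ρ, h1, fun _ => ⟨h2.trans ?_, h3.trans (le_of_eq ?_), h4, h5⟩⟩
      · exact one_div_le_one_div_of_le (by positivity) (by nlinarith)
      · field_simp
  choose q ρ hρ hq using hch
  have hev := hbad.mono fun k hk => hq k hk
  set Z : ℕ → Surf := fun k => (Mk k).zoom (q k) (ρ k) with hZ
  have hZM : ∀ k, (Z k).Mem := fun k => (hM k).zoom (q k) (hρ k)
  have hjR : Tendsto (fun k => (j k : ℝ) + 1) U atTop :=
    tendsto_atTop_add_const_right _ 1 (tendsto_natCast_atTop_atTop.comp hj)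
  have ht : Tendsto (fun k => 1 / ((j k : ℝ) + 1)) U (𝓝 0) := by
    simp only [one_div]
    exact hjR.inv_tendsto_atTop
  have hO : limO U Z = univ := by
    refine eq_univ_of_forall fun z => ⟨1 / 2, by norm_num, ?_⟩
    filter_upwards [hev, hjR.eventually_gt_atTop ‖z‖] with k hk hz
    rw [hZ, (Mk k).zoom_reg (q k) (hρ k), mul_one_div]
    refine hk.2.2.2 _ ?_
    rw [mem_ball, dist_eq_norm, add_sub_cancel_left, norm_smul, Real.norm_of_nonneg (hρ k).le,
      mul_comm]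
    exact mul_lt_mul_of_pos_right hz (hρ k)
  obtain ⟨M', hM'O, hM'bd, hconv⟩ := hLIM U Z hZM
  rw [hO] at hM'O
  have hM' : M'.Mem := ⟨hM'O, hM'bd⟩
  obtain ⟨hc1, -, hc3, -⟩ := hCONV U Z M' hZM hconv
  refine ⟨M', hM', fun hflat => ?_, fun p s r ε hs hr hε => ?_⟩
  · obtain ⟨k, hk, hk2⟩ := (hev.and (hc1 (closedBall 0 2) (isCompact_closedBall 0 2) (hM'.sub _)
      (1 / 20) (by norm_num))).exists
    refine hk.2.2.1 ?_
    have hreg : (Z k).Reg 0 2 := by
      intro a ha b hb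
      obtain ⟨a', ha', -, h1⟩ := hk2 a ⟨ha.1, ball_subset_closedBall ha.2⟩
      obtain ⟨b', hb', -, h2⟩ := hk2 b ⟨hb.1, ball_subset_closedBall hb.2⟩
      rw [hflat a' ha' b' hb'] at h1
      have h3 := norm_sub_le_norm_sub_add_norm_sub ((Z k).N a) (M'.N b') ((Z k).N b)
      rw [norm_sub_rev (M'.N b')] at h3
      linarith
    rw [hZ, (Mk k).zoom_reg (q k) (hρ k), smul_zero, add_zero, mul_comm] at hreg
    exact hreg
  · have h1 := (hc3 p s hs (hM'.sub _)).eventually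
      (lt_mem_nhds (show M'.Θ p s - ε / 2 < M'.Θ p s by linarith))
    have h2 : ∀ᶠ k in (U : Filter ℕ), 1 / ((j k : ℝ) + 1) * s < r := by
      have := ht.mul_const s
      rw [zero_mul] at this
      exact this.eventually (gt_mem_nhds hr)
    have h3 : ∀ᶠ k in (U : Filter ℕ), 400 * ((2 + ‖p‖) * (1 / ((j k : ℝ) + 1))) / r < ε / 2 := by
      have := ((ht.const_mul (2 + ‖p‖)).const_mul 400).div_const r
      rw [mul_zero, mul_zero, zero_div] at this
      exact this.eventually (gt_mem_nhds (by linarith))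
    filter_upwards [hev, h1, h2, h3] with k hk h4 h5 h6
    have h7 : (Z k).Θ p s = (Mk k).Θ (q k + ρ k • p) (ρ k * s) := (Mk k).zoom_Θ (q k) (hρ k) p s
    have h8 : ρ k * s ≤ r := (mul_le_mul_of_nonneg_right hk.1 hs.le).trans h5.le
    have h9 := (hMONO (Mk k) (q k + ρ k • p) (ρ k * s) r (mul_pos (hρ k) hs) h8 ((hM k).sub _)).1
    have h10 := (abs_le.1 ((hM k).bd.Θ_lip x (q k + ρ k • p) hr)).2
    have h11 : ‖q k + ρ k • p - x‖ ≤ (2 + ‖p‖) * (1 / ((j k : ℝ) + 1)) := by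
      have e : q k + ρ k • p - x = (q k - x) + ρ k • p := by abel
      have h12 := norm_add_le (q k - x) (ρ k • p)
      rw [norm_smul, Real.norm_of_nonneg (hρ k).le] at h12
      have h13 := mul_le_mul_of_nonneg_right hk.1 (norm_nonneg p)
      rw [e]
      linarith [hk.2.1]
    have h14 : 400 * ‖q k + ρ k • p - x‖ / r ≤ 400 * ((2 + ‖p‖) * (1 / ((j k : ℝ) + 1))) / r := by
      gcongr
    linarith

end MW
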