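import Pool.Agent.P.MP_064970_gt.SG

/-!
G6 from its limit form, by contradiction along an ultrafilter finer than the cofinite filter.
-/

open scoped Manifold ContDiff
open MeasureTheory Set Filter Topology Metric
open scoped RealInnerProductSpace ENNReal ComplexConjugate Real

noncomputable section

namespace MW

universe u

theorem cone_of (hTRI : S_TRI) : S_CONE := by
  intro δ hδ hδ1
  by_contra hcon
  have hex : ∀ k : ℕ, ∃ (M : Surf) (p : E) (ρ : ℝ), M.Mem ∧ 0 < ρ ∧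
      2 - M.Θ p ρ ≤ 1 / ((k : ℝ) + 1) ∧ ¬ ((∃ ν, M.FlatW p ρ δ ν) ∨ (∃ ν, M.swap.FlatW p ρ δ ν) ∨
        ∃ ν₁ ν₂, |⟪ν₁, ν₂⟫| < 1 ∧ M.Cross p ρ δ ν₁ ν₂) := by
    intro k
    by_contra hk
    refine hcon ⟨1 / ((k : ℝ) + 1), Nat.one_div_pos_of_nat, fun M hM p ρ hρ hθ => ?_⟩
    by_contra hn
    exact hk ⟨M, p, ρ, hM, hρ, hθ, hn⟩
  choose Mk pk ρk hM hρ hθ hn using hex
  have hle : (hyperfilter ℕ : Filter ℕ) ≤ atTop := by
    rw [← Nat.cofinite_eq_atTop]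
    exact hyperfilter_le_cofinite
  have hlim : Tendsto (fun k => (Mk k).Θ (pk k) (ρk k)) atTop (𝓝 2) := by
    have h1 : Tendsto (fun k : ℕ => 2 - 1 / ((k : ℝ) + 1)) atTop (𝓝 (2 - 0)) :=
      tendsto_const_nhds.sub tendsto_one_div_add_atTop_nhds_zero_nat
    rw [sub_zero] at h1
    refine tendsto_of_tendsto_of_tendsto_of_le_of_le h1 tendsto_const_nhds (fun k => ?_)
      (fun k => (hM k).bd.Θ_le_two _ (hρ k))
    have := hθ k
    show 2 - 1 / ((k : ℝ) + 1) ≤ (Mk k).Θ (pk k) (ρk k)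
    linarith
  rcases hTRI (hyperfilter ℕ) Mk pk ρk hM hρ (hlim.mono_left hle) with
    ⟨ν, h⟩ | ⟨ν, h⟩ | ⟨ν₁, ν₂, hν, h⟩
  · obtain ⟨k, hk⟩ := (h δ hδ hδ1).exists
    exact hn k (Or.inl ⟨ν, hk⟩)
  · obtain ⟨k, hk⟩ := (h δ hδ hδ1).exists
    exact hn k (Or.inr (Or.inl ⟨ν, hk⟩))
  · obtain ⟨k, hk⟩ := (h δ hδ hδ1).exists
    exact hn k (Or.inr (Or.inr ⟨ν₁, ν₂, hν, hk⟩))

end MW
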