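import Pool.Agent.P.MP_064970_gt.SG

/-!
BAD gives M' nonflat, GAP gives Theta'(0,s) >= 2 - eps for large s; Theta_k <= 2.
-/

open scoped Manifold ContDiff
open MeasureTheory Set Filter Topology Metric
open scoped RealInnerProductSpace ENNReal ComplexConjugate Real

noncomputable section

namespace MW

universe u

theorem cor_of (hBAD : S_BAD) (hGAP : S_GAP) : S_COR := by
  intro U Mk hmem x hx r hr
  obtain ⟨M', hM', hnf, hle⟩ := hBAD U Mk hmem x hx
  have hgap := hGAP M' hM' hnf 0
  rw [Metric.tendsto_nhds]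
  intro ε hε
  have h1 : ∀ᶠ s in (atTop : Filter ℝ), 2 - ε / 2 < M'.Θ 0 s :=
    hgap.eventually (lt_mem_nhds (by linarith))
  obtain ⟨s, hs, hs0⟩ := (h1.and (eventually_gt_atTop 0)).exists
  filter_upwards [hle 0 s r (ε / 2) hs0 hr (by linarith)] with k hk
  have h2 := (hmem k).bd.Θ_le_two x hr
  rw [Real.dist_eq, abs_lt]
  constructor <;> linarith

end MW
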