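import Pool.Agent.P.MP_064970_gt.SG

/-!
Sides of the points pt w' 0 for unit w' not in T by Surf.par_one / Surf.par on horizontal segments
that avoid 0 (they lie in O). card 3: unit vectors with sum 0, so -w_i not in T and the segment from
-w1 to -w2 meets the rays only at w3/2, transversally; three points pairwise on opposite sides are
impossible. card 4 with sum 0: T = {w1, -w1, w2, -w2} (|w1+w2| = |w3+w4| with opposite sums: two
unit vectors with a given nonzero sum are determined). The four open sectors {a w1 + b w2, signs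
fixed} x R are convex, miss S, lie on one side each; adjacent sectors have different sides
(Surf.side on the half plane between them). Relabel w2 -> -w2 so that the sector (+,+) is in W'; nu1
= N on H_w1, nu2 = N on H_w2.
-/

open scoped Manifold ContDiff
open MeasureTheory Set Filter Topology Metric
open scoped RealInnerProductSpace ENNReal ComplexConjugate Real

noncomputable section

namespace MW

universe u

/-- Two planes with normals up to sign. -/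
structure COUNT_Pre (M : Surf) (ν₁ ν₂ : E) : Prop where
  unit₁ : ‖ν₁‖ = 1
  unit₂ : ‖ν₂‖ = 1
  ang : |⟪ν₁, ν₂⟫| < 1
  off : ∀ x, ⟪x, ν₁⟫ ≠ 0 ∨ ⟪x, ν₂⟫ ≠ 0 → x ∈ M.O
  mem : ∀ x, ⟪x, ν₁⟫ ≠ 0 ∨ ⟪x, ν₂⟫ ≠ 0 → (x ∈ M.S ↔ ⟪x, ν₁⟫ = 0 ∨ ⟪x, ν₂⟫ = 0)
  nrm₁ : ∀ x, ⟪x, ν₁⟫ = 0 → ⟪x, ν₂⟫ ≠ 0 → M.N x = ν₁ ∨ M.N x = -ν₁
  nrm₂ : ∀ x, ⟪x, ν₂⟫ = 0 → ⟪x, ν₁⟫ ≠ 0 → M.N x = ν₂ ∨ M.N x = -ν₂

/-- An open sector. -/
def COUNT_Q (ν₁ ν₂ : E) : Set E := {x | 0 < ⟪x, ν₁⟫ ∧ 0 < ⟪x, ν₂⟫}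

variable {M : Surf} {ν₁ ν₂ : E}

theorem COUNT_Q_comm (ν₁ ν₂ : E) : COUNT_Q ν₁ ν₂ = COUNT_Q ν₂ ν₁ := by
  ext x
  exact and_comm

theorem COUNT_symm (h : COUNT_Pre M ν₁ ν₂) : COUNT_Pre M ν₂ ν₁ :=
  ⟨h.unit₂, h.unit₁, by rw [real_inner_comm]; exact h.ang, fun x hx => h.off x hx.symm,
    fun x hx => (h.mem x hx.symm).trans or_comm, h.nrm₂, h.nrm₁⟩

theorem COUNT_neg (h : COUNT_Pre M ν₁ ν₂) : COUNT_Pre M (-ν₁) ν₂ := by
  refine ⟨by rw [norm_neg]; exact h.unit₁, h.unit₂, ?_, fun x hx => h.off x ?_, fun x hx => ?_,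
    fun x h1 h2 => ?_, fun x h1 h2 => h.nrm₂ x h1 ?_⟩
  · rw [inner_neg_left, abs_neg]
    exact h.ang
  · simpa using hx
  · rw [h.mem x (by simpa using hx)]
    simp
  · rw [neg_neg]
    exact (h.nrm₁ x (by simpa using h1) h2).symm
  · simpa using h2

theorem COUNT_neg' (h : COUNT_Pre M ν₁ ν₂) : COUNT_Pre M ν₁ (-ν₂) :=
  COUNT_symm (COUNT_neg (COUNT_symm h))

theorem COUNT_conn (ν₁ ν₂ : E) : IsPreconnected (COUNT_Q ν₁ ν₂) := by
  refine Convex.isPreconnected ?_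
  have h1 : ∀ ν : E, Convex ℝ {x : E | 0 < ⟪x, ν⟫} := fun ν =>
    convex_halfSpace_gt ⟨fun x y => inner_add_left x y ν, fun c x => real_inner_smul_left x ν c⟩ 0
  exact (h1 ν₁).inter (h1 ν₂)

theorem COUNT_sub (h : COUNT_Pre M ν₁ ν₂) : COUNT_Q ν₁ ν₂ ⊆ M.O :=
  fun x hx => h.off x (Or.inl hx.1.ne')

theorem COUNT_disj (h : COUNT_Pre M ν₁ ν₂) : Disjoint (COUNT_Q ν₁ ν₂) M.S := by
  refine disjoint_left.2 fun x hx hS => ?_
  rcases (h.mem x (Or.inl hx.1.ne')).1 hS with h1 | h1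
  · exact hx.1.ne' h1
  · exact hx.2.ne' h1

theorem COUNT_adj (h : COUNT_Pre M ν₁ ν₂) {x : E} (h1 : ⟪x, ν₁⟫ = 0) (h2 : 0 < ⟪x, ν₂⟫)
    (hN : M.N x = ν₁) : COUNT_Q ν₁ ν₂ ⊆ M.W' ∧ COUNT_Q (-ν₁) ν₂ ⊆ M.W := by
  have hS : x ∈ M.S := (h.mem x (Or.inr h2.ne')).2 (Or.inl h1)
  have h11 : ⟪ν₁, ν₁⟫ = (1 : ℝ) := by rw [real_inner_self_eq_norm_sq, h.unit₁]; norm_num
  have h3 := M.side x hS ν₁ (by rw [hN, h11]; exact one_pos)
  have h4 : ∀ᶠ t in 𝓝[>] (0 : ℝ), t ∈ Ioo (0 : ℝ) ⟪x, ν₂⟫ := Ioo_mem_nhdsGT h2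
  obtain ⟨t, ⟨hp, hm⟩, ht0, ht1⟩ := (h3.and h4).exists
  obtain ⟨a1, a2⟩ := abs_lt.1 h.ang
  constructor
  · refine M.subset_W' (COUNT_conn _ _) (COUNT_sub h) (COUNT_disj h) ⟨?_, ?_⟩ hp
    · rw [inner_add_left, real_inner_smul_left, h1, h11]
      linarith
    · rw [inner_add_left, real_inner_smul_left]
      nlinarith
  · refine M.subset_W (COUNT_conn _ _) (COUNT_sub (COUNT_neg h)) (COUNT_disj (COUNT_neg h))
      ⟨?_, ?_⟩ hm
    · rw [inner_neg_right, inner_sub_left, real_inner_smul_left, h1, h11]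
      linarith
    · rw [inner_sub_left, real_inner_smul_left]
      nlinarith

theorem COUNT_ne (h : COUNT_Pre M ν₁ ν₂) : ν₁ + ν₂ ∈ COUNT_Q ν₁ ν₂ := by
  obtain ⟨a1, -⟩ := abs_lt.1 h.ang
  constructor
  · rw [inner_add_left, real_inner_self_eq_norm_sq, h.unit₁, real_inner_comm]
    linarith
  · rw [inner_add_left, real_inner_self_eq_norm_sq, h.unit₂]
    linarith

theorem COUNT_ex (h : COUNT_Pre M ν₁ ν₂) : ∃ x : E, ⟪x, ν₁⟫ = 0 ∧ 0 < ⟪x, ν₂⟫ := by
  obtain ⟨a1, a2⟩ := abs_lt.1 h.ang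
  refine ⟨ν₂ - ⟪ν₁, ν₂⟫ • ν₁, ?_, ?_⟩
  · rw [inner_sub_left, real_inner_smul_left, real_inner_self_eq_norm_sq, h.unit₁,
      real_inner_comm]
    ring
  · rw [inner_sub_left, real_inner_smul_left, real_inner_self_eq_norm_sq, h.unit₂]
    nlinarith

theorem COUNT_W' (h : COUNT_Pre M ν₁ ν₂) (hQ : COUNT_Q ν₁ ν₂ ⊆ M.W') :
    (∀ x, ⟪x, ν₁⟫ = 0 → 0 < ⟪x, ν₂⟫ → M.N x = ν₁) ∧ COUNT_Q (-ν₁) ν₂ ⊆ M.W := by
  have h1 : ∀ x, ⟪x, ν₁⟫ = 0 → 0 < ⟪x, ν₂⟫ → M.N x = ν₁ := fun x h1 h2 => by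
    refine (h.nrm₁ x h1 h2.ne').resolve_right fun h3 => ?_
    have h4 := (COUNT_adj (COUNT_neg h) (by simpa using h1) h2 h3).2
    rw [neg_neg] at h4
    exact disjoint_left.1 M.disj (h4 (COUNT_ne h)) (hQ (COUNT_ne h))
  obtain ⟨x, h2, h3⟩ := COUNT_ex h
  exact ⟨h1, (COUNT_adj h h2 h3 (h1 x h2 h3)).2⟩

theorem COUNT_W (h : COUNT_Pre M ν₁ ν₂) (hQ : COUNT_Q ν₁ ν₂ ⊆ M.W) :
    (∀ x, ⟪x, ν₁⟫ = 0 → 0 < ⟪x, ν₂⟫ → M.N x = -ν₁) ∧ COUNT_Q (-ν₁) ν₂ ⊆ M.W' := by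
  have h1 : ∀ x, ⟪x, ν₁⟫ = 0 → 0 < ⟪x, ν₂⟫ → M.N x = -ν₁ := fun x h1 h2 => by
    refine (h.nrm₁ x h1 h2.ne').resolve_left fun h3 => ?_
    exact disjoint_left.1 M.disj (hQ (COUNT_ne h)) ((COUNT_adj h h1 h2 h3).1 (COUNT_ne h))
  obtain ⟨x, h2, h3⟩ := COUNT_ex h
  exact ⟨h1, (COUNT_adj (COUNT_neg h) (by simpa using h2) h3 (h1 x h2 h3)).1⟩

theorem COUNT_cross (h : COUNT_Pre M ν₁ ν₂) (hQ : COUNT_Q ν₁ ν₂ ⊆ M.W') : M.CrossLim ν₁ ν₂ := by
  obtain ⟨p1, q1⟩ := COUNT_W' h hQ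
  obtain ⟨p2, q2⟩ := COUNT_W' (COUNT_symm h) (COUNT_Q_comm ν₁ ν₂ ▸ hQ)
  obtain ⟨n1, q3⟩ := COUNT_W (COUNT_neg' h) (COUNT_Q_comm (-ν₂) ν₁ ▸ q2)
  obtain ⟨n2, -⟩ := COUNT_W (COUNT_symm (COUNT_neg h)) (COUNT_Q_comm (-ν₁) ν₂ ▸ q1)
  refine ⟨h.unit₁, h.unit₂, h.ang, h.off, h.mem, p1, fun x h1 h2 => n1 x h1 (by simpa using h2),
    p2, fun x h1 h2 => n2 x h1 (by simpa using h2), fun x => ⟨fun h1 => ?_, fun h1 => ?_⟩⟩
  · rcases mul_neg_iff.1 h1 with h2 | h2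
    · exact q2 ⟨by simpa using h2.2, h2.1⟩
    · exact q1 ⟨by simpa using h2.1, h2.2⟩
  · rcases mul_pos_iff.1 h1 with h2 | h2
    · exact hQ h2
    · exact q3 ⟨by simpa using h2.1, by simpa using h2.2⟩

theorem COUNT_cross_or (h : COUNT_Pre M ν₁ ν₂) : M.CrossLim ν₁ ν₂ ∨ M.CrossLim ν₁ (-ν₂) := by
  rcases M.subset_side (COUNT_conn ν₁ ν₂) (COUNT_sub h) (COUNT_disj h) with h1 | h1
  · have h2 := (COUNT_W (COUNT_symm h) (COUNT_Q_comm ν₁ ν₂ ▸ h1)).2
    exact Or.inr (COUNT_cross (COUNT_neg' h) (COUNT_Q_comm (-ν₂) ν₁ ▸ h2))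
  · exact Or.inl (COUNT_cross h h1)

theorem COUNT_unit {a : ℂ} (ha : ‖a‖ = 1) : a.re ^ 2 + a.im ^ 2 = 1 := by
  have h := Complex.sq_norm a
  rw [ha, Complex.normSq_apply] at h
  linarith

theorem COUNT_inner (x : E) (a : ℂ) : ⟪x, pt (Complex.I * a) 0⟫ = x 1 * a.re - x 0 * a.im := by
  rw [inner_eq]
  simp
  ring

variable {T : Finset ℂ} {σ : ℂ → ℝ}

theorem COUNT_ray (h : M.Halves T σ) {w : ℂ} (hw : w ∈ T) {x : E} {s : ℝ} (hs : 0 < s)
    (hx : pr x = s • w) :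
    M.N x = pt (Complex.I * w) 0 ∨ M.N x = -pt (Complex.I * w) 0 := by
  have h1 := h.nrm w hw s (x 2) hs
  rw [← hx, pt_pr] at h1
  rw [h1]
  rcases (h.unit w hw).2 with h2 | h2
  · left
    rw [h2, one_smul]
  · right
    rw [h2]
    ext i
    fin_cases i <;> simp

theorem COUNT_line (h : M.Halves T σ) {a : ℂ} (ha : a ∈ T) (ha' : -a ∈ T) {x : E} (hx : pr x ≠ 0)
    (h0 : ⟪x, pt (Complex.I * a) 0⟫ = 0) :
    x ∈ M.S ∧ (M.N x = pt (Complex.I * a) 0 ∨ M.N x = -pt (Complex.I * a) 0) := by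
  have hu := COUNT_unit (h.unit a ha).1
  rw [COUNT_inner] at h0
  have h1 : pr x = (x 0 * a.re + x 1 * a.im) • a := by
    apply Complex.ext
    · simp only [pr_re, Complex.smul_re, smul_eq_mul]
      linear_combination (-x 0) * hu - a.im * h0
    · simp only [pr_im, Complex.smul_im, smul_eq_mul]
      linear_combination (-x 1) * hu + a.re * h0
  rcases lt_trichotomy (x 0 * a.re + x 1 * a.im) 0 with h2 | h2 | h2
  · have h3 : pr x = (-(x 0 * a.re + x 1 * a.im)) • (-a) := by rw [neg_smul_neg]; exact h1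
    refine ⟨(h.mem x hx).2 ⟨-a, ha', _, neg_pos.2 h2, h3⟩, ?_⟩
    have h4 : pt (Complex.I * -a) 0 = -pt (Complex.I * a) 0 := by
      ext i
      fin_cases i <;> simp
    have h5 := COUNT_ray h ha' (neg_pos.2 h2) h3
    rw [h4, neg_neg] at h5
    exact h5.symm
  · rw [h2, zero_smul] at h1
    exact absurd h1 hx
  · exact ⟨(h.mem x hx).2 ⟨a, ha, _, h2, h1⟩, COUNT_ray h ha h2 h1⟩

theorem COUNT_pre (h : M.Halves T σ) {a b : ℂ} (hT : ∀ w, w ∈ T ↔ w = a ∨ w = -a ∨ w = b ∨ w = -b)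
    (h1 : a ≠ b) (h2 : a ≠ -b) : COUNT_Pre M (pt (Complex.I * a) 0) (pt (Complex.I * b) 0) := by
  have ha : a ∈ T := (hT _).2 (Or.inl rfl)
  have ha' : -a ∈ T := (hT _).2 (Or.inr (Or.inl rfl))
  have hb : b ∈ T := (hT _).2 (Or.inr (Or.inr (Or.inl rfl)))
  have hb' : -b ∈ T := (hT _).2 (Or.inr (Or.inr (Or.inr rfl)))
  have hoff : ∀ x : E, ⟪x, pt (Complex.I * a) 0⟫ ≠ 0 ∨ ⟪x, pt (Complex.I * b) 0⟫ ≠ 0 →
      pr x ≠ 0 := fun x hx h0 => by
    rw [inner_pt, inner_pt, h0] at hx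
    simp at hx
  have hn : ∀ w ∈ T, ‖pt (Complex.I * w) 0‖ = 1 := fun w hw => by
    rw [norm_pt_zero, norm_mul, Complex.norm_I, (h.unit w hw).1, one_mul]
  refine ⟨hn a ha, hn b hb, ?_, fun x hx => h.off x (hoff x hx), fun x hx => ⟨fun hS => ?_, ?_⟩,
    fun x h3 h4 => (COUNT_line h ha ha' (hoff x (Or.inr h4)) h3).2,
    fun x h3 h4 => (COUNT_line h hb hb' (hoff x (Or.inl h4)) h3).2⟩
  · have ua := COUNT_unit (h.unit a ha).1
    have ub := COUNT_unit (h.unit b hb).1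
    have h3 : 0 < Complex.normSq (a - b) := Complex.normSq_pos.2 (sub_ne_zero.2 h1)
    have h4 : 0 < Complex.normSq (a - -b) := Complex.normSq_pos.2 (sub_ne_zero.2 h2)
    rw [COUNT_inner, abs_lt]
    simp only [Complex.normSq_apply, Complex.sub_re, Complex.sub_im, Complex.neg_re,
      Complex.neg_im] at h3 h4
    simp only [pt_one, pt_zero, Complex.mul_re, Complex.mul_im, Complex.I_re, Complex.I_im]
    constructor <;> nlinarith
  · obtain ⟨w, hw, s, -, h3⟩ := (h.mem x (hoff x hx)).1 hS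
    have h4 : x 0 = s * w.re := by simpa using congrArg Complex.re h3
    have h5 : x 1 = s * w.im := by simpa using congrArg Complex.im h3
    rw [COUNT_inner, COUNT_inner, h4, h5]
    rcases (hT w).1 hw with rfl | rfl | rfl | rfl
    · left; ring
    · left; simp only [Complex.neg_re, Complex.neg_im]; ring
    · right; ring
    · right; simp only [Complex.neg_re, Complex.neg_im]; ring
  · rintro (h3 | h3)
    · exact (COUNT_line h ha ha' (hoff x hx) h3).1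
    · exact (COUNT_line h hb hb' (hoff x hx) h3).1

theorem COUNT_flip (h : M.Halves T σ) {a b c : ℂ} (hT : ∀ w ∈ T, w = a ∨ w = b ∨ w = c)
    (ha : a ∈ T) (hb : b ∈ T) (hc : c ∈ T) (hs : a + b + c = 0) :
    pt (-a) 0 ∈ M.W ↔ pt (-b) 0 ∉ M.W := by
  have ua := COUNT_unit (h.unit a ha).1
  have ub := COUNT_unit (h.unit b hb).1
  have uc := COUNT_unit (h.unit c hc).1
  have cr : c.re = -a.re - b.re := by
    have h1 := congrArg Complex.re hs
    simp only [Complex.add_re, Complex.zero_re] at h1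
    linarith
  have ci : c.im = -a.im - b.im := by
    have h1 := congrArg Complex.im hs
    simp only [Complex.add_im, Complex.zero_im] at h1
    linarith
  have hD : a.re * b.im - a.im * b.re ≠ 0 := by
    intro h0
    rw [cr, ci] at uc
    have h1 : a.re * b.re + a.im * b.im = -1 / 2 := by linarith
    have h2 : (a.re * b.re + a.im * b.im) ^ 2 + (a.re * b.im - a.im * b.re) ^ 2 =
        (a.re ^ 2 + a.im ^ 2) * (b.re ^ 2 + b.im ^ 2) := by ring
    rw [h1, h0, ua, ub] at h2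
    norm_num at h2
  have ind : ∀ (t α β : ℝ), pr (pt (-a) 0 + t • pt (a - b) 0) = α • a + β • b →
      α = t - 1 ∧ β = -t := fun t α β h1 => by
    have h2 := congrArg Complex.re h1
    have h3 := congrArg Complex.im h1
    simp only [pr_re, pr_im, PiLp.add_apply, PiLp.smul_apply, pt_zero, pt_one, Complex.neg_re,
      Complex.neg_im, Complex.sub_re, Complex.sub_im, smul_eq_mul, Complex.add_re, Complex.add_im,
      Complex.smul_re, Complex.smul_im] at h2 h3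
    constructor
    · refine mul_right_cancel₀ hD ?_
      linear_combination b.re * h3 - b.im * h2
    · refine mul_right_cancel₀ hD ?_
      linear_combination a.im * h2 - a.re * h3
  have hne : ∀ t : ℝ, pr (pt (-a) 0 + t • pt (a - b) 0) ≠ 0 := fun t h0 => by
    have h1 := ind t 0 0 (by rw [h0]; simp)
    linarith [h1.1, h1.2]
  have hc' : c = -a - b := by linear_combination hs
  have hmid : pr (pt (-a) 0 + (1 / 2 : ℝ) • pt (a - b) 0) = (1 / 2 : ℝ) • c := by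
    rw [pr_add, pr_smul, pr_pt, pr_pt, hc']
    simp only [Complex.real_smul]
    push_cast
    ring
  have h1 := M.basic_flip (a := pt (-a) 0) (v := pt (a - b) 0) (p := 0) (s := 1 / 2) (q := 1)
    (by norm_num) (by norm_num) (fun t _ => h.off _ (hne t)) (fun t ht hne' hS => ?_)
    ((h.mem _ (hne _)).2 ⟨c, hc, 1 / 2, by norm_num, hmid⟩) ?_
  · rw [zero_smul, add_zero, one_smul, ← pt_add] at h1
    have h2 : -a + (a - b) = -b := by ring
    rwa [h2, add_zero] at h1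
  · obtain ⟨w, hw, s, hs0, h2⟩ := (h.mem _ (hne t)).1 hS
    rcases hT w hw with h3 | h3 | h3
    · have h4 := ind t s 0 (by rw [h2, h3]; simp)
      linarith [h4.1, h4.2]
    · have h4 := ind t 0 s (by rw [h2, h3]; simp)
      linarith [h4.1, h4.2]
    · have h4 := ind t (-s) (-s) (by rw [h2, h3, hc']; module)
      exact hne' (by linarith [h4.1, h4.2])
  · have h2 : ⟪pt (a - b) 0, pt (Complex.I * c) 0⟫ ≠ 0 := by
      rw [COUNT_inner, pt_one, pt_zero, Complex.sub_re, Complex.sub_im, cr, ci]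
      intro h0
      exact hD (by linarith)
    rcases COUNT_ray h hc (by norm_num) hmid with h3 | h3
    · rwa [h3]
    · rwa [h3, inner_neg_right, neg_ne_zero]

theorem COUNT_three (h : M.Halves T σ) (h3 : T.card = 3) (hs : ∑ w ∈ T, w = 0) : False := by
  obtain ⟨a, b, c, hab, hac, hbc, rfl⟩ := Finset.card_eq_three.1 h3
  rw [Finset.sum_insert (by simp [hab, hac]), Finset.sum_pair hbc] at hs
  have hT : ∀ w ∈ ({a, b, c} : Finset ℂ), w = a ∨ w = b ∨ w = c := fun w hw => by simpa using hw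
  have ha : a ∈ ({a, b, c} : Finset ℂ) := by simp
  have hb : b ∈ ({a, b, c} : Finset ℂ) := by simp
  have hc : c ∈ ({a, b, c} : Finset ℂ) := by simp
  have h1 := COUNT_flip h hT ha hb hc (by linear_combination hs)
  have h2 := COUNT_flip h (fun w hw => by have := hT w hw; tauto) hb hc ha
    (by linear_combination hs)
  have h4 := COUNT_flip h (fun w hw => by have := hT w hw; tauto) hc ha hb
    (by linear_combination hs)
  tauto

theorem COUNT_prod {a b c d : ℂ} (ha : ‖a‖ = 1) (hb : ‖b‖ = 1) (hc : ‖c‖ = 1) (hd : ‖d‖ = 1)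
    (hs : a + b + c + d = 0) : (a + b) * (a + c) * (a + d) = 0 := by
  have hu : ∀ z : ℂ, ‖z‖ = 1 → z * conj z = 1 := fun z hz => by
    rw [Complex.mul_conj, Complex.normSq_eq_norm_sq, hz]
    norm_num
  have h1 : conj a + conj b + conj c + conj d = 0 := by
    rw [← map_add, ← map_add, ← map_add, hs, map_zero]
  linear_combination a ^ 2 * hs + a * b * c * d * h1 - b * c * d * hu a ha - a * c * d * hu b hb
    - a * b * d * hu c hc - a * b * c * hu d hd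

theorem COUNT_four (h : M.Halves T σ) (h4 : T.card = 4) (hs : ∑ w ∈ T, w = 0) :
    ∃ a b : ℂ, (∀ w, w ∈ T ↔ w = a ∨ w = -a ∨ w = b ∨ w = -b) ∧ a ≠ b ∧ a ≠ -b := by
  obtain ⟨a, T', haT, rfl, h3⟩ := Finset.card_eq_succ.1 h4
  obtain ⟨b, c, d, hbc, hbd, hcd, rfl⟩ := Finset.card_eq_three.1 h3
  rw [Finset.sum_insert haT, Finset.sum_insert (by simp [hbc, hbd]), Finset.sum_pair hcd] at hs
  have hp := COUNT_prod (h.unit a (by simp)).1 (h.unit b (by simp)).1 (h.unit c (by simp)).1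
    (h.unit d (by simp)).1 (by linear_combination hs)
  simp only [Finset.mem_insert, Finset.mem_singleton, not_or] at haT
  obtain ⟨hab, hac, had⟩ := haT
  simp only [Finset.mem_insert, Finset.mem_singleton]
  rcases mul_eq_zero.1 hp with h1 | h1
  · rcases mul_eq_zero.1 h1 with h1 | h1
    · have e1 : -a = b := by linear_combination -h1
      have e2 : -c = d := by linear_combination h1 - hs
      exact ⟨a, c, fun w => by rw [e1, e2], hac, e2 ▸ had⟩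
    · have e1 : -a = c := by linear_combination -h1
      have e2 : -b = d := by linear_combination h1 - hs
      exact ⟨a, b, fun w => by rw [e1, e2]; tauto, hab, e2 ▸ had⟩
  · have e1 : -a = d := by linear_combination -h1
    have e2 : -b = c := by linear_combination h1 - hs
    exact ⟨a, b, fun w => by rw [e1, e2]; tauto, hab, e2 ▸ hac⟩

theorem count_of : S_COUNT := by
  intro M T σ h hc hs
  have h4 : T.card = 4 := hc.resolve_left fun h3 => COUNT_three h h3 hs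
  obtain ⟨a, b, hT, h1, h2⟩ := COUNT_four h h4 hs
  refine ⟨h4, ?_⟩
  rcases COUNT_cross_or (COUNT_pre h hT h1 h2) with h3 | h3
  · exact ⟨_, _, rfl, rfl, h3⟩
  · exact ⟨_, _, rfl, by simp, h3⟩

end MW
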