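import Pool.Agent.P.MP_064970_gt.SG

/-!
G5. Else for each k a member with Theta(p,r) >= 3/2 and 2 - Theta(p,s) > eps, s >= (k+1)^2 r. Zoom
at (p, (k+1) r): Theta_k(0,t) in [3/2, 2 - eps] for t in [1/(k+1), k+1] (MONO). U = hyperfilter. A
bad point x has Theta_k(x,t) -> 2 for all t (COR), against Bd.Θ_lip for large t. So LIM gives a
member M with Theta(0,t) in [3/2, 2 - eps] for all t (CONV). Nonflat contradicts GAP, flat
contradicts UP (Flat.reg).
-/

open scoped Manifold ContDiff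
open MeasureTheory Set Filter Topology Metric
open scoped RealInnerProductSpace ENNReal ComplexConjugate Real

noncomputable section

namespace MW

universe u

theorem dec_of (hCOR : S_COR) (hLIM : S_LIM) (hCONV : S_CONV) (hGAP : S_GAP) (hUP : S_UP) (hMONO : S_MONO) : S_DEC := by
  intro ε hε
  by_contra hc
  push Not at hc
  have hc' : ∀ k : ℕ, ∃ M : Surf, M.Mem ∧ 3 / 2 ≤ M.Θ 0 1 ∧
      ∀ t : ℝ, 0 < t → t ≤ k → M.Θ 0 t ≤ 2 - ε := by
    intro k
    have hk : (0 : ℝ) ≤ k := Nat.cast_nonneg k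
    obtain ⟨M, hM, p, r, s, hr, hs, h1, h2⟩ := hc (k + 1) (by linarith)
    refine ⟨M.zoom p r, hM.zoom p hr, ?_, fun t ht htk => ?_⟩
    · rw [M.zoom_Θ p hr]
      simpa using h1
    · rw [M.zoom_Θ p hr, smul_zero, add_zero]
      have h3 := (hMONO M p (r * t) s (mul_pos hr ht) (by nlinarith)
        (by rw [hM.univ]; exact subset_univ _)).1
      linarith
  choose Mk hmem hlo hup using hc'
  set U : Ultrafilter ℕ := hyperfilter ℕ with hU
  have hev : ∀ t : ℝ, 0 < t → ∀ᶠ k in (U : Filter ℕ), (Mk k).Θ 0 t ≤ 2 - ε := by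
    intro t ht
    have h1 : ∀ᶠ k : ℕ in atTop, t ≤ k := tendsto_natCast_atTop_atTop.eventually_ge_atTop t
    rw [← Nat.cofinite_eq_atTop] at h1
    exact (h1.filter_mono hyperfilter_le_cofinite).mono fun k hk => hup k t ht hk
  have hall : ∀ x, x ∈ limO U Mk := by
    intro x
    by_contra hx
    have ht : 0 < 800 * (‖x‖ + 1) / ε := by positivity
    have h1 := hCOR U Mk hmem x hx _ ht
    have h2 : 400 * ‖x - 0‖ / (800 * (‖x‖ + 1) / ε) ≤ ε / 2 := by
      rw [sub_zero, div_le_iff₀ ht]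
      have h3 : ε / 2 * (800 * (‖x‖ + 1) / ε) = 400 * (‖x‖ + 1) := by field_simp; norm_num
      rw [h3]
      linarith
    have h3 : (2 : ℝ) ≤ 2 - ε / 2 := by
      refine le_of_tendsto h1 ((hev _ ht).mono fun k hk => ?_)
      have h4 := (abs_le.1 ((hmem k).bd.Θ_lip 0 x ht)).2
      linarith
    linarith
  obtain ⟨M, hO, hbd, hconv⟩ := hLIM U Mk hmem
  have hM : M.Mem := ⟨hO.trans (eq_univ_of_forall hall), hbd⟩
  have hΘ : ∀ t : ℝ, 0 < t → Tendsto (fun k => (Mk k).Θ 0 t) U (𝓝 (M.Θ 0 t)) := fun t ht =>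
    (hCONV U Mk M hmem hconv).2.2.1 0 t ht (by rw [hM.univ]; exact subset_univ _)
  by_cases hF : M.Flat
  · have h1 := hUP M hM 0 1 one_pos (hF.reg 0 1)
    have h2 : 3 / 2 ≤ M.Θ 0 1 := ge_of_tendsto' (hΘ 1 one_pos) hlo
    linarith
  · have h1 : (2 : ℝ) ≤ 2 - ε :=
      le_of_tendsto (hGAP M hM hF 0) ((eventually_gt_atTop 0).mono fun t ht =>
        le_of_tendsto (hΘ t ht) (hev t ht))
    linarith

end MW
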