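import Pool.Agent.P.MP_064970_gt.SG

/-!
G4. For a member let sup(M) = sSup of Theta p r (<= 2); by MONO and Bd.Θ_lip Theta p r -> sup(M) as
r -> oo for every p. th = inf of sup(M) over nonflat members; show th = 2. Take nonflat M_k with sup
<= th + 1/(k+1), U = hyperfilter. th > 1: FLAT2 gives r_k with not Reg 0 r_k; zoom by (k+1) r_k so
that 0 is not in limO; BAD gives a nonflat M' with Theta' <= th; if th <= 1 this contradicts RIG1.
Blow down: zoom M_k by R_k with Theta_k(0, R_k/(k+1)) >= th - 1/(k+1): StrHyp holds (bad points by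
BAD: liminf Theta_k(x,r) >= sup(M') >= th). STR gives th = 2.
-/

open scoped Manifold ContDiff
open MeasureTheory Set Filter Topology Metric
open scoped RealInnerProductSpace ENNReal ComplexConjugate Real

noncomputable section

namespace MW

universe u

/-- The supremum of the densities. -/
def GAP_sup (M : Surf) : ℝ := sSup {t | ∃ p r, 0 < r ∧ t = M.Θ p r}

theorem GAP_ne (M : Surf) : {t | ∃ p r, 0 < r ∧ t = M.Θ p r}.Nonempty := ⟨_, 0, 1, one_pos, rfl⟩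

theorem GAP_le_sup {M : Surf} (h : M.Mem) (p : E) {r : ℝ} (hr : 0 < r) : M.Θ p r ≤ GAP_sup M :=
  le_csSup ⟨2, fun _ ⟨q, _, hs, e⟩ => e ▸ h.bd.Θ_le_two q hs⟩ ⟨p, r, hr, rfl⟩

theorem GAP_sup_le_two {M : Surf} (h : M.Mem) : GAP_sup M ≤ 2 :=
  csSup_le (GAP_ne M) fun _ ⟨q, _, hs, e⟩ => e ▸ h.bd.Θ_le_two q hs

theorem GAP_exists {M : Surf} {a : ℝ} (ha : a < GAP_sup M) : ∃ p r, 0 < r ∧ a < M.Θ p r := by
  obtain ⟨_, ⟨p, r, hr, rfl⟩, h⟩ := exists_lt_of_lt_csSup (GAP_ne M) ha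
  exact ⟨p, r, hr, h⟩

theorem GAP_mono (hMONO : S_MONO) {M : Surf} (h : M.Mem) (p : E) {r s : ℝ} (hr : 0 < r)
    (hrs : r ≤ s) : M.Θ p r ≤ M.Θ p s := (hMONO M p r s hr hrs (h.sub _)).1

theorem GAP_tendsto (hMONO : S_MONO) {M : Surf} (h : M.Mem) (p : E) :
    Tendsto (M.Θ p) atTop (𝓝 (GAP_sup M)) := by
  refine tendsto_order.2 ⟨fun a ha => ?_, fun a ha => ?_⟩
  · obtain ⟨q, s, hs, hq⟩ := GAP_exists ha
    have h0 : Tendsto (fun r : ℝ => 400 * ‖q - p‖ / r) atTop (𝓝 0) :=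
      tendsto_const_nhds.div_atTop tendsto_id
    filter_upwards [eventually_ge_atTop s, h0.eventually (gt_mem_nhds (sub_pos.2 hq))] with r h1 h2
    have h3 := GAP_mono hMONO h q hs h1
    have h4 := (abs_le.1 (h.bd.Θ_lip p q (hs.trans_le h1))).2
    linarith
  · filter_upwards [eventually_gt_atTop (0 : ℝ)] with r hr
    exact (GAP_le_sup h p hr).trans_lt ha

theorem GAP_small {ε : ℝ} (hε : 0 < ε) :
    ∀ᶠ k : ℕ in (hyperfilter ℕ : Filter ℕ), 1 / ((k : ℝ) + 1) < ε :=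
  Nat.hyperfilter_le_atTop (tendsto_one_div_add_atTop_nhds_zero_nat.eventually (gt_mem_nhds hε))

theorem GAP_big {r : ℝ} (hr : 0 < r) :
    ∀ᶠ k : ℕ in (hyperfilter ℕ : Filter ℕ), 1 ≤ ((k : ℝ) + 1) * r := by
  filter_upwards [GAP_small hr] with k hk
  rw [div_lt_iff₀ (by positivity)] at hk
  linarith

theorem gap_of (hSTR : S_STR) (hBAD : S_BAD) (hRIG1 : S_RIG1) (hFLAT2 : S_FLAT2) (hMONO : S_MONO) : S_GAP := by
  intro M₀ hM₀ hF₀ p₀
  set A : Set ℝ := {t | ∃ M : Surf, M.Mem ∧ ¬ M.Flat ∧ t = GAP_sup M} with hA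
  have hne : A.Nonempty := ⟨_, M₀, hM₀, hF₀, rfl⟩
  have hbd : BddBelow A := ⟨0, fun _ ⟨M, hM, _, e⟩ =>
    e ▸ (M.Θ_nonneg 0 1).trans (GAP_le_sup hM 0 one_pos)⟩
  set θ := sInf A with hθ
  have hle : ∀ M : Surf, M.Mem → ¬ M.Flat → θ ≤ GAP_sup M := fun M hM hF =>
    csInf_le hbd ⟨M, hM, hF, rfl⟩
  have hseq : ∀ k : ℕ, ∃ M : Surf, M.Mem ∧ ¬ M.Flat ∧ GAP_sup M < θ + 1 / ((k : ℝ) + 1) := by
    intro k
    obtain ⟨_, ⟨M, hM, hF, rfl⟩, h⟩ := exists_lt_of_csInf_lt hne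
      (lt_add_of_pos_right θ (show 0 < 1 / ((k : ℝ) + 1) by positivity))
    exact ⟨M, hM, hF, h⟩
  choose Mk hMk hFk hsk using hseq
  have hup : ∀ (ρ : ℕ → ℝ), (∀ k, 0 < ρ k) → ∀ ε, 0 < ε →
      ∀ᶠ k in (hyperfilter ℕ : Filter ℕ), ∀ p r, 0 < r →
        ((Mk k).zoom 0 (ρ k)).Θ p r ≤ θ + ε := by
    intro ρ hρ ε hε
    filter_upwards [GAP_small hε] with k hk p r hr
    rw [Surf.zoom_Θ _ _ (hρ k)]
    have := GAP_le_sup (hMk k) (0 + ρ k • p) (mul_pos (hρ k) hr)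
    linarith [hsk k]
  have h1 : 1 < θ := by
    have hr : ∀ k, ∃ r, 0 < r ∧ ¬ (Mk k).Reg 0 r := by
      intro k
      by_contra hc
      push Not at hc
      refine hFk k (hFLAT2.2.2 _ (hMk k) fun r => ?_)
      exact (hc (max r 1) (lt_max_of_lt_right one_pos)).mono (ball_subset_ball (le_max_left _ _))
    choose rk hrk hnk using hr
    have hρ : ∀ k : ℕ, 0 < ((k : ℝ) + 1) * rk k := fun k => mul_pos (by positivity) (hrk k)
    have h0 : (0 : E) ∉ limO (hyperfilter ℕ) fun k => (Mk k).zoom 0 (((k : ℝ) + 1) * rk k) := by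
      rintro ⟨r, hr, h⟩
      obtain ⟨k, h2, h3⟩ := (h.and (GAP_big hr)).exists
      rw [Surf.zoom_reg _ _ (hρ k), smul_zero, add_zero] at h2
      refine hnk k (h2.mono (ball_subset_ball ?_))
      have := hrk k
      nlinarith
    obtain ⟨M', hM', hF', hb⟩ := hBAD (hyperfilter ℕ) _ (fun k => (hMk k).zoom 0 (hρ k)) 0 h0
    by_contra hc
    push Not at hc
    refine hF' (hRIG1 M' hM' fun q s hs => le_trans ?_ hc)
    refine le_of_forall_pos_le_add fun ε hε => ?_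
    obtain ⟨k, h2, h3⟩ := ((hb q s 1 (ε / 2) hs one_pos (half_pos hε)).and
      (hup _ hρ (ε / 2) (half_pos hε))).exists
    have := h3 0 1 one_pos
    linarith
  have hR : ∀ k : ℕ, ∃ R, 0 < R ∧ θ - 1 / ((k : ℝ) + 1) < (Mk k).Θ 0 R := by
    intro k
    have h2 : θ - 1 / ((k : ℝ) + 1) < GAP_sup (Mk k) := by
      have := hle _ (hMk k) (hFk k)
      have : 0 < 1 / ((k : ℝ) + 1) := by positivity
      linarith
    exact ((eventually_gt_atTop (0 : ℝ)).and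
      ((GAP_tendsto hMONO (hMk k) 0).eventually (lt_mem_nhds h2))).exists
  choose Rk hRk hΘk using hR
  have hρ : ∀ k : ℕ, 0 < ((k : ℝ) + 1) * Rk k := fun k => mul_pos (by positivity) (hRk k)
  have hupper : ∀ (x : E) (r : ℝ), 0 < r → ∀ a, θ < a →
      ∀ᶠ k in (hyperfilter ℕ : Filter ℕ),
        ((Mk k).zoom 0 (((k : ℝ) + 1) * Rk k)).Θ x r < a := by
    intro x r hr a ha
    filter_upwards [hup _ hρ ((a - θ) / 2) (by linarith)] with k hk
    have := hk x r hr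
    linarith
  have hH : StrHyp (hyperfilter ℕ) (fun k => (Mk k).zoom 0 (((k : ℝ) + 1) * Rk k)) θ :=
    { mem := fun k => (hMk k).zoom 0 (hρ k)
      one_lt := h1
      le_two := (hle _ hM₀ hF₀).trans (GAP_sup_le_two hM₀)
      sup := hup _ hρ
      zero := fun r hr => tendsto_order.2 ⟨fun a ha => by
        filter_upwards [GAP_big hr, GAP_small (sub_pos.2 ha)] with k h2 h3
        rw [Surf.zoom_Θ _ _ (hρ k), smul_zero, add_zero]
        have h4 := GAP_mono hMONO (hMk k) 0 (hRk k)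
          (show Rk k ≤ ((k : ℝ) + 1) * Rk k * r by have := hRk k; nlinarith)
        linarith [hΘk k], hupper 0 r hr⟩
      bad := fun x hx r hr => tendsto_order.2 ⟨fun a ha => by
        obtain ⟨M', hM', hF', hb⟩ :=
          hBAD (hyperfilter ℕ) _ (fun k => (hMk k).zoom 0 (hρ k)) x hx
        obtain ⟨q, s, hs, hq⟩ := GAP_exists (ha.trans_le (hle M' hM' hF'))
        filter_upwards [hb q s r ((M'.Θ q s - a) / 2) hs hr (by linarith)] with k hk
        linarith, hupper x r hr⟩ }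
  have h2 : θ = 2 := (hSTR _ _ _ hH).1
  have h3 : GAP_sup M₀ = 2 := le_antisymm (GAP_sup_le_two hM₀) (h2 ▸ hle _ hM₀ hF₀)
  exact h3 ▸ GAP_tendsto hMONO hM₀ p₀

end MW
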