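import Pool.Agent.P.MP_064970_gt.SG

/-!
G2. Cauchy-Schwarz: Good tau p and rho <= 1 give int_{ball p rho} |N'| <= sqrt(2 pi) tau rho^2. Two
points at distance d: STAD with n = 2, s0 = d/2, s1 = 10 d/k^2, centre the good point; s + 2d <= 5
s; LOW gives Theta(p_i, s0) >= 1; so 2 <= (1+k)^3 Theta(p,(1+k)s1) + C tau log(20/k^2); choose k,
then tau; Lam = 20/k^2 + 2 and MONO. Three points with gaps d1 <= d2 (wlog by cases), D = d1 + d2:
fix eps = 1/10, (tau1, Lam1) from part one. If d2 <= 4 Lam1 d1: STAD with n = 3, s0 = d1/2, d = D,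
s1 = 10 D/k^2, log(s1/s0) bounded, gives 3 <= (1+k)^3 2 + small. Else part one at the close pair
gives Theta(p, Lam1 d1) >= 2 - eps, MONO gives Theta(p, d2/4) >= 2 - eps, then STAD with n = 2 for p
and the far point, s0 = d2/4: 3 - eps <= (1+k)^3 2 + small. Theta <= 2 by Bd.Θ_le_two.
-/

open scoped Manifold ContDiff
open MeasureTheory Set Filter Topology Metric
open scoped RealInnerProductSpace ENNReal ComplexConjugate Real

noncomputable section

namespace MW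

universe u

theorem GOOD_mono {M : Surf} {τ τ' : ℝ} {x : E} (h : M.Good τ x) (h0 : 0 ≤ τ) (h1 : τ ≤ τ') :
    M.Good τ' x := fun s hs hs1 =>
  (h s hs hs1).trans (mul_le_mul_of_nonneg_right (pow_le_pow_left₀ h0 h1 2) (sq_nonneg s))

theorem GOOD_l1 {M : Surf} (hM : M.Mem) {τ ρ : ℝ} {x : E} (h : M.Good τ x) (hτ : 0 < τ)
    (hρ : 0 < ρ) (hρ1 : ρ ≤ 1) : ∫ z in ball x ρ, ‖pr (M.N z)‖ ∂M.μ ≤ 4 * τ * ρ ^ 2 := by
  have hm : Measurable fun z => ‖pr (M.N z)‖ := (measurable_pr.comp M.N_meas).norm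
  have hb : ∀ z ∈ ball x ρ ∩ M.S, |‖pr (M.N z)‖| ≤ 1 := fun z hz => by
    rw [abs_norm]
    exact (norm_pr_le _).trans (M.N_unit z hz.2).le
  have i1 : IntegrableOn (fun z => ‖pr (M.N z)‖) (ball x ρ) M.μ :=
    hM.bd.integrableOn isBounded_ball hm hb measurableSet_ball
  have i2 : IntegrableOn (fun z => ‖pr (M.N z)‖ ^ 2) (ball x ρ) M.μ :=
    hM.bd.integrableOn isBounded_ball (hm.pow_const 2) (C := 1) (fun z hz => by
      rw [abs_pow]
      exact pow_le_one₀ (abs_nonneg _) (hb z hz)) measurableSet_ball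
  have i3 : IntegrableOn (fun _ => τ / 2) (ball x ρ) M.μ :=
    integrableOn_const (hM.bd.lt_top isBounded_ball).ne
  have h1 : ∫ z in ball x ρ, ‖pr (M.N z)‖ ∂M.μ
      ≤ ∫ z in ball x ρ, (τ / 2 + 1 / (2 * τ) * ‖pr (M.N z)‖ ^ 2) ∂M.μ := by
    refine integral_mono i1 (i3.add (i2.const_mul _)) fun z => ?_
    have h2 : τ / 2 + 1 / (2 * τ) * ‖pr (M.N z)‖ ^ 2 - ‖pr (M.N z)‖
        = (‖pr (M.N z)‖ - τ) ^ 2 / (2 * τ) := by
      field_simp
      ring
    have h3 : 0 ≤ (‖pr (M.N z)‖ - τ) ^ 2 / (2 * τ) := by positivity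
    beta_reduce
    linarith
  rw [integral_add i3 (i2.const_mul _), integral_const_mul, setIntegral_const, smul_eq_mul] at h1
  have h4 := hM.bd.real_ball x hρ
  have h5 : 1 / (2 * τ) * ∫ z in ball x ρ, ‖pr (M.N z)‖ ^ 2 ∂M.μ ≤ τ / 2 * ρ ^ 2 := by
    refine (mul_le_mul_of_nonneg_left (h ρ hρ hρ1) (by positivity)).trans (le_of_eq ?_)
    field_simp
  have h6 : M.μ.real (ball x ρ) * (τ / 2) ≤ 2 * π * ρ ^ 2 * (τ / 2) :=
    mul_le_mul_of_nonneg_right h4 (by positivity)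
  have h7 : π * (τ * ρ ^ 2) ≤ 3.15 * (τ * ρ ^ 2) :=
    mul_le_mul_of_nonneg_right Real.pi_lt_d2.le (by positivity)
  have h8 : 0 ≤ τ * ρ ^ 2 := by positivity
  nlinarith

/-- The conclusion of the almost monotonicity at a good centre. -/
def GOOD_P (η K τ Λ : ℝ) : Prop := ∀ M : Surf, M.Mem →
  ∀ (n : ℕ) (y : ℂ) (h : Fin n → ℝ) (t₀ t₁ d s₀ R : ℝ), 0 < s₀ → s₀ ≤ d → d ≤ K * s₀ →
  (∀ i, h i ∈ Icc t₀ (t₀ + d)) → t₁ ∈ Icc t₀ (t₀ + d) → (∀ i j, i ≠ j → 2 * s₀ ≤ |h i - h j|) →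
  M.Good τ (pt y t₁) → Λ * d ≤ R → R ≤ 1 →
  ∑ i, M.Θ (pt y (h i)) s₀ ≤ M.Θ (pt y t₁) R + η

theorem GOOD_core (hSTAD : S_STAD) (hMONO : S_MONO) {η K : ℝ} (hη : 0 < η) (hK : 0 < K) :
    ∃ τ Λ : ℝ, 0 < τ ∧ 1 ≤ Λ ∧ GOOD_P η K τ Λ := by
  obtain ⟨κ, hκ, hκ1, hκη⟩ : ∃ κ : ℝ, 0 < κ ∧ κ ≤ 1 ∧ 14 * κ ≤ η / 2 :=
    ⟨min 1 (η / 28), lt_min one_pos (by positivity), min_le_left _ _, by
      have := min_le_right 1 (η / 28)
      linarith⟩
  obtain ⟨L, hL⟩ : ∃ L : ℝ, L = 10 / κ ^ 2 := ⟨_, rfl⟩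
  have hL10 : 10 ≤ L := by
    rw [hL, le_div_iff₀ (by positivity)]
    nlinarith
  obtain ⟨C, hC⟩ : ∃ C : ℝ, C = 80 * (1 + 2 * K) ^ 2 * (L * K) := ⟨_, rfl⟩
  have hC0 : 0 < C := by rw [hC]; positivity
  refine ⟨η / 2 / C, 2 * L, by positivity, by linarith, ?_⟩
  intro M hM n y h t₀ t₁ d s₀ R hs₀ hsd hdK hh ht₁ hgap hgood hR hR1
  have hd : 0 < d := hs₀.trans_le hsd
  have hLd : 10 * d ≤ L * d := mul_le_mul_of_nonneg_right hL10 hd.le
  have hτ : 0 < η / 2 / C := by positivity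
  have h1 := hSTAD M hM n y h t₀ t₁ d s₀ (L * d) κ (4 * (η / 2 / C) * (1 + 2 * K) ^ 2) hd hh ht₁
    hgap hs₀ (by linarith) hκ hκ1 (le_of_eq (by rw [hL]; field_simp)) fun s hs => by
      have hs0 : 0 < s := hs₀.trans_le hs.1
      refine (GOOD_l1 hM hgood hτ (by positivity) (by linarith [hs.2])).trans ?_
      have h2 : s + 2 * d ≤ (1 + 2 * K) * s := by
        have := mul_le_mul_of_nonneg_left hs.1 hK.le
        linarith
      have h3 := pow_le_pow_left₀ (by positivity) h2 2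
      rw [mul_assoc (4 * (η / 2 / C)), ← mul_pow]
      exact mul_le_mul_of_nonneg_left h3 (by positivity)
  have hLd0 : 0 < L * d := by linarith
  have h2 : (1 + κ) * (L * d) ≤ R := by nlinarith
  have h3 := (hMONO M (pt y t₁) _ R (by positivity) h2 (hM.sub _)).1
  have h4 := hM.bd.Θ_le_two (pt y t₁) (r := (1 + κ) * (L * d)) (by positivity)
  have h5 := Surf.Θ_nonneg (M := M) (pt y t₁) ((1 + κ) * (L * d))
  have h6 : (1 + κ) ^ 3 ≤ 1 + 7 * κ := by nlinarith [mul_pos hκ hκ]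
  have h7 : (1 + κ) ^ 3 * M.Θ (pt y t₁) ((1 + κ) * (L * d)) ≤ M.Θ (pt y t₁) R + 14 * κ := by
    refine (mul_le_mul_of_nonneg_right h6 h5).trans ?_
    nlinarith
  have h8 : Real.log (L * d / s₀) ≤ L * K := by
    refine (Real.log_le_self (by positivity)).trans ?_
    rw [div_le_iff₀ hs₀, mul_assoc]
    exact mul_le_mul_of_nonneg_left hdK (by linarith)
  have h9 : 20 * (4 * (η / 2 / C) * (1 + 2 * K) ^ 2) * Real.log (L * d / s₀) ≤ η / 2 := by
    refine (mul_le_mul_of_nonneg_left h8 (by positivity)).trans (le_of_eq ?_)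
    calc 20 * (4 * (η / 2 / C) * (1 + 2 * K) ^ 2) * (L * K) = η / 2 / C * C := by
          rw [hC]; ring
      _ = η / 2 := div_mul_cancel₀ _ hC0.ne'
  linarith

theorem GOOD_pair {η K τ Λ : ℝ} (hP : GOOD_P η K τ Λ) (hK : 2 ≤ K) {M : Surf} (hM : M.Mem)
    {y : ℂ} {a b R : ℝ} (hab : a ≠ b) (hg : M.Good τ (pt y a)) (hR : Λ * |a - b| ≤ R)
    (hR1 : R ≤ 1) :
    M.Θ (pt y a) (|a - b| / 2) + M.Θ (pt y b) (|a - b| / 2) ≤ M.Θ (pt y a) R + η := by
  have hd : 0 < |a - b| := abs_pos.2 (sub_ne_zero.2 hab)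
  have ha : a ∈ Icc (min a b) (min a b + |a - b|) := by
    refine ⟨min_le_left _ _, ?_⟩
    rcases le_total a b with h | h
    · rw [min_eq_left h]; linarith
    · rw [min_eq_right h, abs_of_nonneg (sub_nonneg.2 h)]; linarith
  have hb : b ∈ Icc (min a b) (min a b + |a - b|) := by
    refine ⟨min_le_right _ _, ?_⟩
    rcases le_total a b with h | h
    · rw [min_eq_left h, abs_of_nonpos (sub_nonpos.2 h)]; linarith
    · rw [min_eq_right h]; linarith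
  have h := hP M hM 2 y ![a, b] (min a b) a |a - b| (|a - b| / 2) R (by linarith) (by linarith)
    (by nlinarith) (fun i => by fin_cases i <;> assumption) ha (fun i j hij => by
      fin_cases i <;> fin_cases j
      · exact absurd rfl hij
      · change _ ≤ |a - b|
        linarith
      · change _ ≤ |b - a|
        rw [abs_sub_comm b a]
        linarith
      · exact absurd rfl hij) hg hR hR1
  simpa [Fin.sum_univ_two] using h

theorem good_of (hSTAD : S_STAD) (hLOW : S_LOW) (hMONO : S_MONO) : S_GOOD := by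
  have one : ∀ ε : ℝ, 0 < ε → ∃ τ Λ : ℝ, 0 < τ ∧ 1 ≤ Λ ∧ ∀ M : Surf, M.Mem →
      ∀ (y : ℂ) (s t : ℝ), s ≠ t → pt y s ∈ M.S → pt y t ∈ M.S → M.Good τ (pt y s) →
      Λ * |s - t| ≤ 1 → 2 - ε ≤ M.Θ (pt y s) (Λ * |s - t|) := by
    intro ε hε
    obtain ⟨τ, Λ, hτ, hΛ, hP⟩ := GOOD_core hSTAD hMONO hε two_pos
    refine ⟨τ, Λ, hτ, hΛ, fun M hM y s t hst hs ht hg h1 => ?_⟩
    have hd : 0 < |s - t| / 2 := half_pos (abs_pos.2 (sub_ne_zero.2 hst))
    have h2 := GOOD_pair hP le_rfl hM hst hg le_rfl h1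
    have h3 := (hLOW M _ _ hs hd (hM.sub _)).1
    have h4 := (hLOW M _ _ ht hd (hM.sub _)).1
    linarith
  refine ⟨one, ?_⟩
  obtain ⟨τ₁, Λ₁, hτ₁, hΛ₁, h₁⟩ := one (1 / 10) (by norm_num)
  obtain ⟨τ₂, Λ₂, hτ₂, hΛ₂, hP⟩ :=
    GOOD_core hSTAD hMONO (η := 1 / 10) (K := 2 + 4 * Λ₁) (by norm_num) (by linarith)
  refine ⟨min τ₁ τ₂, Λ₁ + Λ₂, lt_min hτ₁ hτ₂, by linarith, ?_⟩
  intro M hM y s t u hst htu hs ht hu _ hg _ hΛ
  have hτ := (lt_min hτ₁ hτ₂).le
  have hg₁ := GOOD_mono hg hτ (min_le_left _ _)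
  have hg₂ := GOOD_mono hg hτ (min_le_right _ _)
  have hD : 0 < u - s := by linarith
  have hD₁ : Λ₁ * (u - s) ≤ 1 := by nlinarith
  have hD₂ : Λ₂ * (u - s) ≤ 1 := by nlinarith
  have htwo := hM.bd.Θ_le_two (pt y t) one_pos
  have far : ∀ a b : ℝ, t ≠ a → t ≠ b → pt y a ∈ M.S → pt y b ∈ M.S → |t - a| ≤ u - s →
      |t - b| ≤ u - s → Λ₁ * |t - a| ≤ |t - b| / 2 → False := by
    intro a b ha hb haS hbS haD hbD hab
    have hd : 0 < |t - a| := abs_pos.2 (sub_ne_zero.2 ha)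
    have hd' : 0 < |t - b| / 2 := half_pos (abs_pos.2 (sub_ne_zero.2 hb))
    have e1 := h₁ M hM y t a ha ht haS hg₁ (by nlinarith)
    have e2 := (hMONO M (pt y t) _ _ (by positivity) hab (hM.sub _)).1
    have e3 := GOOD_pair hP (by linarith) hM hb hg₂ (R := 1) (by nlinarith) le_rfl
    have e4 := (hLOW M _ _ hbS hd' (hM.sub _)).1
    linarith
  have a1 : |t - s| = t - s := abs_of_pos (by linarith)
  have a2 : |t - u| = u - t := by rw [abs_sub_comm]; exact abs_of_pos (by linarith)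
  by_cases c1 : Λ₁ * (t - s) ≤ (u - t) / 2
  · exact far s u hst.ne' htu.ne hs hu (by linarith) (by linarith) (by rwa [a1, a2])
  by_cases c2 : Λ₁ * (u - t) ≤ (t - s) / 2
  · exact far u s htu.ne hst.ne' hu hs (by linarith) (by linarith) (by rwa [a1, a2])
  push Not at c1 c2
  obtain ⟨g, hg0, g1, g2, g3⟩ : ∃ g : ℝ, 0 < g ∧ 2 * g ≤ t - s ∧ 2 * g ≤ u - t ∧
      u - s ≤ (2 + 4 * Λ₁) * g := by
    rcases le_total (t - s) (u - t) with h | h
    · exact ⟨(t - s) / 2, by linarith, by linarith, by linarith, by linarith⟩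
    · exact ⟨(u - t) / 2, by linarith, by linarith, by linarith, by linarith⟩
  have e1 := hP M hM 3 y ![s, t, u] s t (u - s) g 1 hg0 (by linarith) g3 (fun i => by
      fin_cases i
      · change s ∈ _
        exact ⟨le_rfl, by linarith⟩
      · change t ∈ _
        exact ⟨hst.le, by linarith⟩
      · change u ∈ _
        exact ⟨by linarith, by linarith⟩) ⟨hst.le, by linarith⟩ (fun i j hij => by
      fin_cases i <;> fin_cases j
      · exact absurd rfl hij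
      · exact le_abs.2 (Or.inr (show _ ≤ -(s - t) by linarith))
      · exact le_abs.2 (Or.inr (show _ ≤ -(s - u) by linarith))
      · exact le_abs.2 (Or.inl (show _ ≤ t - s by linarith))
      · exact absurd rfl hij
      · exact le_abs.2 (Or.inr (show _ ≤ -(t - u) by linarith))
      · exact le_abs.2 (Or.inl (show _ ≤ u - s by linarith))
      · exact le_abs.2 (Or.inl (show _ ≤ u - t by linarith))
      · exact absurd rfl hij) hg₂ hD₂ le_rfl
  have e2 := (hLOW M _ _ hs hg0 (hM.sub _)).1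
  have e3 := (hLOW M _ _ ht hg0 (hM.sub _)).1
  have e4 := (hLOW M _ _ hu hg0 (hM.sub _)).1
  simp only [Fin.sum_univ_three, Matrix.cons_val_zero, Matrix.cons_val_one, Matrix.cons_val] at e1
  linarith

end MW
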