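import Pool.Agent.P.MP_064970_gt.SG

/-!
G3, dimension 1. For x in S with pr x <> 0: FLAT1 (second clause, v = e3, and last clause) says that
S is near x the plane through x orthogonal to N x; N x = +- pt (I w) 0 with w = pr x/|pr x|, so it
is the vertical plane through the axis. Open-closed in the (convex) half plane H_w = {pt (s w) t, s
> 0}: H_w in S, N constant on it. T = {w unit : pt w 0 in S} is closed in the circle (S closed in O)
and discrete (near pt w 0 the set S is a plane through the axis), so finite.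
-/

open scoped Manifold ContDiff
open MeasureTheory Set Filter Topology Metric
open scoped RealInnerProductSpace ENNReal ComplexConjugate Real

noncomputable section

namespace MW

universe u

/-- Near each of its points the surface is the plane through the origin with the same normal. -/
theorem HALF_loc (hFLAT1 : S_FLAT1) (M : Surf) (hN : ∀ x ∈ M.S, M.N x 2 = 0 ∧ ⟪x, M.N x⟫ = 0)
    {x : E} (hx : x ∈ M.S) :
    ∀ᶠ y in 𝓝 x, (y ∈ M.S ↔ ⟪y, M.N x⟫ = 0) ∧ (y ∈ M.S → M.N y = M.N x) := by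
  obtain ⟨-, h2, -, h4⟩ := hFLAT1 M x hx
  have he : e3 ≠ 0 := by
    intro h
    have := norm_e3
    rw [h, norm_zero] at this
    exact zero_ne_one this
  have h5 : ∀ᶠ y in 𝓝[M.S] x, M.N y = M.N x := by
    refine h2 e3 he ?_
    filter_upwards [self_mem_nhdsWithin] with y hy
    rw [e3_inner]
    exact (hN y hy).1
  filter_upwards [h4 h5, eventually_nhdsWithin_iff.1 h5] with y hy hy'
  refine ⟨?_, hy'⟩
  rw [hy, inner_sub_left, (hN x hx).2, sub_zero]

/-- The inner product with a point of a vertical plane through the axis. -/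
theorem HALF_inner (w : ℂ) (s t : ℝ) {n : E} (hn : n 2 = 0) :
    ⟪pt (s • w) t, n⟫ = s * (w.re * n 0 + w.im * n 1) := by
  rw [inner_eq, hn]
  simp only [pt_zero, pt_one, pt_two, Complex.smul_re, Complex.smul_im, smul_eq_mul]
  ring

/-- A half plane that meets the surface lies in it, and the normal is constant there. -/
theorem HALF_plane (hFLAT1 : S_FLAT1) (M : Surf) (hO : ∀ x, pr x ≠ 0 → x ∈ M.O)
    (hN : ∀ x ∈ M.S, M.N x 2 = 0 ∧ ⟪x, M.N x⟫ = 0) {w : ℂ} (hw : w ≠ 0) {s₀ t₀ : ℝ}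
    (hs₀ : 0 < s₀) (h₀ : pt (s₀ • w) t₀ ∈ M.S) {s : ℝ} (hs : 0 < s) (t : ℝ) :
    pt (s • w) t ∈ M.S ∧ M.N (pt (s • w) t) = M.N (pt (s₀ • w) t₀) := by
  set n := M.N (pt (s₀ • w) t₀) with hn
  have hn2 : n 2 = 0 := (hN _ h₀).1
  have hwn : w.re * n 0 + w.im * n 1 = 0 := by
    have := (hN _ h₀).2
    rw [← hn, HALF_inner w s₀ t₀ hn2] at this
    exact (mul_eq_zero.1 this).resolve_left hs₀.ne'
  have hg : Continuous fun q : ℝ × ℝ => pt (q.1 • w) q.2 := by fun_prop
  set A : Set (ℝ × ℝ) := {q | pt (q.1 • w) q.2 ∈ M.S ∧ M.N (pt (q.1 • w) q.2) = n} with hA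
  have hAo : IsOpen A := by
    rw [isOpen_iff_mem_nhds]
    rintro q ⟨hq, hq'⟩
    filter_upwards [(hg.tendsto q).eventually (HALF_loc hFLAT1 M hN hq)] with q' hq''
    have h1 : pt (q'.1 • w) q'.2 ∈ M.S := by
      rw [hq''.1, hq', HALF_inner w _ _ hn2, hwn, mul_zero]
    exact ⟨h1, (hq''.2 h1).trans hq'⟩
  have hH : IsPreconnected (Ioi (0 : ℝ) ×ˢ (univ : Set ℝ)) :=
    isPreconnected_Ioi.prod isPreconnected_univ
  have hsub : Ioi (0 : ℝ) ×ˢ (univ : Set ℝ) ⊆ A := by
    refine hH.subset_of_closure_inter_subset hAo ⟨(s₀, t₀), ⟨hs₀, mem_univ _⟩, h₀, rfl⟩ ?_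
    rintro q ⟨hq, hq0, -⟩
    have hq0' : 0 < q.1 := hq0
    have h1 : pt (q.1 • w) q.2 ∈ M.S := by
      refine M.mem_S_of_closure (hO _ ?_) ?_
      · rw [pr_pt]
        exact smul_ne_zero hq0'.ne' hw
      · exact map_mem_closure (f := fun q : ℝ × ℝ => pt (q.1 • w) q.2) (s := A) hg hq
          fun q' hq' => hq'.1
    refine ⟨h1, ?_⟩
    obtain ⟨q', hq', hq''⟩ := (mem_closure_iff_frequently.1 hq).and_eventually
      ((hg.tendsto q).eventually (HALF_loc hFLAT1 M hN h1)) |>.exists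
    rw [← hq''.2 hq'.1, hq'.2]
  exact hsub (show (s, t) ∈ Ioi (0 : ℝ) ×ˢ (univ : Set ℝ) from ⟨hs, mem_univ _⟩)

theorem HALF_sq {w : ℂ} (hw : ‖w‖ = 1) : w.re ^ 2 + w.im ^ 2 = 1 := by
  have := Complex.sq_norm w
  rw [hw, Complex.normSq_apply] at this
  nlinarith

theorem HALF_sq' {n : E} (hn : ‖n‖ = 1) (hn2 : n 2 = 0) : n 0 ^ 2 + n 1 ^ 2 = 1 := by
  have := sim_norm_sq n
  rw [hn, hn2] at this
  nlinarith

/-- A horizontal unit vector orthogonal to `w` is `± i w`. -/
theorem HALF_nrm {w : ℂ} (hw : ‖w‖ = 1) {n : E} (hn : ‖n‖ = 1) (hn2 : n 2 = 0)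
    (h : w.re * n 0 + w.im * n 1 = 0) :
    n = pt ((1 : ℝ) • (Complex.I * w)) 0 ∨ n = pt ((-1 : ℝ) • (Complex.I * w)) 0 := by
  have h1 := HALF_sq hw
  have h2 := HALF_sq' hn hn2
  set c := w.re * n 1 - w.im * n 0 with hc
  have h3 : n 0 = -(c * w.im) := by
    rw [hc]; linear_combination (-(n 0)) * h1 + w.re * h
  have h4 : n 1 = c * w.re := by
    rw [hc]; linear_combination (-(n 1)) * h1 + w.im * h
  have h5 : (c - 1) * (c + 1) = 0 := by
    rw [h3, h4] at h2
    linear_combination h2 - c ^ 2 * h1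
  have key : n = pt (c • (Complex.I * w)) 0 := by
    ext i
    fin_cases i
    · simp [h3]
    · simp [h4]
    · simp [hn2]
  rcases mul_eq_zero.1 h5 with h6 | h6
  · left
    rw [key, show c = 1 by linarith]
  · right
    rw [key, show c = -1 by linarith]

/-- Only finitely many half planes meet the surface. -/
theorem HALF_finite (hFLAT1 : S_FLAT1) (M : Surf) (hO : ∀ x, pr x ≠ 0 → x ∈ M.O)
    (hN : ∀ x ∈ M.S, M.N x 2 = 0 ∧ ⟪x, M.N x⟫ = 0) :
    {w : ℂ | ‖w‖ = 1 ∧ pt w 0 ∈ M.S}.Finite := by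
  set T : Set ℂ := {w : ℂ | ‖w‖ = 1 ∧ pt w 0 ∈ M.S} with hT
  have hg : Continuous fun w : ℂ => pt w 0 := by fun_prop
  have hcl : IsClosed T := by
    refine isClosed_of_closure_subset fun w hw => ?_
    have h1 : ‖w‖ = 1 := by
      have : closure T ⊆ {w : ℂ | ‖w‖ = 1} :=
        closure_minimal (fun w hw => hw.1) (isClosed_eq continuous_norm continuous_const)
      exact this hw
    refine ⟨h1, M.mem_S_of_closure (hO _ ?_)
      (map_mem_closure (f := fun w : ℂ => pt w 0) (s := T) hg hw fun w' hw' => hw'.2)⟩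
    rw [pr_pt]
    intro h0
    rw [h0, norm_zero] at h1
    exact zero_ne_one h1
  have hK : IsCompact T :=
    (isCompact_sphere (0 : ℂ) 1).of_isClosed_subset hcl fun w hw => by
      rw [mem_sphere_zero_iff_norm]; exact hw.1
  have hU : ∀ w ∈ T, {w' : ℂ | w' ∈ T → w' = w} ∈ 𝓝 w := by
    intro w hw
    have hn1 := M.N_unit _ hw.2
    have hn2 := (hN _ hw.2).1
    have hwn := (hN _ hw.2).2
    filter_upwards [(hg.tendsto w).eventually (HALF_loc hFLAT1 M hN hw.2),
      ball_mem_nhds w one_pos] with w' h1 h2 hw'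
    have h3 := h1.1.1 hw'.2
    set n := M.N (pt w 0) with hn
    rw [inner_eq, hn2] at hwn h3
    simp only [pt_zero, pt_one, pt_two, mul_zero, add_zero] at hwn h3
    have h4 := HALF_sq hw.1
    have h5 := HALF_sq hw'.1
    have h6 := HALF_sq' hn1 hn2
    have h7 : (w'.re - w.re) ^ 2 + (w'.im - w.im) ^ 2 < 1 := by
      rw [mem_ball, dist_eq_norm] at h2
      have h8 := Complex.sq_norm (w' - w)
      rw [Complex.normSq_apply, Complex.sub_re, Complex.sub_im] at h8
      nlinarith [norm_nonneg (w' - w)]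
    have h8 : w.re * w'.im - w.im * w'.re = 0 := by
      linear_combination (-(w.re * w'.im - w.im * w'.re)) * h6
        + (n 0 * w'.im - n 1 * w'.re) * hwn - (n 0 * w.im - n 1 * w.re) * h3
    set c := w.re * w'.re + w.im * w'.im with hc
    have h9 : (c - 1) * (c + 1) = 0 := by
      rw [hc]
      linear_combination (w'.re ^ 2 + w'.im ^ 2) * h4 + h5
        - (w.re * w'.im - w.im * w'.re) * h8
    have h10 : 0 < c := by rw [hc]; nlinarith
    have h11 : c = 1 := by
      rcases mul_eq_zero.1 h9 with h | h <;> linarith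
    have h12 : (w'.re - w.re) ^ 2 + (w'.im - w.im) ^ 2 = 0 := by
      linear_combination h4 + h5 - 2 * h11 + 2 * hc
    apply Complex.ext
    · nlinarith [sq_nonneg (w'.re - w.re), sq_nonneg (w'.im - w.im)]
    · nlinarith [sq_nonneg (w'.re - w.re), sq_nonneg (w'.im - w.im)]
  obtain ⟨t, -, ht⟩ := hK.elim_nhds_subcover (fun w => {w' : ℂ | w' ∈ T → w' = w}) hU
  refine t.finite_toSet.subset fun w hw => ?_
  obtain ⟨v, hv, hwv⟩ := mem_iUnion₂.1 (ht hw)
  rw [hwv hw]
  exact hv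

theorem half_of (hFLAT1 : S_FLAT1) : S_HALF := by
  classical
  intro M _ hO hN
  have hfin := HALF_finite hFLAT1 M hO hN
  have hne : ∀ w : ℂ, ‖w‖ = 1 → w ≠ 0 := by
    intro w hw h0
    rw [h0, norm_zero] at hw
    exact zero_ne_one hw
  refine ⟨hfin.toFinset,
    fun w => if M.N (pt w 0) = pt ((1 : ℝ) • (Complex.I * w)) 0 then 1 else -1, hO, ?_, ?_, ?_⟩
  · intro w hw
    rw [Finite.mem_toFinset] at hw
    refine ⟨hw.1, ?_⟩
    split_ifs
    · exact Or.inl rfl
    · exact Or.inr rfl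
  · intro x hx
    constructor
    · intro hxS
      have hp : 0 < ‖pr x‖ := norm_pos_iff.2 hx
      have h1 : ‖pr x‖ • (‖pr x‖⁻¹ • pr x) = pr x := by
        rw [smul_smul, mul_inv_cancel₀ hp.ne', one_smul]
      have h2 : ‖‖pr x‖⁻¹ • pr x‖ = 1 := by
        rw [norm_smul, norm_inv, norm_norm, inv_mul_cancel₀ hp.ne']
      refine ⟨‖pr x‖⁻¹ • pr x, ?_, ‖pr x‖, hp, h1.symm⟩
      rw [Finite.mem_toFinset]
      refine ⟨h2, ?_⟩
      have h3 := (HALF_plane hFLAT1 M hO hN (hne _ h2) hp (t₀ := x 2)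
        (by rw [h1, pt_pr]; exact hxS) one_pos 0).1
      rwa [one_smul] at h3
    · rintro ⟨w, hw, s, hs, hxs⟩
      rw [Finite.mem_toFinset] at hw
      have h3 := (HALF_plane hFLAT1 M hO hN (hne _ hw.1) one_pos (t₀ := 0)
        (by rw [one_smul]; exact hw.2) hs (x 2)).1
      rwa [← hxs, pt_pr] at h3
  · intro w hw s t hs
    rw [Finite.mem_toFinset] at hw
    have h3 := (HALF_plane hFLAT1 M hO hN (hne _ hw.1) one_pos (t₀ := 0)
      (by rw [one_smul]; exact hw.2) hs t).2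
    rw [one_smul] at h3
    rw [h3]
    have hn2 := (hN _ hw.2).1
    have hwn := (hN _ hw.2).2
    rw [inner_eq, hn2] at hwn
    simp only [pt_zero, pt_one, pt_two, mul_zero, add_zero] at hwn
    split_ifs with h
    · exact h
    · exact (HALF_nrm hw.1 (M.N_unit _ hw.2) hn2 hwn).resolve_left h

end MW
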