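import Pool.Agent.P.MP_064970_gt.SG

/-!
mu(axis) = 0 by Bd.tube (or S_TUBE style). Off the axis S is the disjoint union of the measurable
half planes H_w, N = n_w = pt (sigma w I w) 0 on H_w. For one w take the isometry A with A e3 = n_w,
A (pt y 0) = pt (y.re w) y.im up to orientation (build it, or use exists_iso_pair from B/PicB); the
area formula gives mu.restrict H_w = push forward of Lebesgue measure on the half plane {re > 0};
Complex.volume_preserving_equiv_real_prod and Fubini. For Theta: by the symmetry s -> -s the half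
plane carries half of integral_lam.
-/

open scoped Manifold ContDiff
open MeasureTheory Set Filter Topology Metric
open scoped RealInnerProductSpace ENNReal ComplexConjugate Real

noncomputable section

namespace MW

universe u

/-- The isometry that sends the horizontal plane to the vertical plane through `w`. -/
def HALFM_lin (w : ℂ) (hw : ‖w‖ = 1) : E →ₗᵢ[ℝ] E where
  toFun x := pt ((⟨x 0, x 2⟩ : ℂ) * w) (x 1)
  map_add' a b := by
    ext i
    fin_cases i <;> simp <;> ring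
  map_smul' c a := by
    ext i
    fin_cases i <;> simp <;> ring
  norm_map' x := by
    refine (sq_eq_sq₀ (norm_nonneg _) (norm_nonneg _)).1 ?_
    change ‖pt ((⟨x 0, x 2⟩ : ℂ) * w) (x 1)‖ ^ 2 = _
    rw [norm_pt_sq, norm_mul, hw, mul_one, norm_sq_eq, Complex.sq_norm, Complex.sq_norm,
      Complex.normSq_apply, Complex.normSq_apply]
    simp only [pr_re, pr_im]
    ring

theorem HALFM_iso {w : ℂ} (hw : ‖w‖ = 1) :
    ∃ A : E ≃ₗᵢ[ℝ] E, ∀ (y : ℂ) (t : ℝ), A (pt y t) = pt ((⟨y.re, t⟩ : ℂ) * w) y.im :=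
  ⟨(HALFM_lin w hw).toLinearIsometryEquiv rfl, fun _ _ => rfl⟩

/-- The open half plane over the ray through `w`. -/
def HALFM_H (w : ℂ) : Set E := {x | ∃ s : ℝ, 0 < s ∧ pr x = s • w}

theorem HALFM_mem {w : ℂ} (hw : ‖w‖ = 1) (z : ℂ) (t : ℝ) :
    pt (z * w) t ∈ HALFM_H w ↔ z.im = 0 ∧ 0 < z.re := by
  have h0 : w ≠ 0 := norm_ne_zero_iff.1 (by rw [hw]; exact one_ne_zero)
  constructor
  · rintro ⟨s, hs, h⟩
    rw [pr_pt, Complex.real_smul] at h
    rw [mul_right_cancel₀ h0 h]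
    exact ⟨Complex.ofReal_im s, by rwa [Complex.ofReal_re]⟩
  · rintro ⟨h1, h2⟩
    refine ⟨z.re, h2, ?_⟩
    rw [pr_pt, Complex.real_smul]
    congr 1
    exact Complex.ext (Complex.ofReal_re _).symm (by rw [h1, Complex.ofReal_im])

theorem HALFM_meas {w : ℂ} (hw : ‖w‖ = 1) : MeasurableSet (HALFM_H w) := by
  have h0 : w ≠ 0 := norm_ne_zero_iff.1 (by rw [hw]; exact one_ne_zero)
  have e : HALFM_H w = {x | (pr x / w).im = 0} ∩ {x | 0 < (pr x / w).re} := by
    ext x
    have h := HALFM_mem hw (pr x / w) (x 2)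
    rwa [div_mul_cancel₀ _ h0, pt_pr] at h
  rw [e]
  exact (isClosed_eq (by fun_prop) continuous_const).measurableSet.inter
    (isOpen_lt continuous_const (by fun_prop)).measurableSet

theorem HALFM_ne {w : ℂ} (hw : ‖w‖ = 1) {x : E} (hx : x ∈ HALFM_H w) : pr x ≠ 0 := by
  obtain ⟨s, hs, h⟩ := hx
  rw [h]
  exact smul_ne_zero hs.ne' (norm_ne_zero_iff.1 (by rw [hw]; exact one_ne_zero))

theorem HALFM_disj {w w' : ℂ} (hw : ‖w‖ = 1) (hw' : ‖w'‖ = 1) (h : w ≠ w') :
    Disjoint (HALFM_H w) (HALFM_H w') := by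
  rw [Set.disjoint_left]
  rintro x ⟨s, hs, h1⟩ ⟨s', hs', h2⟩
  have h3 := h1.symm.trans h2
  have h4 := congrArg norm h3
  rw [norm_smul, norm_smul, hw, hw', mul_one, mul_one, Real.norm_of_nonneg hs.le,
    Real.norm_of_nonneg hs'.le] at h4
  rw [h4] at h3
  exact h (smul_right_injective ℂ hs'.ne' h3)

theorem HALFM_axis {M : Surf} (h : M.Bd) : M.μ {x | pr x = 0} = 0 := by
  have e : {x : E | pr x = 0} ⊆ ⋃ n : ℕ, {x | x ∈ ball (0 : E) (n + 1) ∧ pr x = 0} := by
    intro x hx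
    obtain ⟨n, hn⟩ := exists_nat_gt ‖x‖
    exact mem_iUnion.2 ⟨n, mem_ball_zero_iff.2 (by linarith), hx⟩
  refine measure_mono_null e (measure_iUnion_null fun n => nonpos_iff_eq_zero.1 ?_)
  have hR : (0 : ℝ) < n + 1 := by positivity
  have h1 : Tendsto (fun δ : ℝ => ENNReal.ofReal (100 * δ * (n + 1))) (𝓝[>] 0) (𝓝 0) := by
    have hc : Continuous fun δ : ℝ => ENNReal.ofReal (100 * δ * (n + 1)) :=
      ENNReal.continuous_ofReal.comp (by fun_prop)
    have h2 := hc.tendsto 0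
    rw [mul_zero, zero_mul, ENNReal.ofReal_zero] at h2
    exact h2.mono_left nhdsWithin_le_nhds
  refine ge_of_tendsto h1 ?_
  filter_upwards [Ioc_mem_nhdsGT hR] with δ hδ
  refine le_trans (measure_mono ?_) (h.tube 0 e3 norm_e3 hδ.1 hδ.2)
  intro x hx
  refine ⟨hx.1, ?_⟩
  have h3 := wedge_e3 x
  rw [wedge, hx.2, norm_zero] at h3
  rw [sub_zero, h3]
  exact hδ.1.le

theorem HALFM_nrm {M : Surf} {T : Finset ℂ} {σ : ℂ → ℝ} (h : M.Halves T σ) {w : ℂ} (hw : w ∈ T)
    {x : E} (hx : x ∈ HALFM_H w) : M.N x = pt (σ w • (Complex.I * w)) 0 := by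
  obtain ⟨s, hs, h1⟩ := hx
  rw [← h.nrm w hw s (x 2) hs, ← h1, pt_pr]

theorem HALFM_restrict (hAREA : S_AREA) {M : Surf} {T : Finset ℂ} {σ : ℂ → ℝ} (h : M.Halves T σ)
    {w : ℂ} (hw : w ∈ T) : M.μ.restrict (HALFM_H w) =
      ((volume.restrict (Ioi (0 : ℝ))).prod volume).map fun q : ℝ × ℝ => pt (q.1 • w) q.2 := by
  classical
  obtain ⟨hw1, hσ⟩ := h.unit w hw
  obtain ⟨A, hA⟩ := HALFM_iso hw1
  have hφ : Measurable fun q : ℝ × ℝ => pt (q.1 • w) q.2 :=
    Continuous.measurable (by fun_prop)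
  have hH := HALFM_meas hw1
  have he : A e3 = pt (Complex.I * w) 0 := hA 0 1
  ext B hB
  have hm : Measurable ((B ∩ HALFM_H w).indicator (1 : E → ℝ≥0∞)) :=
    measurable_one.indicator (hB.inter hH)
  have h1 := ((hAREA M A).1 _ hm).2
  have h2 : ∀ x, (B ∩ HALFM_H w).indicator (1 : E → ℝ≥0∞) x * ENNReal.ofReal |⟪M.N x, A e3⟫| =
      (B ∩ HALFM_H w).indicator 1 x := fun x => by
    by_cases hx : x ∈ B ∩ HALFM_H w
    · have e1 : M.N x = σ w • A e3 := by
        rw [HALFM_nrm h hw hx.2, he, ← pt_smul, mul_zero]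
      rw [e1, real_inner_smul_left, real_inner_self_eq_norm_sq, A.norm_map, norm_e3]
      rcases hσ with e | e <;> simp [e]
    · rw [indicator_of_notMem hx, zero_mul]
  have h3 : ∀ y : ℂ, (∑' t : ℝ, if A (pt y t) ∈ M.S then
      (B ∩ HALFM_H w).indicator (1 : E → ℝ≥0∞) (A (pt y t)) else 0) =
      ((fun q : ℝ × ℝ => pt (q.1 • w) q.2) ⁻¹' B ∩ Ioi 0 ×ˢ univ).indicator 1
        (Complex.measurableEquivRealProd y) := fun y => by
    rw [tsum_eq_single 0]
    · have e1 : A (pt y 0) = pt (y.re • w) y.im := by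
        rw [hA, Complex.real_smul]
        rfl
      have e4 : A (pt y 0) ∈ B ↔ pt (y.re • w) y.im ∈ B := by rw [e1]
      have e2 : A (pt y 0) ∈ HALFM_H w ↔ 0 < y.re := by
        rw [hA, HALFM_mem hw1]
        exact and_iff_right rfl
      by_cases hy : A (pt y 0) ∈ B ∩ HALFM_H w
      · rw [if_pos ((h.mem _ (HALFM_ne hw1 hy.2)).2 ⟨w, hw, hy.2⟩), indicator_of_mem hy,
          indicator_of_mem]
        · rfl
        · exact ⟨e4.1 hy.1, e2.1 hy.2, mem_univ _⟩
      · rw [indicator_of_notMem hy, ite_self, indicator_of_notMem]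
        exact fun hc => hy ⟨e4.2 hc.1, e2.2 hc.2.1⟩
    · intro t ht
      rw [indicator_of_notMem, ite_self]
      intro hc
      have h4 := hc.2
      rw [hA, HALFM_mem hw1] at h4
      exact ht h4.1
  have hm2 : MeasurableSet ((fun q : ℝ × ℝ => pt (q.1 • w) q.2) ⁻¹' B ∩ Ioi 0 ×ˢ univ) :=
    (hφ hB).inter (measurableSet_Ioi.prod MeasurableSet.univ)
  simp only [h2, h3] at h1
  rw [lintegral_indicator_one (hB.inter hH),
    Complex.volume_preserving_equiv_real_prod.lintegral_comp (measurable_one.indicator hm2),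
    lintegral_indicator_one hm2] at h1
  rw [Measure.restrict_apply hB, Measure.map_apply hφ hB, Measure.restrict_prod_eq_prod_univ,
    Measure.restrict_apply (hφ hB), h1]
  rfl

theorem HALFM_integral (hAREA : S_AREA) {M : Surf} {T : Finset ℂ} {σ : ℂ → ℝ} (hb : M.Bd)
    (h : M.Halves T σ) (g : E → ℝ) (hg : Continuous g) (hc : HasCompactSupport g)
    (F : E → E → ℝ) (hF : ∀ n, Continuous fun x => F x n) :
    ∫ x, g x * F x (M.N x) ∂M.μ = ∑ w ∈ T, ∫ s in Ioi (0 : ℝ), ∫ t : ℝ,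
      g (pt (s • w) t) * F (pt (s • w) t) (pt (σ w • (Complex.I * w)) 0) := by
  have := hb.isFiniteMeasureOnCompacts
  have hi : ∀ n, Integrable (fun x => g x * F x n) M.μ := fun n =>
    (hg.mul (hF n)).integrable_of_hasCompactSupport hc.mul_right
  have hH : ∀ w ∈ T, MeasurableSet (HALFM_H w) := fun w hw => HALFM_meas (h.unit w hw).1
  have he : ∀ w ∈ T, EqOn (fun x => g x * F x (M.N x))
      (fun x => g x * F x (pt (σ w • (Complex.I * w)) 0)) (HALFM_H w) := fun w hw x hx => by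
    simp only [HALFM_nrm h hw hx]
  have hae : ∀ᵐ x ∂M.μ, x ∈ ⋃ w ∈ T, HALFM_H w := by
    have h0 : ∀ᵐ x ∂M.μ, pr x ≠ 0 := by
      rw [ae_iff]
      simpa using HALFM_axis hb
    filter_upwards [h0, M.ae_mem] with x h1 h2
    obtain ⟨w, hw, h3⟩ := (h.mem x h1).1 h2
    exact mem_iUnion₂.2 ⟨w, hw, h3⟩
  rw [← Measure.restrict_eq_self_of_ae_mem hae, integral_biUnion_finset T hH
    (fun w hw w' hw' hne => HALFM_disj (h.unit w hw).1 (h.unit w' hw').1 hne)
    fun w hw => (hi _).integrableOn.congr_fun (he w hw).symm (hH w hw)]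
  refine Finset.sum_congr rfl fun w hw => ?_
  have hφ : Measurable fun q : ℝ × ℝ => pt (q.1 • w) q.2 :=
    Continuous.measurable (by fun_prop)
  have h1 : Integrable (fun x => g x * F x (pt (σ w • (Complex.I * w)) 0))
      (M.μ.restrict (HALFM_H w)) := (hi _).integrableOn
  rw [setIntegral_congr_fun (hH w hw) (he w hw)]
  rw [HALFM_restrict hAREA h hw] at h1 ⊢
  rw [integral_map hφ.aemeasurable h1.aestronglyMeasurable]
  exact integral_prod _ (h1.comp_measurable hφ)

theorem HALFM_half (t : ℝ) {r : ℝ} (hr : 0 < r) :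
    ∫ s in Ioi (0 : ℝ), ∫ u : ℝ, lam ((s ^ 2 + (u - t) ^ 2) / r ^ 2) = r ^ 2 / 2 := by
  have hp := Complex.volume_preserving_equiv_real_prod.symm
  have e : ∀ q : ℝ × ℝ, ‖Complex.measurableEquivRealProd.symm q - ⟨0, t⟩‖ ^ 2 =
      q.1 ^ 2 + (q.2 - t) ^ 2 := fun q => by
    rw [Complex.sq_norm, Complex.normSq_apply]
    simp only [Complex.measurableEquivRealProd_symm_apply, Complex.sub_re, Complex.sub_im]
    ring
  have h1 := integral_lam ⟨0, t⟩ hr
  have h2 := (hp.integrable_comp_emb Complex.measurableEquivRealProd.symm.measurableEmbedding).2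
    (integrable_lam ⟨0, t⟩ hr)
  rw [← hp.integral_comp'] at h1
  simp only [Function.comp_def, e] at h1 h2
  rw [Measure.volume_eq_prod] at h1 h2
  rw [integral_prod _ h2] at h1
  have h3 := integral_comp_abs (f := fun s : ℝ => ∫ u : ℝ, lam ((s ^ 2 + (u - t) ^ 2) / r ^ 2))
  simp only [sq_abs] at h3
  simp only at h1
  linarith

theorem halfm_of (hAREA : S_AREA) : S_HALFM := by
  intro M T σ hb h
  refine ⟨HALFM_integral hAREA hb h, fun t r hr => ?_⟩
  have hc : HasCompactSupport fun x : E => lam (‖x - pt 0 t‖ ^ 2 / r ^ 2) :=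
    HasCompactSupport.intro (isCompact_closedBall (pt 0 t) r) fun x hx =>
      dens_lam_zero hr (by
        rw [mem_closedBall, dist_eq_norm, not_le] at hx
        exact hx.le)
  have h1 := HALFM_integral hAREA hb h _ (dens_continuous_lam (pt 0 t) r) hc (fun _ _ => 1)
    fun _ => continuous_const
  have h2 : ∀ w ∈ T, ∫ s in Ioi (0 : ℝ), ∫ u : ℝ,
      lam (‖pt (s • w) u - pt 0 t‖ ^ 2 / r ^ 2) * 1 = r ^ 2 / 2 := fun w hw => by
    rw [← HALFM_half t hr]
    congr 1
    ext s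
    congr 1
    ext u
    rw [mul_one, ← pt_sub, norm_pt_sq, sub_zero, norm_smul, (h.unit w hw).1, mul_one,
      Real.norm_eq_abs, sq_abs]
  rw [Finset.sum_congr rfl h2, Finset.sum_const, nsmul_eq_mul] at h1
  simp only [mul_one] at h1
  rw [Surf.Θ, theta, h1]
  field_simp

end MW
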