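import Pool.Agent.P.MP_064970_gt.SG

/-!
Flat: FLAT2 and isPlane_of_eq. Not flat and not Scherk: TYPE, CASEII for M or M.swap (same S), II3,
IsSim.isCatenoid.
-/

open scoped Manifold ContDiff
open MeasureTheory Set Filter Topology Metric
open scoped RealInnerProductSpace ENNReal ComplexConjugate Real

noncomputable section

namespace MW

universe u

theorem main_of (hFLAT2 : S_FLAT2) (hTYPE : S_TYPE) (hCASEII : S_CASEII) (hII3 : S_II3) : S_MAIN := by
  intro M hM hc hne
  by_cases hF : M.Flat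
  · obtain ⟨p, hp⟩ := hne
    exact Or.inl (isPlane_of_eq (M.N_unit p hp) (hFLAT2.2.1 M hM hF p hp))
  by_cases hS : IsScherk M.S
  · exact Or.inr (Or.inr hS)
  obtain ⟨ε, hε, hT⟩ := hTYPE
  refine Or.inr (Or.inl ?_)
  rcases hT M hM hS with h | h
  · obtain ⟨M', A, b, a, hsim, h3⟩ := hCASEII ε hε M hM hc hF h
    exact hsim.isCatenoid.1 (hII3 M' a h3)
  · obtain ⟨M', A, b, a, hsim, h3⟩ :=
      hCASEII ε hε M.swap hM.swap hc (fun h' => hF (M.swap_flat.1 h')) h
    exact hsim.isCatenoid.1 (hII3 M' a h3)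

end MW
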