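import Pool.Agent.P.MP_064970_gt.SG

/-!
V from STR0. If V = bot: M from LIM, TUBE with any unit e (bad set in {0}), <x,N> = 0 on S, STR1
contradicts 1 < theta = lim Theta_k(0,1) = Theta(0,1). If V is a line R e: rotate by A.symm, A e3 =
e (exists_iso_e3; Surf.sim, IsSim.Θ, limO_sim transport StrHyp and the spine), STR2, Tri.sim. Else V
contains an orthonormal pair a, b: exists_iso_pair, STR3.
-/

open scoped Manifold ContDiff
open MeasureTheory Set Filter Topology Metric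
open scoped RealInnerProductSpace ENNReal ComplexConjugate Real

noncomputable section

namespace MW

universe u

theorem STR_apply (A : E ≃ₗᵢ[ℝ] E) (x : E) : simMap A 1 0 x = A x := by simp [simMap]

theorem STR_isSim (Mk : ℕ → Surf) (A : E ≃ₗᵢ[ℝ] E) (k : ℕ) :
    IsSim (Mk k) ((Mk k).sim A 1 0) A 1 0 := (Mk k).isSim A one_pos 0

theorem STR_Θ (Mk : ℕ → Surf) (A : E ≃ₗᵢ[ℝ] E) (k : ℕ) (x : E) (r : ℝ) :
    ((Mk k).sim A.symm 1 0).Θ x r = (Mk k).Θ (A x) r := by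
  have h := (STR_isSim Mk A.symm k).Θ (A x) r
  rwa [STR_apply, one_mul, A.symm_apply_apply] at h

theorem STR_spine (U : Filter ℕ) (Mk : ℕ → Surf) (θ : ℝ) (A : E ≃ₗᵢ[ℝ] E) (x : E) :
    x ∈ spine U (fun k => (Mk k).sim A.symm 1 0) θ ↔ A x ∈ spine U Mk θ := by
  simp only [spine, mem_ofPred_eq, STR_Θ]

theorem STR_hyp {U : Filter ℕ} {Mk : ℕ → Surf} {θ : ℝ} (h : StrHyp U Mk θ) (A : E ≃ₗᵢ[ℝ] E) :
    StrHyp U (fun k => (Mk k).sim A.symm 1 0) θ where
  mem := fun k => (STR_isSim Mk A.symm k).mem (h.mem k)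
  one_lt := h.one_lt
  le_two := h.le_two
  sup := fun ε hε => (h.sup ε hε).mono fun k hk p r hr => by
    rw [STR_Θ]
    exact hk _ r hr
  zero := (STR_spine U Mk θ A 0).2 (by rw [map_zero]; exact h.zero)
  bad := fun x hx => (STR_spine U Mk θ A x).2 (h.bad _ fun h1 => hx (by
    have h2 := (limO_sim (STR_isSim Mk A.symm) (A x)).2 h1
    rwa [STR_apply, A.symm_apply_apply] at h2))

theorem STR_tri {U : Filter ℕ} {Mk : ℕ → Surf} (A : E ≃ₗᵢ[ℝ] E)
    (h : Tri U (fun k => (Mk k).sim A 1 0) (fun _ => 0) fun _ => 1) :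
    Tri U Mk (fun _ => 0) fun _ => 1 := by
  refine (Tri.sim (c := fun _ => 1) (b := fun _ => 0) (STR_isSim Mk A) _ _).1 ?_
  simpa only [STR_apply, map_zero, mul_one] using h

theorem STR_plane {x : E} (hx : x 2 = 0) : x = x 0 • ex + x 1 • ey := by
  ext i
  fin_cases i <;> simp [ex, ey, hx]

theorem STR_axis {x : E} : pr x = 0 ↔ x = x 2 • e3 := by
  constructor
  · intro h
    have h0 : x 0 = 0 := by simpa using congrArg Complex.re h
    have h1 : x 1 = 0 := by simpa using congrArg Complex.im h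
    ext i
    fin_cases i <;> simp [e3, h0, h1]
  · intro h
    rw [h, pr_smul, pr_e3, smul_zero]

/-- A subspace is trivial, a line, or contains an orthonormal pair. -/
theorem STR_cases (V : Submodule ℝ E) :
    (∀ x ∈ V, x = 0) ∨ (∃ e ∈ V, ‖e‖ = 1 ∧ ∀ x ∈ V, x = ⟪x, e⟫ • e) ∨
      ∃ a ∈ V, ∃ b ∈ V, ‖a‖ = 1 ∧ ‖b‖ = 1 ∧ ⟪a, b⟫ = 0 := by
  by_cases h0 : ∀ x ∈ V, x = 0
  · exact Or.inl h0
  push Not at h0
  obtain ⟨v, hv, hv0⟩ := h0
  have he : ‖(‖v‖⁻¹ : ℝ) • v‖ = 1 := norm_smul_inv_norm hv0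
  have heV : (‖v‖⁻¹ : ℝ) • v ∈ V := V.smul_mem _ hv
  generalize (‖v‖⁻¹ : ℝ) • v = e at he heV
  by_cases h1 : ∀ x ∈ V, x = ⟪x, e⟫ • e
  · exact Or.inr (Or.inl ⟨e, heV, he, h1⟩)
  push Not at h1
  obtain ⟨x, hx, hxe⟩ := h1
  have hw : x - ⟪x, e⟫ • e ≠ 0 := sub_ne_zero.2 hxe
  refine Or.inr (Or.inr ⟨e, heV, (‖x - ⟪x, e⟫ • e‖⁻¹ : ℝ) • (x - ⟪x, e⟫ • e),
    V.smul_mem _ (V.sub_mem hx (V.smul_mem _ heV)), he, norm_smul_inv_norm hw, ?_⟩)
  rw [real_inner_smul_right, inner_sub_right, real_inner_smul_right, real_inner_self_eq_norm_sq,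
    he, real_inner_comm]
  ring

theorem str_of (hSTR0 : S_STR0) (hLIM : S_LIM) (hTUBE : S_TUBE) (hSTR1 : S_STR1) (hSTR2 : S_STR2) (hSTR3 :
    S_STR3) : S_STR := by
  intro U Mk θ h
  obtain ⟨hψ, V, hV, -⟩ := hSTR0 U Mk θ h.mem h.zero
  have hV' : ∀ x, x ∈ V ↔ x ∈ spine U Mk θ := fun x => by rw [← hV]; rfl
  rcases STR_cases V with h0 | ⟨e, heV, he, h1⟩ | ⟨a, ha, b, hb, na, nb, hab⟩
  · exfalso
    obtain ⟨M, hO, hB, hC⟩ := hLIM U Mk h.mem
    have hM : ∀ x, x ≠ 0 → x ∈ M.O := fun x hx => by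
      rw [hO]
      by_contra h2
      exact hx (h0 x ((hV' x).2 (h.bad x h2)))
    obtain ⟨-, -, t1, t2⟩ := hTUBE U Mk M e3 h.mem hB hC norm_e3 fun x hx => hM x (by
      rintro rfl
      simp at hx)
    have h3 := hSTR1 M hB hM (t2 (fun q => ⟪q.1, q.2⟫) (continuous_fst.inner continuous_snd) hψ)
    have h4 := tendsto_nhds_unique (t1 0 1 one_pos) (h.zero 1 one_pos)
    linarith [h.one_lt]
  · obtain ⟨A, hA⟩ := exists_iso_e3 he
    obtain ⟨h2, h3⟩ := hSTR2 U _ θ (STR_hyp h A) (by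
      ext x
      rw [STR_spine, ← hV', mem_ofPred_eq, STR_axis]
      constructor
      · intro hx
        have h4 := h1 _ hx
        rw [← hA, A.inner_map_map, inner_e3, ← map_smul] at h4
        exact A.injective h4
      · intro hx
        rw [hx, map_smul, hA]
        exact V.smul_mem _ heV)
    exact ⟨h2, STR_tri A.symm (Or.inr (Or.inr h3))⟩
  · obtain ⟨A, hA, hB⟩ := exists_iso_pair na nb hab
    obtain ⟨h2, h3⟩ := hSTR3 U _ θ (STR_hyp h A) fun x hx => by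
      rw [STR_spine, ← hV', STR_plane hx, map_add, map_smul, map_smul, hA, hB]
      exact V.add_mem (V.smul_mem _ ha) (V.smul_mem _ hb)
    exact ⟨h2, STR_tri A.symm (h3.elim (fun h4 => Or.inl ⟨e3, h4⟩)
      fun h4 => Or.inr (Or.inl ⟨e3, h4⟩))⟩

end MW
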