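import Pool.Agent.P.MP_064970_gt.SG

/-!
For p in the spine the third clause of MONO gives int_{ball p R} psi_p^2 -> 0. For v in the spine
<v,N> = psi_0 - psi_v up to sign. For q, v in the spine and real t, SHIFT at q with the vector t v
and |a|(|b|+|a|) <= eta b^2 + (1 + 1/eta) a^2 (or Cauchy-Schwarz) shows q + t v in the spine. All
integrands are bounded measurable on balls (Bd.integrableOn, N unit on S).
-/

open scoped Manifold ContDiff
open MeasureTheory Set Filter Topology Metric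
open scoped RealInnerProductSpace ENNReal ComplexConjugate Real

noncomputable section

namespace MW

universe u

theorem STR0_int {M : Surf} (h : M.Bd) {w : E → E} (hw : Continuous w) (p : E) (R : ℝ) :
    IntegrableOn (fun x => ⟪w x, M.N x⟫ ^ 2) (ball p R) M.μ := by
  obtain ⟨C, hC⟩ := (isCompact_closedBall p R).exists_bound_of_continuousOn hw.continuousOn
  refine h.integrableOn isBounded_ball ((hw.measurable.inner M.N_meas).pow_const 2) (C := C ^ 2)
    (fun x hx => ?_) measurableSet_ball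
  have h1 := abs_real_inner_le_norm (w x) (M.N x)
  rw [M.N_unit x hx.2, mul_one] at h1
  rw [abs_pow]
  exact pow_le_pow_left₀ (abs_nonneg _) (h1.trans (hC x (ball_subset_closedBall hx.1))) 2

theorem STR0_mono {M : Surf} (h : M.Bd) {w : E → E} (hw : Continuous w) {p q : E} {R S : ℝ}
    (hs : ball p R ⊆ ball q S) :
    ∫ x in ball p R, ⟪w x, M.N x⟫ ^ 2 ∂M.μ ≤ ∫ x in ball q S, ⟪w x, M.N x⟫ ^ 2 ∂M.μ :=
  setIntegral_mono_set (STR0_int h hw q S) (Eventually.of_forall fun _ => sq_nonneg _)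
    hs.eventuallyLE

/-- The field `w` is almost tangent. -/
def STR0_Small (U : Filter ℕ) (Mk : ℕ → Surf) (w : E → E) : Prop :=
  ∀ p R, Tendsto (fun k => ∫ x in ball p R, ⟪w x, (Mk k).N x⟫ ^ 2 ∂(Mk k).μ) U (𝓝 0)

variable {U : Filter ℕ} {Mk : ℕ → Surf} {θ : ℝ}

theorem STR0_spine (hMONO : S_MONO) (hM : ∀ k, (Mk k).Mem) {p : E} (hp : p ∈ spine U Mk θ) :
    STR0_Small U Mk fun x => x - p := by
  intro q R
  obtain ⟨s, hs⟩ : ∃ s : ℝ, s = 2 * (|R| + dist q p + 1) := ⟨_, rfl⟩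
  have h0 : 0 < s := by rw [hs]; positivity
  have hsub : ball q R ⊆ ball p (s / 2) := ball_subset_ball' (by
    have := le_abs_self R
    rw [hs]; linarith)
  have ht : Tendsto (fun k => 10 * s ^ 4 * ((Mk k).Θ p s - (Mk k).Θ p (s / 4))) U (𝓝 0) := by
    have := ((hp s h0).sub (hp (s / 4) (by positivity))).const_mul (10 * s ^ 4)
    rwa [sub_self, mul_zero] at this
  refine squeeze_zero (fun k => integral_nonneg fun _ => sq_nonneg _) (fun k => ?_) ht
  refine (STR0_mono (hM k).bd (by fun_prop) hsub).trans ?_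
  exact (hMONO (Mk k) p (s / 4) s (by positivity) (by linarith) ((hM k).sub _)).2.2.1 (by linarith)

theorem STR0_comb (hM : ∀ k, (Mk k).Mem) {w w' : E → E} (hw : Continuous w) (hw' : Continuous w')
    (h : STR0_Small U Mk w) (h' : STR0_Small U Mk w') {g : ℕ → E → ℝ} (h0 : ∀ k x, 0 ≤ g k x)
    (hg : ∀ k x, g k x ≤ 2 * ⟪w x, (Mk k).N x⟫ ^ 2 + 2 * ⟪w' x, (Mk k).N x⟫ ^ 2) (p : E) (R : ℝ) :
    Tendsto (fun k => ∫ x in ball p R, g k x ∂(Mk k).μ) U (𝓝 0) := by
  have ht := ((h p R).const_mul 2).add ((h' p R).const_mul 2)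
  rw [mul_zero, add_zero] at ht
  refine squeeze_zero (fun k => integral_nonneg (h0 k)) (fun k => ?_) ht
  have i1 := (STR0_int (hM k).bd hw p R).const_mul 2
  have i2 := (STR0_int (hM k).bd hw' p R).const_mul 2
  rw [← integral_const_mul, ← integral_const_mul, ← integral_add i1 i2]
  exact integral_mono_of_nonneg (Eventually.of_forall (h0 k)) (i1.add i2)
    (Eventually.of_forall (hg k))

theorem STR0_const (hMONO : S_MONO) (hM : ∀ k, (Mk k).Mem) (h0 : (0 : E) ∈ spine U Mk θ) {v : E}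
    (hv : v ∈ spine U Mk θ) : STR0_Small U Mk fun _ => v := fun p R => by
  refine STR0_comb hM (by fun_prop) (by fun_prop) (STR0_spine hMONO hM h0)
    (STR0_spine hMONO hM hv) (fun _ _ => sq_nonneg _) (fun k x => ?_) p R
  rw [sub_zero, inner_sub_left]
  nlinarith [sq_nonneg (2 * ⟪x, (Mk k).N x⟫ - ⟪v, (Mk k).N x⟫)]

theorem STR0_smul {v : E} (h : STR0_Small U Mk fun _ => v) (c : ℝ) :
    STR0_Small U Mk fun _ => c • v := fun p R => by
  have := (h p R).const_mul (c ^ 2)
  rw [mul_zero] at this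
  refine this.congr fun k => ?_
  rw [← integral_const_mul]
  simp only [real_inner_smul_left, mul_pow]

theorem STR0_add (hMONO : S_MONO) (hSHIFT : S_SHIFT) (hM : ∀ k, (Mk k).Mem) {q v : E}
    (hq : q ∈ spine U Mk θ) (hv : STR0_Small U Mk fun _ => v) : q + v ∈ spine U Mk θ := by
  intro r hr
  have ht := (STR0_comb hM (by fun_prop) (by fun_prop) hv (STR0_spine hMONO hM hq)
    (g := fun k x => |⟪(Mk k).N x, v⟫| * (|(Mk k).ψ q x| + |⟪(Mk k).N x, v⟫|))
    (fun _ _ => by positivity) (fun k x => by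
      rw [real_inner_comm, ← sq_abs ⟪v, (Mk k).N x⟫, ← sq_abs ⟪x - q, (Mk k).N x⟫, Surf.ψ]
      nlinarith [sq_nonneg (|⟪v, (Mk k).N x⟫| - |⟪x - q, (Mk k).N x⟫|),
        sq_nonneg |⟪v, (Mk k).N x⟫|, sq_nonneg |⟪x - q, (Mk k).N x⟫|])
    q (r + ‖v‖)).const_mul (8 / r ^ 4)
  rw [mul_zero] at ht
  have h1 : Tendsto (fun k => (Mk k).Θ (q + v) r - (Mk k).Θ q r) U (𝓝 0) :=
    squeeze_zero_norm (fun k => hSHIFT (Mk k) (hM k) q v r hr) ht
  simpa using h1.add (hq r hr)

theorem str0_of (hMONO : S_MONO) (hSHIFT : S_SHIFT) : S_STR0 := by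
  intro U Mk θ hM h0
  refine ⟨fun R => by simpa using STR0_spine hMONO hM h0 0 R,
    { carrier := spine U Mk θ
      zero_mem' := h0
      add_mem' := fun hq hv => STR0_add hMONO hSHIFT hM hq (STR0_const hMONO hM h0 hv)
      smul_mem' := fun c v hv => by
        simpa using STR0_add hMONO hSHIFT hM h0 (STR0_smul (STR0_const hMONO hM h0 hv) c) },
    rfl, fun v hv R => STR0_const hMONO hM h0 hv 0 R⟩

end MW
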