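import Pool.Agent.P.MP_064970_gt.SG

/-!
G3, dimension 0. FLAT1 (first and last clause, p = 0): near x in S, x <> 0, S is the plane through x
orthogonal to N x, which contains 0. For such x the punctured plane P_x minus 0 is preconnected, and
the set of its points z with z in S and S = P_x near z is open and closed in it (S is closed in O;
at a limit point z the local plane P_z contains an open piece of P_x). Two different punctured
planes in S would share a point z <> 0 where S is locally one plane. So S minus 0 lies in one plane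
nu-perp with N = +-nu; mu {0} = 0 by Bd; AREA with A e3 = nu, G = S minus 0, n = 1, integral_lam.
-/

open scoped Manifold ContDiff
open MeasureTheory Set Filter Topology Metric
open scoped RealInnerProductSpace ENNReal ComplexConjugate Real

noncomputable section

namespace MW

universe u

/-- Two planes through the origin which agree near a common point agree. -/
theorem STR1_imp {ν ν' w : E} (hw : ⟪w, ν⟫ = 0)
    (h : ∀ᶠ y in 𝓝 w, ⟪y, ν⟫ = 0 → ⟪y, ν'⟫ = 0) {v : E} (hv : ⟪v, ν⟫ = 0) : ⟪v, ν'⟫ = 0 := by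
  have hw' : ⟪w, ν'⟫ = 0 := h.self_of_nhds hw
  have hc : Tendsto (fun t : ℝ => w + t • v) (𝓝[>] 0) (𝓝 w) := by
    have h1 : Continuous fun t : ℝ => w + t • v := by fun_prop
    have h2 := h1.tendsto 0
    rw [zero_smul, add_zero] at h2
    exact h2.mono_left nhdsWithin_le_nhds
  obtain ⟨t, ht, ht0⟩ := ((hc.eventually h).and self_mem_nhdsWithin).exists
  have h3 := ht (by rw [inner_add_left, real_inner_smul_left, hw, hv, mul_zero, add_zero])
  rw [inner_add_left, real_inner_smul_left, hw', zero_add] at h3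
  exact (mul_eq_zero.1 h3).resolve_left (ne_of_gt ht0)

theorem STR1_iff {S : Set E} {ν ν' w : E} (hw : ⟪w, ν⟫ = 0)
    (h : ∀ᶠ y in 𝓝 w, y ∈ S ↔ ⟪y, ν⟫ = 0) (h' : ∀ᶠ y in 𝓝 w, y ∈ S ↔ ⟪y, ν'⟫ = 0) (v : E) :
    ⟪v, ν⟫ = 0 ↔ ⟪v, ν'⟫ = 0 := by
  have hw' : ⟪w, ν'⟫ = 0 := h'.self_of_nhds.1 (h.self_of_nhds.2 hw)
  constructor
  · refine STR1_imp hw ?_
    filter_upwards [h, h'] with y h1 h2 h3
    exact h2.1 (h1.2 h3)
  · refine STR1_imp hw' ?_
    filter_upwards [h, h'] with y h1 h2 h3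
    exact h1.1 (h2.2 h3)

/-- Near a point other than the vertex the cone is a plane. -/
theorem STR1_local (hFLAT1 : S_FLAT1) {M : Surf} (hc : ∀ x ∈ M.S, ⟪x, M.N x⟫ = 0) {x : E}
    (hx : x ∈ M.S) (h0 : x ≠ 0) : ∀ᶠ y in 𝓝 x, y ∈ M.S ↔ ⟪y, M.N x⟫ = 0 := by
  obtain ⟨h1, -, -, h4⟩ := hFLAT1 M x hx
  have h2 := h4 (h1 0 h0 (by
    filter_upwards [self_mem_nhdsWithin] with y hy
    rw [sub_zero]
    exact hc y hy))
  filter_upwards [h2] with y hy
  rwa [inner_sub_left, hc x hx, sub_zero] at hy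

theorem STR1_inner (A : E ≃ₗᵢ[ℝ] E) (y : ℂ) : ⟪A (pt y 0), A e3⟫ = 0 := by
  rw [A.inner_map_map, inner_e3, pt_two]

theorem STR1_norm (A : E ≃ₗᵢ[ℝ] E) (y : ℂ) : ‖A (pt y 0)‖ = ‖y‖ := by
  rw [A.norm_map, norm_pt_zero]

theorem STR1_eq (A : E ≃ₗᵢ[ℝ] E) {x : E} (hx : ⟪x, A e3⟫ = 0) : A (pt (prA A x) 0) = x := by
  have h := apply_pt_prA A x
  rwa [hx] at h

/-- The whole punctured plane lies in the cone. -/
theorem STR1_global (hFLAT1 : S_FLAT1) {M : Surf} (hO : ∀ x, x ≠ 0 → x ∈ M.O)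
    (hc : ∀ x ∈ M.S, ⟪x, M.N x⟫ = 0) {x : E} (hx : x ∈ M.S) (h0 : x ≠ 0) {z : E} (hz : z ≠ 0)
    (hzx : ⟪z, M.N x⟫ = 0) : ∀ᶠ y in 𝓝 z, y ∈ M.S ↔ ⟪y, M.N x⟫ = 0 := by
  obtain ⟨A, hA⟩ := exists_iso_e3 (M.N_unit x hx)
  have hg : Continuous fun w : ℂ => A (pt w 0) := by fun_prop
  have hne : ∀ {u : E}, u ≠ 0 → ⟪u, A e3⟫ = 0 → prA A u ∈ ({0}ᶜ : Set ℂ) := by
    intro u hu hu' h
    have h1 := STR1_norm A (prA A u)
    rw [STR1_eq A hu', mem_singleton_iff.1 h, norm_zero, norm_eq_zero] at h1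
    exact hu h1
  set T : Set ℂ := {w | ∀ᶠ y in 𝓝 (A (pt w 0)), y ∈ M.S ↔ ⟪y, A e3⟫ = 0} with hT
  have hTo : IsOpen T := isOpen_setOfPred_eventually_nhds.preimage hg
  have hconn : IsPreconnected ({0}ᶜ : Set ℂ) :=
    (isConnected_compl_singleton_of_one_lt_rank (by simp) 0).isPreconnected
  have hx' : ⟪x, A e3⟫ = 0 := by rw [hA]; exact hc x hx
  have hsub : ({0}ᶜ : Set ℂ) ⊆ T := by
    refine hconn.subset_of_closure_inter_subset hTo ⟨prA A x, hne h0 hx', ?_⟩ ?_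
    · rw [hT, mem_ofPred_eq, STR1_eq A hx', hA]
      exact STR1_local hFLAT1 hc hx h0
    · rintro w ⟨hw, hw0⟩
      have hw1 : A (pt w 0) ≠ 0 := by
        rw [← norm_ne_zero_iff, STR1_norm, norm_ne_zero_iff]
        exact hw0
      have hS : A (pt w 0) ∈ M.S := M.mem_S_of_closure (hO _ hw1)
        (map_mem_closure (f := fun w : ℂ => A (pt w 0)) hg hw fun u hu =>
          (Eventually.self_of_nhds hu).2 (STR1_inner A u))
      have hl := STR1_local hFLAT1 hc hS hw1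
      have h1 := (hg.tendsto w).eventually hl.eventually_nhds
      obtain ⟨u, hu, hu'⟩ := ((mem_closure_iff_frequently.1 hw).and_eventually h1).exists
      have h2 := STR1_iff (STR1_inner A u) hu hu'
      filter_upwards [hl] with y hy
      rw [hy, h2]
  rw [← hA] at hzx ⊢
  have h3 := hsub (hne hz hzx)
  rwa [hT, mem_ofPred_eq, STR1_eq A hzx] at h3

theorem STR1_common (A : E ≃ₗᵢ[ℝ] E) (n : E) : ∃ z : E, z ≠ 0 ∧ ⟪z, A e3⟫ = 0 ∧ ⟪z, n⟫ = 0 := by
  have key : ∀ y : ℂ, y ≠ 0 → ⟪pr (A.symm n), y⟫ = 0 →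
      ∃ z : E, z ≠ 0 ∧ ⟪z, A e3⟫ = 0 ∧ ⟪z, n⟫ = 0 := by
    intro y hy h
    refine ⟨A (pt y 0), ?_, STR1_inner A y, ?_⟩
    · rwa [← norm_ne_zero_iff, STR1_norm, norm_ne_zero_iff]
    · rw [← A.apply_symm_apply n, A.inner_map_map, real_inner_comm, inner_pt, h, mul_zero, add_zero]
  by_cases h : pr (A.symm n) = 0
  · exact key 1 one_ne_zero (by rw [h, inner_zero_left])
  · refine key (Complex.I * pr (A.symm n)) (mul_ne_zero Complex.I_ne_zero h) ?_
    rw [Complex.inner]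
    simp
    ring

/-- The punctured cone lies in one plane. -/
theorem STR1_plane (hFLAT1 : S_FLAT1) {M : Surf} (hO : ∀ x, x ≠ 0 → x ∈ M.O)
    (hc : ∀ x ∈ M.S, ⟪x, M.N x⟫ = 0) {x : E} (hx : x ∈ M.S) (h0 : x ≠ 0) {x' : E}
    (hx' : x' ∈ M.S) (h0' : x' ≠ 0) : ⟪x', M.N x⟫ = 0 ∧ |⟪M.N x', M.N x⟫| = 1 := by
  obtain ⟨A, hA⟩ := exists_iso_e3 (M.N_unit x hx)
  obtain ⟨z, hz, h1, h2⟩ := STR1_common A (M.N x')
  rw [hA] at h1
  have h3 := STR1_iff h1 (STR1_global hFLAT1 hO hc hx h0 hz h1)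
    (STR1_global hFLAT1 hO hc hx' h0' hz h2)
  refine ⟨(h3 x').2 (hc x' hx'), ?_⟩
  have h4 := (h3 (M.N x' - ⟪M.N x', M.N x⟫ • M.N x)).1 (by
    rw [inner_sub_left, real_inner_smul_left, real_inner_self_eq_norm_sq, M.N_unit x hx]
    ring)
  rw [inner_sub_left, real_inner_smul_left, real_inner_self_eq_norm_sq, M.N_unit x' hx',
    real_inner_comm (M.N x')] at h4
  rw [← sq_eq_sq₀ (abs_nonneg _) zero_le_one, sq_abs]
  linarith

theorem str1_of (hFLAT1 : S_FLAT1) (hAREA : S_AREA) : S_STR1 := by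
  intro M hB hO hc
  have hz : M.μ {0} = 0 := by
    have h := hB.closedBall 0 le_rfl
    simpa using h
  have hG : ∀ᵐ x ∂M.μ, x ∈ M.S \ {0} := by
    filter_upwards [M.ae_mem, measure_eq_zero_iff_ae_notMem.1 hz] with x h1 h2
    exact ⟨h1, h2⟩
  have hGm : MeasurableSet (M.S \ {0}) := M.measurableSet_S.diff (measurableSet_singleton 0)
  rw [Surf.Θ, theta]
  rcases (M.S \ {0}).eq_empty_or_nonempty with he | ⟨x, hx, h0⟩
  · rw [he] at hG
    have h1 : M.μ = 0 := by simpa using hG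
    rw [h1]
    simp
  obtain ⟨A, hA⟩ := exists_iso_e3 (M.N_unit x hx)
  have hpl : ∀ y ∈ M.S \ {0}, ⟪y, A e3⟫ = 0 ∧ |⟪M.N y, A e3⟫| = 1 := fun y hy => by
    rw [hA]
    exact STR1_plane hFLAT1 hO hc hx h0 hy.1 hy.2
  have hf : Measurable fun y : ℂ => ENNReal.ofReal (lam (‖y - 0‖ ^ 2 / 1 ^ 2)) :=
    ENNReal.measurable_ofReal.comp (contDiff_lam.continuous.comp (by fun_prop)).measurable
  have h1 := (((hAREA M A).2.2 _ hGm sdiff_subset).2 _ hf).2 1 fun y => by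
    refine Set.encard_le_one_iff.2 fun a b ha hb => ?_
    rw [← STR1_eq A (hpl a ha.1).1, ← STR1_eq A (hpl b hb.1).1, mem_singleton_iff.1 ha.2,
      mem_singleton_iff.1 hb.2]
  have h2 : ∫⁻ y : ℂ, ENNReal.ofReal (lam (‖y - 0‖ ^ 2 / 1 ^ 2)) = 1 := by
    rw [← ofReal_integral_eq_lintegral_ofReal (integrable_lam 0 one_pos)
      (Eventually.of_forall fun _ => lam_nonneg _), integral_lam 0 one_pos]
    simp
  have h3 : ∫⁻ y, ENNReal.ofReal (lam (‖y - (0 : E)‖ ^ 2 / 1 ^ 2)) ∂M.μ ≤ 1 := by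
    rw [Measure.restrict_eq_self_of_ae_mem hG, Nat.cast_one, one_mul] at h1
    refine le_trans (le_of_eq (lintegral_congr_ae ?_))
      (h1.trans ((setLIntegral_le_lintegral _ _).trans h2.le))
    filter_upwards [hG] with y hy
    have h4 := STR1_norm A (prA A y)
    rw [STR1_eq A (hpl y hy).1] at h4
    rw [(hpl y hy).2, ENNReal.ofReal_one, mul_one, sub_zero, sub_zero, h4]
  rw [integral_eq_lintegral_of_nonneg_ae (Eventually.of_forall fun _ => lam_nonneg _)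
    (dens_continuous_lam 0 1).aestronglyMeasurable, one_pow, div_one]
  rw [one_pow] at h3
  exact ENNReal.toReal_le_of_le_ofReal zero_le_one (by rwa [ENNReal.ofReal_one])

end MW
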