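import Pool.Agent.P.MP_064970_gt.SG

/-!
M from LIM; off the axis everything is in limO (StrHyp.bad). STR0 with v = e3 and TUBE give N 2 = 0
and <x,N> = 0 on S. HALF, HALFM: theta = lim Theta_k(0,1) = card T/2, so card T is 3 or 4. Balance:
FV for Mk with the radial test function zeta = lam(|x|^2) and horizontal v passes to the limit by
TUBE; by HALFM the limit is a nonzero constant times <sum w, v>. COUNT, XLIM.
-/

open scoped Manifold ContDiff
open MeasureTheory Set Filter Topology Metric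
open scoped RealInnerProductSpace ENNReal ComplexConjugate Real

noncomputable section

namespace MW

universe u

/-- The radial weight. -/
def STR2_g (x : E) : ℝ := max (1 - ‖x‖ ^ 2) 0 ^ 2

theorem STR2_g_cont : Continuous STR2_g := by
  unfold STR2_g
  fun_prop

theorem STR2_g_zero {x : E} (hx : x ∉ closedBall (0 : E) 1) : STR2_g x = 0 := by
  rw [mem_closedBall_zero_iff, not_le] at hx
  have h : 1 - ‖x‖ ^ 2 ≤ 0 := by nlinarith
  simp [STR2_g, max_eq_right h]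

theorem STR2_g_supp : HasCompactSupport STR2_g :=
  HasCompactSupport.intro (isCompact_closedBall (0 : E) 1) fun _ hx => STR2_g_zero hx

/-- The test function. -/
def STR2_z (x : E) : ℝ := lam (‖x‖ ^ 2)

theorem STR2_z_contDiff : ContDiff ℝ 1 STR2_z :=
  (contDiff_lam.of_le (by norm_num)).comp (contDiff_norm_sq ℝ)

theorem STR2_z_supp : HasCompactSupport STR2_z :=
  HasCompactSupport.intro (isCompact_closedBall (0 : E) 1) fun x hx => by
    rw [mem_closedBall_zero_iff, not_le] at hx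
    exact lam_eq_zero (by nlinarith)

theorem STR2_z_fderiv (x v : E) : fderiv ℝ STR2_z x v = -(24 / π) * (STR2_g x * ⟪x, v⟫) := by
  have h1 : HasFDerivAt (fun y : E => ‖y‖ ^ 2) (2 • innerSL ℝ x) x := by
    simpa using (hasStrictFDerivAt_norm_sq x).hasFDerivAt
  have h2 := (hasDerivAt_lam (‖x‖ ^ 2)).comp_hasFDerivAt x h1
  have h3 : HasFDerivAt STR2_z
      ((-(12 / π) * max (1 - ‖x‖ ^ 2) 0 ^ 2) • (2 • innerSL ℝ x)) x := h2
  rw [h3.fderiv]
  simp only [smul_apply, innerSL_apply_apply, smul_eq_mul, nsmul_eq_mul,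
    STR2_g]
  push_cast
  ring

/-- The first variation with the radial test function. -/
theorem STR2_fv (hFV : S_FV) (M : Surf) (hM : M.Mem) (v : E) :
    ∫ x, STR2_g x * (⟪x, v⟫ - ⟪M.N x, v⟫ * ⟪x, M.N x⟫) ∂M.μ = 0 := by
  have h := (hFV M).1 STR2_z STR2_z_contDiff STR2_z_supp (by rw [hM.univ]; exact subset_univ _) v
  have h2 : ∀ x, fderiv ℝ STR2_z x v - ⟪M.N x, v⟫ * fderiv ℝ STR2_z x (M.N x)
      = -(24 / π) * (STR2_g x * (⟪x, v⟫ - ⟪M.N x, v⟫ * ⟪x, M.N x⟫)) := fun x => by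
    rw [STR2_z_fderiv, STR2_z_fderiv]
    ring
  simp only [h2] at h
  rw [integral_const_mul] at h
  have hπ : -(24 / π) ≠ 0 := neg_ne_zero.2 (by positivity)
  exact (mul_eq_zero.1 h).resolve_left hπ

/-- The planar integrand. -/
def STR2_h (q : ℝ × ℝ) : ℝ := q.1 * max (1 - (q.1 ^ 2 + q.2 ^ 2)) 0 ^ 2

theorem STR2_h_cont : Continuous STR2_h := by
  unfold STR2_h
  fun_prop

theorem STR2_h_zero {s t : ℝ} (h : 1 < |s| ∨ 1 < |t|) : STR2_h (s, t) = 0 := by
  have h1 : 1 - (s ^ 2 + t ^ 2) ≤ 0 := by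
    rcases h with h | h
    · nlinarith [sq_abs s, sq_nonneg t]
    · nlinarith [sq_abs t, sq_nonneg s]
  simp [STR2_h, max_eq_right h1]

theorem STR2_h_supp : HasCompactSupport STR2_h := by
  refine HasCompactSupport.intro
    ((isCompact_Icc (a := (-1 : ℝ)) (b := 1)).prod (isCompact_Icc (a := (-1 : ℝ)) (b := 1))) ?_
  rintro ⟨s, t⟩ hq
  apply STR2_h_zero
  by_contra hc
  push Not at hc
  exact hq ⟨abs_le.1 hc.1, abs_le.1 hc.2⟩

theorem STR2_inner_pos {s : ℝ} (hs : 0 < s) (hs1 : s < 1) : 0 < ∫ t, STR2_h (s, t) := by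
  have hc : Continuous fun t => STR2_h (s, t) := STR2_h_cont.comp (by fun_prop)
  have hk : HasCompactSupport fun t => STR2_h (s, t) := by
    refine HasCompactSupport.intro (isCompact_Icc (a := (-1 : ℝ)) (b := 1)) fun t ht => ?_
    apply STR2_h_zero
    right
    by_contra hc
    exact ht (abs_le.1 (not_lt.1 hc))
  refine hc.integral_pos_of_hasCompactSupport_nonneg_nonzero hk (x := 0) (fun t => ?_) ?_
  · exact mul_nonneg hs.le (sq_nonneg _)
  · have h1 : 0 < 1 - (s ^ 2 + 0 ^ 2) := by nlinarith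
    exact (mul_pos hs (pow_pos (lt_max_of_lt_left h1) 2)).ne'

theorem STR2_C_pos : 0 < ∫ s in Ioi (0 : ℝ), ∫ t, STR2_h (s, t) := by
  have hi : Integrable STR2_h (volume.prod volume) :=
    STR2_h_cont.integrable_of_hasCompactSupport STR2_h_supp
  have hi2 : Integrable fun s => ∫ t, STR2_h (s, t) := hi.integral_prod_left
  rw [setIntegral_pos_iff_support_of_nonneg_ae ?_ hi2.integrableOn]
  · refine lt_of_lt_of_le ?_ (measure_mono (s := Ioo (0 : ℝ) 1) fun s hs => ⟨?_, hs.1⟩)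
    · simp
    · exact (STR2_inner_pos hs.1 hs.2).ne'
  · filter_upwards [ae_restrict_mem measurableSet_Ioi] with s hs
    exact integral_nonneg fun t => mul_nonneg (le_of_lt hs) (sq_nonneg _)

/-- The integrand on one half plane. -/
theorem STR2_half {w : ℂ} (hw : ‖w‖ = 1) (c : ℝ) (z : ℂ) (s t : ℝ) :
    STR2_g (pt (s • w) t) * (⟪pt (s • w) t, pt z 0⟫ -
      ⟪pt (c • (Complex.I * w)) 0, pt z 0⟫ * ⟪pt (s • w) t, pt (c • (Complex.I * w)) 0⟫)
      = ⟪w, z⟫ * STR2_h (s, t) := by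
  have h1 : ‖pt (s • w) t‖ ^ 2 = s ^ 2 + t ^ 2 := by
    rw [norm_pt_sq, norm_smul, hw, mul_one, Real.norm_eq_abs, sq_abs]
  have h2 : ⟪pt (s • w) t, pt z 0⟫ = s * ⟪w, z⟫ := by
    rw [inner_pt, pr_pt, real_inner_smul_left, mul_zero, add_zero]
  have h3 : ⟪pt (s • w) t, pt (c • (Complex.I * w)) 0⟫ = 0 := by
    rw [inner_eq]
    simp
    ring
  rw [h2, h3, STR2_g, h1, STR2_h]
  ring

/-- The half planes are balanced. -/
theorem STR2_balance (hHALFM : S_HALFM) {M : Surf} {T : Finset ℂ} {σ : ℂ → ℝ} (hB : M.Bd)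
    (hT : M.Halves T σ)
    (h : ∀ v : E, ∫ x, STR2_g x * (⟪x, v⟫ - ⟪M.N x, v⟫ * ⟪x, M.N x⟫) ∂M.μ = 0) :
    ∑ w ∈ T, w = 0 := by
  set z := ∑ w ∈ T, w with hz
  have h1 := (hHALFM M T σ hB hT).1 STR2_g STR2_g_cont STR2_g_supp
    (fun x n => ⟪x, pt z 0⟫ - ⟪n, pt z 0⟫ * ⟪x, n⟫) (fun n => by fun_prop)
  rw [h (pt z 0)] at h1
  have h2 : ∀ w ∈ T, (∫ s in Ioi (0 : ℝ), ∫ t : ℝ, STR2_g (pt (s • w) t) *
      (⟪pt (s • w) t, pt z 0⟫ - ⟪pt (σ w • (Complex.I * w)) 0, pt z 0⟫ *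
        ⟪pt (s • w) t, pt (σ w • (Complex.I * w)) 0⟫))
      = ⟪w, z⟫ * ∫ s in Ioi (0 : ℝ), ∫ t, STR2_h (s, t) := fun w hw => by
    simp only [STR2_half (hT.unit w hw).1, integral_const_mul]
  rw [Finset.sum_congr rfl h2, ← Finset.sum_mul, ← sum_inner, ← hz] at h1
  have h3 := (mul_eq_zero.1 h1.symm).resolve_right STR2_C_pos.ne'
  exact inner_self_eq_zero.1 h3

theorem str2_of (hLIM : S_LIM) (hSTR0 : S_STR0) (hTUBE : S_TUBE) (hHALF : S_HALF) (hHALFM : S_HALFM) (hCOUNT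
    : S_COUNT) (hXLIM : S_XLIM) (hFV : S_FV) : S_STR2 := by
  intro U Mk θ H hsp
  obtain ⟨M, hO, hB, hC⟩ := hLIM U Mk H.mem
  have hoff : ∀ x, pr x ≠ 0 → x ∈ M.O := fun x hx => by
    rw [hO]
    by_contra hc
    have := H.bad x hc
    rw [hsp] at this
    exact hx this
  have hoff' : ∀ x : E, x ≠ ⟪x, e3⟫ • e3 → x ∈ M.O := fun x hx => by
    refine hoff x fun h0 => hx ?_
    have h1 : x = pt 0 0 + x 2 • e3 := by
      rw [pt_add_smul_e3, zero_add, ← h0, pt_pr]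
    have h2 : pt 0 0 = (0 : E) := by
      have := pt_pr (0 : E)
      simpa using this
    rw [inner_e3]
    rw [h2, zero_add] at h1
    exact h1
  obtain ⟨-, hT2, hT3, hT4⟩ := hTUBE U Mk M e3 H.mem hB hC norm_e3 hoff'
  obtain ⟨h01, V, hV, h02⟩ := hSTR0 U Mk θ H.mem H.zero
  have he : e3 ∈ V := by
    rw [← SetLike.mem_coe, hV, hsp]
    exact pr_e3
  have hN : ∀ x ∈ M.S, M.N x 2 = 0 ∧ ⟪x, M.N x⟫ = 0 := fun x hx => by
    refine ⟨?_, hT4 (fun q => ⟪q.1, q.2⟫) (by fun_prop) h01 x hx⟩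
    have := hT4 (fun q => ⟪e3, q.2⟫) (by fun_prop) (h02 e3 he) x hx
    rwa [e3_inner] at this
  obtain ⟨T, σ, hT⟩ := hHALF M hB hoff hN
  have hθ : θ = T.card / 2 := by
    have h1 := tendsto_nhds_unique (H.zero 1 one_pos) (hT3 0 1 one_pos)
    have h2 := (hHALFM M T σ hB hT).2 0 1 one_pos
    have h3 : pt 0 0 = (0 : E) := by
      have := pt_pr (0 : E)
      simpa using this
    rw [h3] at h2
    rw [h1, h2]
  have hcard : T.card = 3 ∨ T.card = 4 := by
    have h1 := H.one_lt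
    have h2 := H.le_two
    rw [hθ] at h1 h2
    have h3 : (2 : ℝ) < T.card := by linarith
    have h4 : (T.card : ℝ) ≤ 4 := by linarith
    have h5 : 2 < T.card := by exact_mod_cast h3
    have h6 : T.card ≤ 4 := by exact_mod_cast h4
    omega
  have hbal : ∑ w ∈ T, w = 0 := by
    refine STR2_balance hHALFM hB hT fun v => ?_
    have h1 := hT2 (fun q => STR2_g q.1 * (⟪q.1, v⟫ - ⟪q.2, v⟫ * ⟪q.1, q.2⟫)) (closedBall 0 1)
      ((STR2_g_cont.comp continuous_fst).mul (by fun_prop)) (isCompact_closedBall _ _)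
      (fun x n hx => by simp only [STR2_g_zero hx, zero_mul])
    simp only [STR2_fv hFV _ (H.mem _) v] at h1
    exact (tendsto_nhds_unique tendsto_const_nhds h1).symm
  obtain ⟨h4, ν₁, ν₂, -, -, hX⟩ := hCOUNT M T σ hT hcard hbal
  refine ⟨?_, ν₁, ν₂, hX.ang, hXLIM U Mk M ν₁ ν₂ H.mem hB hC hX⟩
  rw [hθ, h4]
  norm_num

end MW
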