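import Pool.Agent.P.MP_064970_gt.SG

/-!
ex, ey are in the spine. STR0, STR3A, STR3B. By the ultrafilter either e3 in W'_k for most k or e3
in W_k for most k (e3 is not in S_k). side: the convex sets {x in ball 0 (1/delta + 2), +-x 2 >
delta/2} miss S_k and contain +-e3. tilt: wedge_e3. dens: Theta_k(q,delta) -> 2 on the plane,
uniformly on the compact disc by Bd.Θ_lip and a finite net.
-/

open scoped Manifold ContDiff
open MeasureTheory Set Filter Topology Metric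
open scoped RealInnerProductSpace ENNReal ComplexConjugate Real

noncomputable section

namespace MW

universe u

/-- The half balls above and below the slab have the colour of the poles. -/
theorem STR3_side {M : Surf} (hM : M.Mem) {R δ σ : ℝ} (hR : 1 < R) (hδ : δ < 1) (hσ : σ ^ 2 = 1)
    (hs : ∀ x ∈ M.S ∩ ball 0 R, |x 2| ≤ δ) (he : σ • e3 ∈ M.W') {x : E} (hx : x ∈ ball (0 : E) R)
    (hx2 : δ < σ * x 2) : x ∈ M.W' := by
  have habs : |σ| = 1 := by
    rw [← sq_eq_sq₀ (abs_nonneg _) zero_le_one, sq_abs, hσ, one_pow]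
  have hc : Convex ℝ (ball (0 : E) R ∩ {x : E | δ < σ * x 2}) := by
    refine (convex_ball _ _).inter (convex_halfSpace_gt ⟨fun a b => ?_, fun c a => ?_⟩ δ)
    · rw [PiLp.add_apply, mul_add]
    · rw [PiLp.smul_apply, smul_eq_mul, smul_eq_mul]
      ring
  refine M.subset_W' hc.isPreconnected (hM.sub _) (disjoint_left.2 fun y hy hyS => ?_)
    (x := σ • e3) ⟨?_, ?_⟩ he ⟨hx, hx2⟩
  · have h1 := hs y ⟨hyS, hy.1⟩
    have h2 : σ * y 2 ≤ |y 2| := by
      have := le_abs_self (σ * y 2)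
      rwa [abs_mul, habs, one_mul] at this
    exact absurd hy.2 (not_lt.2 (h2.trans h1))
  · rw [mem_ball_zero_iff, norm_smul, norm_e3, Real.norm_eq_abs, habs, mul_one]
    exact hR
  · change δ < σ * (σ • e3) 2
    rw [PiLp.smul_apply, e3_two, smul_eq_mul, mul_one, ← sq, hσ]
    exact hδ

/-- The flat picture from its four ingredients. -/
theorem STR3_flat {M : Surf} (hM : M.Mem) {δ : ℝ} (hδ : 0 < δ) (hδ1 : δ ≤ 1)
    (hs : ∀ x ∈ M.S ∩ ball 0 (1 / δ + 2), |x 2| ≤ δ / 2) (he : e3 ∈ M.W') (he' : -e3 ∈ M.W')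
    (ht : ∫ x in ball 0 (1 / δ), ‖pr (M.N x)‖ ^ 2 ∂M.μ ≤ δ)
    (hd : ∀ q ∈ ball (0 : E) (1 / δ), q 2 = 0 → 2 - M.Θ q δ ≤ δ) : M.FlatW 0 1 δ e3 := by
  have h0 : 0 < 1 / δ := by positivity
  have hsub : ball (0 : E) (1 / δ) ⊆ ball 0 (1 / δ + 2) := ball_subset_ball (by linarith)
  refine ⟨norm_e3, fun x hx => ?_, fun x hx h => ?_, ?_, fun q hq h => ?_⟩
  · rw [sub_zero, inner_e3, mul_one]
    exact (hs x ⟨hx.1, hsub hx.2⟩).trans (by linarith)
  · rw [sub_zero, inner_e3, mul_one] at h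
    rcases lt_abs.1 h with h | h
    · exact STR3_side hM (σ := 1) (by linarith) (by linarith) (by norm_num) hs
        (by rwa [one_smul]) (hsub hx) (by linarith)
    · exact STR3_side hM (σ := -1) (by linarith) (by linarith) (by norm_num) hs
        (by rwa [neg_one_smul]) (hsub hx) (by linarith)
  · simp only [wedge_e3]
    rwa [one_pow, mul_one]
  · rw [sub_zero, inner_e3] at h
    rw [mul_one]
    exact hd q hq h

/-- The densities converge uniformly on bounded parts of the plane. -/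
theorem STR3_dens {U : Filter ℕ} {Mk : ℕ → Surf} (hM : ∀ k, (Mk k).Mem)
    (h : ∀ x : E, x 2 = 0 → x ∈ spine U Mk 2) {δ : ℝ} (hδ : 0 < δ) (R : ℝ) :
    ∀ᶠ k in U, ∀ q ∈ ball (0 : E) R, q 2 = 0 → 2 - (Mk k).Θ q δ ≤ δ := by
  have hK : IsCompact (closedBall (0 : E) R ∩ {x : E | x 2 = 0}) :=
    (isCompact_closedBall _ _).inter_right (isClosed_eq (by fun_prop) continuous_const)
  obtain ⟨t, ht, hc⟩ := hK.elim_nhds_subcover (fun q => ball q (δ ^ 2 / 800))
    fun q _ => ball_mem_nhds q (by positivity)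
  have h1 : ∀ᶠ k in U, ∀ q ∈ t, 2 - δ / 2 < (Mk k).Θ q δ :=
    (eventually_all_finset t).2 fun q hq =>
      (h q (ht q hq).2 δ hδ).eventually (lt_mem_nhds (by linarith))
  filter_upwards [h1] with k hk q hq hq2
  obtain ⟨p, hp, hqp⟩ := mem_iUnion₂.1 (hc ⟨ball_subset_closedBall hq, hq2⟩)
  have h2 := (abs_le.1 ((hM k).bd.Θ_lip p q hδ)).1
  have h3 : 400 * ‖q - p‖ / δ ≤ δ / 2 := by
    rw [mem_ball, dist_eq_norm] at hqp
    rw [div_le_iff₀ hδ]
    nlinarith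
  linarith [hk p hp]

theorem str3_of (hSTR0 : S_STR0) (hSTR3A : S_STR3A) (hSTR3B : S_STR3B) : S_STR3 := by
  intro U Mk θ h hpl
  obtain ⟨h1, V, hV, h2⟩ := hSTR0 U Mk θ h.mem h.zero
  have hmem : ∀ x : E, x 2 = 0 → x ∈ V := fun x hx => by
    rw [← SetLike.mem_coe, hV]
    exact hpl x hx
  obtain ⟨h3, h4⟩ := hSTR3A U Mk h.mem h1 (h2 ex (hmem _ rfl)) (h2 ey (hmem _ rfl))
  obtain ⟨rfl, h5⟩ := hSTR3B U Mk θ h.mem h.one_lt h.le_two h.sup (h.zero 1 one_pos) (h3 2)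
    fun δ hδ => h4 2 δ hδ
  refine ⟨rfl, ?_⟩
  have ht : ∀ δ : ℝ, 0 < δ → ∀ᶠ k in (U : Filter ℕ),
      ∫ x in ball 0 (1 / δ), ‖pr ((Mk k).N x)‖ ^ 2 ∂(Mk k).μ ≤ δ := fun δ hδ =>
    (h3 (1 / δ)).eventually (ge_mem_nhds hδ)
  rcases U.em fun k => e3 ∈ (Mk k).W with hW | hW
  · refine Or.inr fun δ hδ hδ1 => ?_
    filter_upwards [hW, h5, ht δ hδ, h4 (1 / δ + 2) (δ / 2) (by positivity),
      STR3_dens h.mem hpl hδ (1 / δ)] with k k1 k2 k3 k4 k5
    refine STR3_flat (h.mem k).swap hδ hδ1 k4 k1 (k2.1 k1) ?_ k5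
    simpa only [Surf.swap_N, Surf.swap_μ, pr_neg, norm_neg] using k3
  · refine Or.inl fun δ hδ hδ1 => ?_
    filter_upwards [hW, h5, ht δ hδ, h4 (1 / δ + 2) (δ / 2) (by positivity),
      STR3_dens h.mem hpl hδ (1 / δ)] with k k1 k2 k3 k4 k5
    have key : ∀ x : E, ‖x‖ = 1 → |x 2| = 1 → x ∉ (Mk k).W → x ∈ (Mk k).W' := fun x n1 n2 n3 => by
      rcases (Mk k).mem_cases ((h.mem k).sub univ (mem_univ x)) with h6 | h6 | h6
      · exact absurd h6 n3
      · exact h6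
      · have h0 : 0 < 1 / δ := by positivity
        have := k4 x ⟨h6, by rw [mem_ball_zero_iff, n1]; linarith⟩
        linarith
    exact STR3_flat (h.mem k) hδ hδ1 k4 (key _ norm_e3 (by simp) k1)
      (key _ (by simp) (by simp) fun h6 => k1 (k2.2 h6)) k3 k5

end MW
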