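import Pool.Agent.P.MP_064970_gt.SG

/-!
Theta(0,1) <= int_{B1} lam(|x'|^2) dmu <= int_{B1} lam(|x'|^2)|N3| + (4/pi) int |N'|^2 (1 - |N3| <=
|N'|^2). G = S cap Good tau cap B1; the rest has mass <= 200 tau^-2 int_{B2}|N'|^2 -> 0 (VIT). Area
formula: int_G lam |N3| = int lam(|y|^2) n(y) dy, n(y) = number of points of G over y. If theta < 2,
GOOD part one (points at distance <= 2 delta) and the sup bound give n <= 1, so theta <= 1. So theta
= 2, n <= 2 by part two. Then int_{n <= 1} lam -> 0, the projection of the bad part has measure ->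
0, a.e. line is regular: there is y in ball 0 (1/2) whose line meets S cap B1 in exactly two points,
transversally. Surf.par on the segment from pt y (-1/2) to pt y (1/2); the convex sets {x in ball 0
2, x 2 > delta} and {x 2 < -delta} miss S (Surf.subset_side).
-/

open scoped Manifold ContDiff
open MeasureTheory Set Filter Topology Metric
open scoped RealInnerProductSpace ENNReal ComplexConjugate Real

noncomputable section

namespace MW

universe u

open Classical in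
/-- The sum of `g` over the points of `S` on the vertical line over `y`. -/
def STR3B_F (M : Surf) (g : E → ℝ≥0∞) (y : ℂ) : ℝ≥0∞ :=
  ∑' t : ℝ, if pt y t ∈ M.S then g (pt y t) else 0

/-- The weight on the good part. -/
def STR3B_g (G : Set E) : E → ℝ≥0∞ :=
  G.indicator fun x => ENNReal.ofReal (lam (‖pr x‖ ^ 2))

theorem STR3B_g_meas {G : Set E} (hG : MeasurableSet G) : Measurable (STR3B_g G) := by
  refine Measurable.indicator ?_ hG
  have : Continuous fun x : E => lam (‖pr x‖ ^ 2) :=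
    contDiff_lam.continuous.comp (by fun_prop)
  exact this.measurable.ennreal_ofReal

theorem STR3B_F_eq (M : Surf) (G : Set E) (y : ℂ) :
    STR3B_F M (STR3B_g G) y
      = {t : ℝ | pt y t ∈ M.S ∧ pt y t ∈ G}.encard * ENNReal.ofReal (lam (‖y‖ ^ 2)) := by
  classical
  rw [← ENNReal.tsum_set_const, tsum_subtype {t : ℝ | pt y t ∈ M.S ∧ pt y t ∈ G}
    (fun _ => ENNReal.ofReal (lam (‖y‖ ^ 2)))]
  unfold STR3B_F STR3B_g
  refine tsum_congr fun t => ?_
  by_cases h1 : pt y t ∈ M.S <;> by_cases h2 : pt y t ∈ G <;> simp [h1, h2, indicator]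

theorem STR3B_F_le (M : Surf) (G : Set E) (y : ℂ) (n : ℕ)
    (h : {t : ℝ | pt y t ∈ M.S ∧ pt y t ∈ G}.encard ≤ n) :
    STR3B_F M (STR3B_g G) y ≤ n * ENNReal.ofReal (lam (‖y‖ ^ 2)) := by
  rw [STR3B_F_eq]
  gcongr
  exact_mod_cast h

theorem STR3B_F_one (M : Surf) (B : Set E) {y : ℂ} {t : ℝ} (h1 : pt y t ∈ M.S)
    (h2 : pt y t ∈ B) : 1 ≤ STR3B_F M (B.indicator 1) y := by
  classical
  unfold STR3B_F
  refine le_trans ?_ (ENNReal.le_tsum t)
  simp [h1, h2]

theorem STR3B_lam_int : ∫⁻ y : ℂ, ENNReal.ofReal (lam (‖y‖ ^ 2)) = 1 := by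
  have h1 := integral_lam 0 one_pos
  have h2 := integrable_lam 0 one_pos
  simp only [sub_zero, one_pow, div_one] at h1 h2
  rw [← ofReal_integral_eq_lintegral_ofReal h2 (Eventually.of_forall fun _ => lam_nonneg _), h1,
    ENNReal.ofReal_one]

theorem STR3B_lam_meas : Measurable fun y : ℂ => ENNReal.ofReal (lam (‖y‖ ^ 2)) := by
  have : Continuous fun y : ℂ => lam (‖y‖ ^ 2) := contDiff_lam.continuous.comp (by fun_prop)
  exact this.measurable.ennreal_ofReal

theorem STR3B_tilt_meas (M : Surf) : Measurable fun x => ‖pr (M.N x)‖ ^ 2 :=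
  ((measurable_pr.comp M.N_meas).norm).pow_const 2

theorem STR3B_tilt_int {M : Surf} (hM : M.Mem) :
    IntegrableOn (fun x => ‖pr (M.N x)‖ ^ 2) (ball 0 2) M.μ := by
  refine hM.bd.integrableOn isBounded_ball (STR3B_tilt_meas M) (C := 1) ?_ measurableSet_ball
  intro x hx
  have h1 := norm_pr_le (M.N x)
  rw [M.N_unit x hx.2] at h1
  rw [abs_of_nonneg (by positivity)]
  nlinarith [norm_nonneg (pr (M.N x))]

theorem STR3B_tilt_nonneg (M : Surf) : 0 ≤ ∫ x in ball 0 2, ‖pr (M.N x)‖ ^ 2 ∂M.μ :=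
  integral_nonneg fun _ => by positivity

/-- The pointwise bound for the weight. -/
theorem STR3B_point (M : Surf) (G : Set E) {x : E} (hx : x ∈ M.S) :
    ENNReal.ofReal (lam (‖x - 0‖ ^ 2 / 1 ^ 2))
      ≤ STR3B_g (G ∩ ball 0 1) x * ENNReal.ofReal |M.N x 2|
        + (ball (0 : E) 2).indicator (fun x => ENNReal.ofReal (4 / π * ‖pr (M.N x)‖ ^ 2)) x
        + (ball (0 : E) 1 \ G).indicator (fun _ => ENNReal.ofReal (4 / π)) x := by
  by_cases hb : x ∈ ball (0 : E) 1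
  · by_cases hG : x ∈ G
    · have hb2 : x ∈ ball (0 : E) 2 := ball_subset_ball (by norm_num) hb
      refine le_trans ?_ le_self_add
      unfold STR3B_g
      rw [indicator_of_mem (show x ∈ G ∩ ball 0 1 from ⟨hG, hb⟩), indicator_of_mem hb2,
        ← ENNReal.ofReal_mul (lam_nonneg _),
        ← ENNReal.ofReal_add (mul_nonneg (lam_nonneg _) (abs_nonneg _)) (by positivity)]
      refine ENNReal.ofReal_le_ofReal ?_
      have h1 : lam (‖x - 0‖ ^ 2 / 1 ^ 2) ≤ lam (‖pr x‖ ^ 2) := by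
        refine lam_antitone ?_
        simp only [sub_zero, one_pow, div_one]
        exact pow_le_pow_left₀ (norm_nonneg _) (norm_pr_le x) 2
      have h2 : lam (‖pr x‖ ^ 2) ≤ 4 / π := lam_le (by positivity)
      have h3 := norm_sq_eq (M.N x)
      rw [M.N_unit x hx] at h3
      have h4 := abs_two_le (M.N x)
      rw [M.N_unit x hx] at h4
      have h5 : 1 - |M.N x 2| ≤ ‖pr (M.N x)‖ ^ 2 := by
        have h6 : M.N x 2 ^ 2 = |M.N x 2| ^ 2 := (sq_abs _).symm
        nlinarith [abs_nonneg (M.N x 2)]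
      have h7 : lam (‖pr x‖ ^ 2) * (1 - |M.N x 2|) ≤ 4 / π * ‖pr (M.N x)‖ ^ 2 :=
        mul_le_mul h2 h5 (by linarith) (by positivity)
      nlinarith
    · refine le_trans ?_ le_add_self
      rw [indicator_of_mem (show x ∈ ball (0 : E) 1 \ G from ⟨hb, hG⟩)]
      exact ENNReal.ofReal_le_ofReal (lam_le (by positivity))
  · have h1 : (1 : ℝ) ≤ ‖x - 0‖ := by
      simpa [mem_ball, dist_eq_norm] using hb
    rw [dens_lam_zero one_pos h1]
    simp

/-- The density is bounded by the integral of the multiplicity of the good part. -/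
theorem STR3B_upper (hAREA0 : S_AREA0) {M : Surf} (hM : M.Mem) {G : Set E}
    (hG : MeasurableSet G) :
    ENNReal.ofReal (M.Θ 0 1) ≤ (∫⁻ y, STR3B_F M (STR3B_g (G ∩ ball 0 1)) y)
      + ENNReal.ofReal (4 / π * ∫ x in ball 0 2, ‖pr (M.N x)‖ ^ 2 ∂M.μ)
      + ENNReal.ofReal (4 / π * M.μ.real (ball 0 1 \ G)) := by
  have hg := STR3B_g_meas (hG.inter (measurableSet_ball (x := (0 : E)) (ε := 1)))
  have hA := ((hAREA0 M).1 _ hg).2
  have hN2 : Measurable fun x => ENNReal.ofReal |M.N x 2| := by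
    have : Measurable fun x => M.N x 2 :=
      (EuclideanSpace.proj (2 : Fin 3) : E →L[ℝ] ℝ).continuous.measurable.comp M.N_meas
    exact this.abs.ennreal_ofReal
  have hB : MeasurableSet (ball (0 : E) 1 \ G) := measurableSet_ball.diff hG
  have hfin : M.μ (ball 0 1 \ G) ≠ ⊤ := (hM.bd.lt_top (isBounded_ball.subset sdiff_subset)).ne
  have hΘ : ENNReal.ofReal (M.Θ 0 1) = ∫⁻ x, ENNReal.ofReal (lam (‖x - 0‖ ^ 2 / 1 ^ 2)) ∂M.μ := by
    rw [← ofReal_integral_eq_lintegral_ofReal (hM.bd.integrable_lam 0 one_pos)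
      (Eventually.of_forall fun _ => lam_nonneg _)]
    unfold Surf.Θ theta
    rw [one_pow, div_one]
  rw [hΘ]
  refine (lintegral_mono_ae (M.ae_mem.mono fun x hx => STR3B_point M G hx)).trans (le_of_eq ?_)
  rw [lintegral_add_right _ (measurable_const.indicator hB), lintegral_add_left (hg.fun_mul hN2), hA,
    lintegral_indicator hB, lintegral_indicator measurableSet_ball, setLIntegral_const,
    ← ofReal_integral_eq_lintegral_ofReal ((STR3B_tilt_int hM).const_mul _)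
      (Eventually.of_forall fun _ => by positivity), integral_const_mul,
    ENNReal.ofReal_mul (p := 4 / π) (q := M.μ.real (ball 0 1 \ G)) (by positivity),
    ofReal_measureReal hfin]
  rfl

/-- The bad part has a small shadow. -/
theorem STR3B_shadow (hAREA0 : S_AREA0) (M : Surf) {B : Set E} (hB : MeasurableSet B) :
    AEMeasurable (STR3B_F M (B.indicator 1)) ∧ ∫⁻ y, STR3B_F M (B.indicator 1) y ≤ M.μ B := by
  have hA := (hAREA0 M).1 (B.indicator 1) (measurable_one.indicator hB)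
  refine ⟨hA.1, ?_⟩
  have h2 : ∫⁻ y, STR3B_F M (B.indicator 1) y
      = ∫⁻ x, B.indicator 1 x * ENNReal.ofReal |M.N x 2| ∂M.μ := hA.2.symm
  rw [h2, ← lintegral_indicator_one hB]
  refine lintegral_mono_ae (M.ae_mem.mono fun x hx => ?_)
  have h4 := abs_two_le (M.N x)
  rw [M.N_unit x hx] at h4
  calc B.indicator 1 x * ENNReal.ofReal |M.N x 2| ≤ B.indicator 1 x * 1 := by
        gcongr
        exact ENNReal.ofReal_le_one.2 h4
    _ = B.indicator 1 x := mul_one _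

/-- Multiplicity one. -/
theorem STR3B_one (hAREA0 : S_AREA0) {M : Surf} (hM : M.Mem) {G : Set E} (hG : MeasurableSet G)
    (h : ∀ y : ℂ, {t : ℝ | pt y t ∈ M.S ∧ pt y t ∈ G ∩ ball 0 1}.encard ≤ 1) :
    M.Θ 0 1 ≤ 1 + 4 / π * ∫ x in ball 0 2, ‖pr (M.N x)‖ ^ 2 ∂M.μ
      + 4 / π * M.μ.real (ball 0 1 \ G) := by
  have h1 := STR3B_upper hAREA0 hM hG
  have h2 : ∫⁻ y, STR3B_F M (STR3B_g (G ∩ ball 0 1)) y ≤ ENNReal.ofReal 1 := by
    rw [ENNReal.ofReal_one, ← STR3B_lam_int]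
    refine lintegral_mono fun y => ?_
    simpa using STR3B_F_le M (G ∩ ball 0 1) y 1 (by exact_mod_cast h y)
  have hT := STR3B_tilt_nonneg M
  have h3 := h1.trans (add_le_add_left (add_le_add_left h2 _) _)
  rw [← ENNReal.ofReal_add (by norm_num) (by positivity),
    ← ENNReal.ofReal_add (by positivity) (by positivity)] at h3
  exact (ENNReal.ofReal_le_ofReal_iff (by positivity)).1 h3

/-- The gain when no line through the small disc is good. -/
def STR3B_c : ℝ := lam (1 / 4) * volume.real (ball (0 : ℂ) (1 / 2))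

theorem STR3B_c_pos : 0 < STR3B_c := by
  unfold STR3B_c
  refine mul_pos ?_ ?_
  · unfold lam
    have : max (1 - 1 / 4 : ℝ) 0 = 3 / 4 := by norm_num
    rw [this]
    positivity
  · exact ENNReal.toReal_pos (measure_ball_pos _ _ (by norm_num)).ne' measure_ball_lt_top.ne

/-- Multiplicity two. -/
theorem STR3B_two (hAREA0 : S_AREA0) {M : Surf} (hM : M.Mem) {G : Set E} (hG : MeasurableSet G)
    (h : ∀ y : ℂ, {t : ℝ | pt y t ∈ M.S ∧ pt y t ∈ G ∩ ball 0 1}.encard ≤ 2)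
    (hΘ : 2 + 4 / π * ∫ x in ball 0 2, ‖pr (M.N x)‖ ^ 2 ∂M.μ
      + 8 / π * M.μ.real (ball 0 1 \ G) < M.Θ 0 1 + STR3B_c) :
    ∃ y ∈ ball (0 : ℂ) (1 / 2), (∀ t : ℝ, pt y t ∈ M.S → M.N (pt y t) 2 ≠ 0) ∧
      {t : ℝ | pt y t ∈ M.S ∧ pt y t ∈ ball (0 : E) 1}.encard = 2 := by
  by_contra hcon
  push Not at hcon
  have hB : MeasurableSet (ball (0 : E) 1 \ G) := measurableSet_ball.diff hG
  have hfin : M.μ (ball 0 1 \ G) ≠ ⊤ := (hM.bd.lt_top (isBounded_ball.subset sdiff_subset)).ne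
  obtain ⟨hF', hsh⟩ := STR3B_shadow hAREA0 M hB
  have hpt : ∀ᵐ y : ℂ, STR3B_F M (STR3B_g (G ∩ ball 0 1)) y
      + (ball (0 : ℂ) (1 / 2)).indicator (fun _ => ENNReal.ofReal (lam (1 / 4))) y
      ≤ 2 * ENNReal.ofReal (lam (‖y‖ ^ 2))
        + ENNReal.ofReal (4 / π) * STR3B_F M ((ball (0 : E) 1 \ G).indicator 1) y := by
    filter_upwards [(hAREA0 M).2] with y hy
    have h2 : STR3B_F M (STR3B_g (G ∩ ball 0 1)) y ≤ 2 * ENNReal.ofReal (lam (‖y‖ ^ 2)) := by
      simpa using STR3B_F_le M (G ∩ ball 0 1) y 2 (by exact_mod_cast h y)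
    by_cases hyb : y ∈ ball (0 : ℂ) (1 / 2)
    · rw [indicator_of_mem hyb]
      by_cases hbad : ∃ t, pt y t ∈ M.S ∧ pt y t ∈ ball (0 : E) 1 \ G
      · obtain ⟨t, ht1, ht2⟩ := hbad
        refine add_le_add h2 ?_
        calc ENNReal.ofReal (lam (1 / 4)) ≤ ENNReal.ofReal (4 / π) * 1 := by
              rw [mul_one]
              exact ENNReal.ofReal_le_ofReal (lam_le (by norm_num))
          _ ≤ _ := by
              gcongr
              exact STR3B_F_one M _ ht1 ht2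
      · have heq : {t : ℝ | pt y t ∈ M.S ∧ pt y t ∈ ball (0 : E) 1}
            = {t : ℝ | pt y t ∈ M.S ∧ pt y t ∈ G ∩ ball 0 1} := by
          ext t
          constructor
          · rintro ⟨h1, h3⟩
            refine ⟨h1, ?_, h3⟩
            by_contra h4
            exact hbad ⟨t, h1, h3, h4⟩
          · rintro ⟨h1, _, h3⟩
            exact ⟨h1, h3⟩
        have hne := hcon y hyb hy
        rw [heq] at hne
        have hle : {t : ℝ | pt y t ∈ M.S ∧ pt y t ∈ G ∩ ball 0 1}.encard ≤ 1 := by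
          have := lt_of_le_of_ne (h y) hne
          exact Order.le_of_lt_add_one (by rw [one_add_one_eq_two]; exact this)
        have h1 : STR3B_F M (STR3B_g (G ∩ ball 0 1)) y ≤ ENNReal.ofReal (lam (‖y‖ ^ 2)) := by
          simpa using STR3B_F_le M (G ∩ ball 0 1) y 1 (by exact_mod_cast hle)
        have h3 : ENNReal.ofReal (lam (1 / 4)) ≤ ENNReal.ofReal (lam (‖y‖ ^ 2)) := by
          refine ENNReal.ofReal_le_ofReal (lam_antitone ?_)
          have : ‖y‖ < 1 / 2 := by simpa using hyb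
          nlinarith [norm_nonneg y]
        refine le_trans ?_ le_self_add
        rw [two_mul]
        exact add_le_add h1 h3
    · rw [indicator_of_notMem hyb, add_zero]
      exact h2.trans le_self_add
  have hint := lintegral_mono_ae hpt
  rw [lintegral_add_right _ (measurable_const.indicator measurableSet_ball),
    lintegral_add_left (STR3B_lam_meas.const_mul 2), lintegral_const_mul _ STR3B_lam_meas,
    STR3B_lam_int, lintegral_const_mul'' _ hF', lintegral_indicator measurableSet_ball,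
    setLIntegral_const, mul_one] at hint
  have hc : ENNReal.ofReal (lam (1 / 4)) * volume (ball (0 : ℂ) (1 / 2))
      = ENNReal.ofReal STR3B_c := by
    unfold STR3B_c
    rw [ENNReal.ofReal_mul (lam_nonneg _), ofReal_measureReal measure_ball_lt_top.ne]
  have hs : ENNReal.ofReal (4 / π) * ∫⁻ y, STR3B_F M ((ball (0 : E) 1 \ G).indicator 1) y
      ≤ ENNReal.ofReal (4 / π * M.μ.real (ball 0 1 \ G)) := by
    rw [ENNReal.ofReal_mul (by positivity), ofReal_measureReal hfin]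
    gcongr
  rw [hc] at hint
  have h1 := STR3B_upper hAREA0 hM hG
  have hT := STR3B_tilt_nonneg M
  have hm : 0 ≤ M.μ.real (ball 0 1 \ G) := measureReal_nonneg
  have h3 : ENNReal.ofReal (M.Θ 0 1) + ENNReal.ofReal STR3B_c
      ≤ ENNReal.ofReal 2 + ENNReal.ofReal (4 / π * M.μ.real (ball 0 1 \ G))
        + ENNReal.ofReal (4 / π * ∫ x in ball 0 2, ‖pr (M.N x)‖ ^ 2 ∂M.μ)
        + ENNReal.ofReal (4 / π * M.μ.real (ball 0 1 \ G)) := by
    calc _ ≤ ((∫⁻ y, STR3B_F M (STR3B_g (G ∩ ball 0 1)) y)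
          + ENNReal.ofReal (4 / π * ∫ x in ball 0 2, ‖pr (M.N x)‖ ^ 2 ∂M.μ)
          + ENNReal.ofReal (4 / π * M.μ.real (ball 0 1 \ G))) + ENNReal.ofReal STR3B_c := by
          gcongr
      _ = ((∫⁻ y, STR3B_F M (STR3B_g (G ∩ ball 0 1)) y) + ENNReal.ofReal STR3B_c)
          + ENNReal.ofReal (4 / π * ∫ x in ball 0 2, ‖pr (M.N x)‖ ^ 2 ∂M.μ)
          + ENNReal.ofReal (4 / π * M.μ.real (ball 0 1 \ G)) := by ring
      _ ≤ _ := by
          refine add_le_add_left (add_le_add_left (hint.trans ?_) _) _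
          rw [ENNReal.ofReal_ofNat]
          exact add_le_add_right hs _
  rw [← ENNReal.ofReal_add (M.Θ_nonneg _ _) STR3B_c_pos.le,
    ← ENNReal.ofReal_add (by norm_num) (by positivity),
    ← ENNReal.ofReal_add (by positivity) (by positivity),
    ← ENNReal.ofReal_add (by positivity) (by positivity)] at h3
  have h4 := (ENNReal.ofReal_le_ofReal_iff (by positivity)).1 h3
  have h5 : 8 / π * M.μ.real (ball 0 1 \ G)
      = 4 / π * M.μ.real (ball 0 1 \ G) + 4 / π * M.μ.real (ball 0 1 \ G) := by ring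
  linarith

/-- Points above the slab are on one side. -/
theorem STR3B_side {M : Surf} (hM : M.Mem) {σ : ℝ} (hσ : |σ| = 1)
    (hs : ∀ x ∈ M.S ∩ ball 0 2, |x 2| ≤ 1 / 4) {a b : E} (ha : a ∈ ball (0 : E) 2)
    (hb : b ∈ ball (0 : E) 2) (ha' : 1 / 4 < σ * a 2) (hb' : 1 / 4 < σ * b 2) :
    a ∈ M.W ↔ b ∈ M.W := by
  have hlin : IsLinearMap ℝ fun x : E => σ * x 2 :=
    ⟨fun x y => by simp [mul_add], fun c x => by simp; ring⟩
  have hK : Convex ℝ (ball (0 : E) 2 ∩ {x | 1 / 4 < σ * x 2}) :=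
    (convex_ball 0 2).inter (convex_halfSpace_gt hlin _)
  have hd : Disjoint (ball (0 : E) 2 ∩ {x | 1 / 4 < σ * x 2}) M.S := by
    rw [Set.disjoint_left]
    rintro x ⟨hx1, hx2⟩ hx
    have h1 := hs x ⟨hx, hx1⟩
    have h2 : σ * x 2 ≤ |σ * x 2| := le_abs_self _
    rw [abs_mul, hσ, one_mul] at h2
    have h3 : 1 / 4 < σ * x 2 := hx2
    linarith
  exact ⟨fun h => M.subset_W hK.isPreconnected (hM.sub _) hd ⟨ha, ha'⟩ h ⟨hb, hb'⟩,
    fun h => M.subset_W hK.isPreconnected (hM.sub _) hd ⟨hb, hb'⟩ h ⟨ha, ha'⟩⟩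

/-- Two transversal crossings: the same colour above and below. -/
theorem STR3B_colour {M : Surf} (hM : M.Mem) (hs : ∀ x ∈ M.S ∩ ball 0 2, |x 2| ≤ 1 / 4) {y : ℂ}
    (hy : y ∈ ball (0 : ℂ) (1 / 2)) (hreg : ∀ t : ℝ, pt y t ∈ M.S → M.N (pt y t) 2 ≠ 0)
    (h2 : {t : ℝ | pt y t ∈ M.S ∧ pt y t ∈ ball (0 : E) 1}.encard = 2) :
    e3 ∈ M.W ↔ -e3 ∈ M.W := by
  have hy' : ‖y‖ < 1 / 2 := by simpa using hy
  have hin : ∀ t : ℝ, |t| ≤ 1 / 2 → pt y t ∈ ball (0 : E) 1 := by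
    intro t ht
    rw [mem_ball_zero_iff]
    have h1 := norm_pt_sq y t
    have h3 : t ^ 2 ≤ (1 / 2) ^ 2 := by
      rw [← sq_abs t]
      exact pow_le_pow_left₀ (abs_nonneg _) ht 2
    nlinarith [norm_nonneg y, norm_nonneg (pt y t)]
  have hsub : ball (0 : E) 1 ⊆ ball 0 2 := ball_subset_ball (by norm_num)
  have hl : ∀ t : ℝ, pt y 0 + t • e3 = pt y t := fun t => by rw [pt_add_smul_e3, zero_add]
  have hout : ∀ t : ℝ, |t| = 1 / 2 → pt y 0 + t • e3 ∉ M.S := by
    intro t ht h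
    rw [hl] at h
    have := hs _ ⟨h, hsub (hin t ht.le)⟩
    rw [pt_two, ht] at this
    norm_num at this
  have hset : {t | t ∈ Icc (-(1 / 2) : ℝ) (1 / 2) ∧ pt y 0 + t • e3 ∈ M.S}
      = {t : ℝ | pt y t ∈ M.S ∧ pt y t ∈ ball (0 : E) 1} := by
    ext t
    simp only [mem_ofPred_eq, hl]
    constructor
    · rintro ⟨h1, h3⟩
      exact ⟨h3, hin t (abs_le.2 h1)⟩
    · rintro ⟨h1, h3⟩
      have := hs _ ⟨h1, hsub h3⟩
      rw [pt_two] at this
      exact ⟨abs_le.1 (by linarith), h1⟩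
  have hpar := M.basic_par (a := pt y 0) (v := e3) (q := 1 / 2) (hout _ (by norm_num)) 2 (-(1 / 2))
    (by norm_num) (fun t _ => hM.sub univ (mem_univ _))
    (fun t _ ht => by rw [hl] at ht ⊢; rw [e3_inner]; exact hreg t ht)
    (hout _ (by norm_num [abs_of_pos])) (by rw [hset, Set.ncard_def, h2]; rfl)
  have hpar' := hpar.2 even_two
  rw [hl, hl] at hpar'
  have e1 : pt y (1 / 2) ∈ M.W ↔ e3 ∈ M.W :=
    STR3B_side hM (σ := 1) abs_one hs (hsub (hin _ (by norm_num [abs_of_pos])))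
      (by simp) (by norm_num) (by norm_num)
  have e2 : pt y (-(1 / 2)) ∈ M.W ↔ -e3 ∈ M.W :=
    STR3B_side hM (σ := -1) (by simp) hs (hsub (hin _ (by norm_num [abs_of_pos])))
      (by simp) (by norm_num) (by norm_num)
  rw [← e1, ← e2, hpar']

theorem STR3B_diff {M : Surf} {δ : ℝ} (hs : ∀ x ∈ M.S ∩ ball 0 2, |x 2| ≤ δ) {y : ℂ} {s t : ℝ}
    (h1 : pt y s ∈ M.S) (h2 : pt y s ∈ ball (0 : E) 1) (h3 : pt y t ∈ M.S)
    (h4 : pt y t ∈ ball (0 : E) 1) : |s - t| ≤ 2 * δ := by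
  have hsub : ball (0 : E) 1 ⊆ ball 0 2 := ball_subset_ball (by norm_num)
  have a1 := hs _ ⟨h1, hsub h2⟩
  have a2 := hs _ ⟨h3, hsub h4⟩
  rw [pt_two] at a1 a2
  have := abs_sub s t
  linarith

theorem STR3B_encard_two {A : Set ℝ}
    (h : ∀ s t u, s < t → t < u → s ∈ A → t ∈ A → u ∈ A → False) : A.encard ≤ 2 := by
  by_contra hc
  push Not at hc
  have h3 : (3 : ℕ∞) ≤ A.encard := Order.add_one_le_of_lt hc
  obtain ⟨B, hBA, hB⟩ := Set.exists_subset_encard_eq h3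
  obtain ⟨a, b, c, hab, hac, hbc, rfl⟩ := Set.encard_eq_three.1 hB
  have ha : a ∈ A := hBA (by simp)
  have hb : b ∈ A := hBA (by simp)
  have hc' : c ∈ A := hBA (by simp)
  rcases lt_or_gt_of_ne hab with h1 | h1 <;> rcases lt_or_gt_of_ne hac with h2 | h2 <;>
    rcases lt_or_gt_of_ne hbc with h4 | h4
  · exact h a b c h1 h4 ha hb hc'
  · exact h a c b h2 h4 ha hc' hb
  · linarith
  · exact h c a b h2 h1 hc' ha hb
  · exact h b a c h1 h2 hb ha hc'
  · linarith
  · exact h b c a h4 h2 hb hc' ha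
  · exact h c b a h4 h1 hc' hb ha

theorem STR3B_vit (hVIT : S_VIT) {M : Surf} (hM : M.Mem) {τ : ℝ} (hτ : 0 < τ) :
    MeasurableSet {x | M.Good τ x} ∧ M.μ.real (ball 0 1 \ {x | M.Good τ x})
      ≤ 200 / τ ^ 2 * ∫ x in ball 0 2, ‖pr (M.N x)‖ ^ 2 ∂M.μ := by
  obtain ⟨h1, h2⟩ := hVIT M hM τ hτ
  have h3 := h2 1 one_pos
  rw [one_add_one_eq_two] at h3
  exact ⟨h1.measurableSet, h3⟩

theorem str3b_of (hVIT : S_VIT) (hGOOD : S_GOOD) (hAREA0 : S_AREA0) (hAREA : S_AREA) : S_STR3B := by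
  intro U Mk θ hmem h1 h2 hsup hΘ hT hslab
  have hθ : θ = 2 := by
    by_contra hne
    have hlt : θ < 2 := lt_of_le_of_ne h2 hne
    obtain ⟨τ, Λ, hτ, hΛ, hg⟩ := hGOOD.1 ((2 - θ) / 3) (by linarith)
    have hΛ0 : 0 < Λ := by linarith
    have hlim : Tendsto (fun k => 1 + (4 / π + 4 / π * (200 / τ ^ 2))
        * ∫ x in ball 0 2, ‖pr ((Mk k).N x)‖ ^ 2 ∂(Mk k).μ) U
        (𝓝 (1 + (4 / π + 4 / π * (200 / τ ^ 2)) * 0)) := (hT.const_mul _).const_add _
    rw [mul_zero, add_zero] at hlim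
    have hle : θ ≤ 1 := by
      refine le_of_tendsto_of_tendsto hΘ hlim ?_
      filter_upwards [hsup ((2 - θ) / 3) (by linarith), hslab (1 / (2 * Λ)) (by positivity)]
        with k hk1 hk2
      obtain ⟨hG, hv⟩ := STR3B_vit hVIT (hmem k) hτ
      have hone := STR3B_one hAREA0 (hmem k) hG (fun y => by
        rw [Set.encard_le_one_iff]
        rintro s t ⟨hs1, hs2, hs3⟩ ⟨ht1, _, ht3⟩
        by_contra hst
        have hd := STR3B_diff hk2 hs1 hs3 ht1 ht3
        have hd' : Λ * |s - t| ≤ 1 := by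
          calc Λ * |s - t| ≤ Λ * (2 * (1 / (2 * Λ))) := by gcongr
            _ = 1 := by field_simp
        have ha := hg (Mk k) (hmem k) y s t hst hs1 ht1 hs2 hd'
        have hb := hk1 (pt y s) (Λ * |s - t|) (mul_pos hΛ0 (abs_pos.2 (sub_ne_zero.2 hst)))
        linarith)
      have hm : 4 / π * (Mk k).μ.real (ball 0 1 \ {x | (Mk k).Good τ x})
          ≤ 4 / π * (200 / τ ^ 2 * ∫ x in ball 0 2, ‖pr ((Mk k).N x)‖ ^ 2 ∂(Mk k).μ) := by
        gcongr
      show (Mk k).Θ 0 1 ≤ _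
      linarith
    linarith
  refine ⟨hθ, ?_⟩
  subst hθ
  obtain ⟨τ, Λ, hτ, hΛ, hg⟩ := hGOOD.2
  have hΛ0 : 0 < Λ := by linarith
  have hlim : Tendsto (fun k => 2 + (4 / π + 8 / π * (200 / τ ^ 2))
      * ∫ x in ball 0 2, ‖pr ((Mk k).N x)‖ ^ 2 ∂(Mk k).μ) U
      (𝓝 (2 + (4 / π + 8 / π * (200 / τ ^ 2)) * 0)) := (hT.const_mul _).const_add _
  rw [mul_zero, add_zero] at hlim
  have hlim2 : Tendsto (fun k => (Mk k).Θ 0 1 + STR3B_c) U (𝓝 (2 + STR3B_c)) := hΘ.add_const _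
  have hev := hlim.eventually_lt hlim2 (by linarith [STR3B_c_pos])
  filter_upwards [hev, hslab (1 / (2 * Λ)) (by positivity), hslab (1 / 4) (by norm_num)]
    with k hk1 hk2 hk3
  obtain ⟨hG, hv⟩ := STR3B_vit hVIT (hmem k) hτ
  have hm : 8 / π * (Mk k).μ.real (ball 0 1 \ {x | (Mk k).Good τ x})
      ≤ 8 / π * (200 / τ ^ 2 * ∫ x in ball 0 2, ‖pr ((Mk k).N x)‖ ^ 2 ∂(Mk k).μ) := by
    gcongr
  obtain ⟨y, hy, hreg, hcard⟩ := STR3B_two hAREA0 (hmem k) hG (fun y => by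
    refine STR3B_encard_two ?_
    rintro s t u hst htu ⟨hs1, hs2, hs3⟩ ⟨ht1, ht2, _⟩ ⟨hu1, hu2, hu3⟩
    have hd := STR3B_diff hk2 hu1 hu3 hs1 hs3
    rw [abs_of_pos (by linarith)] at hd
    refine hg (Mk k) (hmem k) y s t u hst htu hs1 ht1 hu1 hs2 ht2 hu2 ?_
    calc Λ * (u - s) ≤ Λ * (2 * (1 / (2 * Λ))) := by gcongr
      _ = 1 := by field_simp) (by linarith)
  exact STR3B_colour (hmem k) hk3 hy hreg hcard

end MW
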