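import Pool.Agent.P.MP_064970_gt.SG

/-!
G6. Zoom at (p_k, rho_k). Theta_k(0,r) -> 2 for r >= 1 by MONO and Theta <= 2; for r < 1 by the
second clause (s = 1) and the third clause (r = 1, s = 4) of MONO. StrHyp with theta = 2 (COR), STR,
then zoom_flatW, zoom_swap_flatW, zoom_cross.
-/

open scoped Manifold ContDiff
open MeasureTheory Set Filter Topology Metric
open scoped RealInnerProductSpace ENNReal ComplexConjugate Real

noncomputable section

namespace MW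

universe u

theorem TRI_est (hMONO : S_MONO) {M : Surf} (h : M.Mem) {r : ℝ} (hr : 0 < r) :
    2 - (1 + 5120 / r ^ 4) * (2 - M.Θ 0 1) ≤ M.Θ 0 r := by
  have h1 := h.bd.Θ_le_two 0 one_pos
  have h2 : 0 ≤ 5120 / r ^ 4 * (2 - M.Θ 0 1) := mul_nonneg (by positivity) (by linarith)
  rcases le_total 1 r with h3 | h3
  · have h4 := (hMONO M 0 1 r one_pos h3 (h.sub _)).1
    linarith
  · have h4 := (hMONO M 0 1 2 one_pos (by norm_num) (h.sub _)).1
    have h5 := (hMONO M 0 r 2 hr (by linarith) (h.sub _)).2.1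
    have h6 := (hMONO M 0 1 4 one_pos (by norm_num) (h.sub _)).2.2.1 (by norm_num)
    have h7 := h.bd.Θ_le_two 0 (show (0 : ℝ) < 4 by norm_num)
    rw [show (4 : ℝ) / 2 = 2 by norm_num] at h6
    have h8 : ∫ x in ball 0 2, M.ψ 0 x ^ 2 ∂M.μ ≤ 2560 * (2 - M.Θ 0 1) := by linarith
    have h9 := mul_le_mul_of_nonneg_left h8 (show 0 ≤ 2 / r ^ 4 by positivity)
    have h10 : 2 / r ^ 4 * (2560 * (2 - M.Θ 0 1)) = 5120 / r ^ 4 * (2 - M.Θ 0 1) := by ring
    linarith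

theorem tri_of (hSTR : S_STR) (hCOR : S_COR) (hMONO : S_MONO) : S_TRI := by
  intro U Mk pk ρk hm hρ ht
  have hz : ∀ k, ((Mk k).zoom (pk k) (ρk k)).Mem := fun k => (hm k).zoom _ (hρ k)
  have h1 : Tendsto (fun k => ((Mk k).zoom (pk k) (ρk k)).Θ 0 1) U (𝓝 2) := by
    refine ht.congr fun k => ?_
    rw [Surf.zoom_Θ _ _ (hρ k), smul_zero, add_zero, mul_one]
  have h2 : StrHyp U (fun k => (Mk k).zoom (pk k) (ρk k)) 2 := by
    refine ⟨hz, one_lt_two, le_rfl, fun ε hε => Eventually.of_forall fun k p r hr =>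
      ((hz k).bd.Θ_le_two p hr).trans (by linarith), fun r hr => ?_, hCOR U _ hz⟩
    have h3 := ((h1.const_sub 2).const_mul (1 + 5120 / r ^ 4)).const_sub 2
    rw [sub_self, mul_zero, sub_zero] at h3
    exact tendsto_of_tendsto_of_tendsto_of_le_of_le h3 tendsto_const_nhds
      (fun k => TRI_est hMONO (hz k) hr) fun k => (hz k).bd.Θ_le_two 0 hr
  rcases (hSTR U _ 2 h2).2 with ⟨ν, h⟩ | ⟨ν, h⟩ | ⟨ν₁, ν₂, hν, h⟩
  · refine Or.inl ⟨ν, fun δ h0 h1 => (h δ h0 h1).mono fun k hk => ?_⟩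
    rwa [Surf.zoom_flatW _ _ (hρ k), smul_zero, add_zero, mul_one] at hk
  · refine Or.inr (Or.inl ⟨ν, fun δ h0 h1 => (h δ h0 h1).mono fun k hk => ?_⟩)
    rwa [Surf.zoom_swap_flatW _ _ (hρ k), smul_zero, add_zero, mul_one] at hk
  · refine Or.inr (Or.inr ⟨ν₁, ν₂, hν, fun δ h0 h1 => (h δ h0 h1).mono fun k hk => ?_⟩)
    rwa [Surf.zoom_cross _ _ (hρ k), smul_zero, add_zero, mul_one] at hk

end MW
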