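import Pool.Agent.P.MP_064970_gt.SG

/-!
Bd.tube bounds the mass of the delta-tube about the line in a ball by 100 delta R, for M and for
every Mk. Cut F with a continuous function chi_delta(dist to the line) (0 below delta/2, 1 above
delta), apply Conv.meas on K cap {dist >= delta/2} (compact in O), F is bounded on K x unit sphere,
N is unit a.e. Theta: F = lam(|x-p|^2/r^2). Last clause: F = g^2 times a bump, the limit integral is
0, Surf.eq_zero_of_ae.
-/

open scoped Manifold ContDiff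
open MeasureTheory Set Filter Topology Metric
open scoped RealInnerProductSpace ENNReal ComplexConjugate Real

noncomputable section

namespace MW

universe u

theorem TUBE_mass {M : Surf} (h : M.Bd) {e : E} (he : ‖e‖ = 1) {R δ : ℝ} (hδ : 0 < δ)
    (hδR : δ ≤ R) :
    M.μ {x | x ∈ ball (0 : E) R ∧ ‖x - ⟪x, e⟫ • e‖ ≤ δ} ≤ ENNReal.ofReal (100 * δ * R) := by
  have := h.tube 0 e he hδ hδR
  simpa only [sub_zero] using this

theorem TUBE_null {M : Surf} (h : M.Bd) {e : E} (he : ‖e‖ = 1) :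
    M.μ {x | x = ⟪x, e⟫ • e} = 0 := by
  have hsub : {x : E | x = ⟪x, e⟫ • e}
      ⊆ ⋃ n : ℕ, {x : E | x ∈ ball (0 : E) (n + 1) ∧ x = ⟪x, e⟫ • e} := by
    intro x hx
    obtain ⟨n, hn⟩ := exists_nat_gt ‖x‖
    refine mem_iUnion.2 ⟨n, ?_, hx⟩
    rw [mem_ball_zero_iff]
    linarith
  refine measure_mono_null hsub (measure_iUnion_null fun n => ?_)
  have hR : (0 : ℝ) < n + 1 := by positivity
  refine le_antisymm ?_ (zero_le)
  have hlim : Tendsto (fun δ : ℝ => ENNReal.ofReal (100 * δ * (n + 1))) (𝓝[>] 0) (𝓝 0) := by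
    have h1 : Tendsto (fun δ : ℝ => 100 * δ * (n + 1)) (𝓝 0) (𝓝 (100 * 0 * (n + 1))) :=
      Continuous.tendsto (by fun_prop) 0
    have h2 := (ENNReal.continuous_ofReal.tendsto _).comp (h1.mono_left (nhdsWithin_le_nhds
      (s := Ioi (0 : ℝ))))
    simpa [Function.comp_def] using h2
  refine ge_of_tendsto hlim ?_
  filter_upwards [Ioo_mem_nhdsGT hR] with δ hδ
  refine le_trans (measure_mono ?_) (TUBE_mass h he hδ.1 hδ.2.le)
  rintro x ⟨hx1, hx2⟩
  refine ⟨hx1, ?_⟩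
  rw [← hx2, sub_self, norm_zero]
  exact hδ.1.le

theorem TUBE_bound {F : E × E → ℝ} (hF : Continuous F) {K : Set E} (hK : IsCompact K) :
    ∃ C : ℝ, 0 ≤ C ∧ ∀ x ∈ K, ∀ n : E, ‖n‖ = 1 → |F (x, n)| ≤ C := by
  obtain ⟨C, hC⟩ := (hK.prod (isCompact_sphere (0 : E) 1)).exists_bound_of_continuousOn
    hF.continuousOn
  refine ⟨max C 0, le_max_right _ _, fun x hx n hn => ?_⟩
  have := hC (x, n) ⟨hx, by simpa using hn⟩
  rw [Real.norm_eq_abs] at this
  exact this.trans (le_max_left _ _)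

theorem TUBE_meas (M : Surf) {F : E × E → ℝ} (hF : Continuous F) :
    Measurable fun x => F (x, M.N x) :=
  hF.measurable.comp (measurable_id.prodMk M.N_meas)

theorem TUBE_int {M : Surf} (h : M.Bd) {F : E × E → ℝ} (hF : Continuous F) {K : Set E}
    (hK : IsCompact K) (h0 : ∀ x n, x ∉ K → F (x, n) = 0) :
    Integrable (fun x => F (x, M.N x)) M.μ := by
  obtain ⟨C, hC0, hC⟩ := TUBE_bound hF hK
  refine h.integrable hK.isBounded (TUBE_meas M hF) (C := C) (fun x hx => ?_)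
    fun x _ hx => h0 x _ hx
  by_cases hxK : x ∈ K
  · exact hC x hxK _ (M.N_unit x hx)
  · rw [h0 x _ hxK, abs_zero]
    exact hC0

/-- The cutoff function. -/
def TUBE_chi (e : E) (δ : ℝ) (x : E) : ℝ := min 1 (max 0 (2 * ‖x - ⟪x, e⟫ • e‖ / δ - 1))

theorem TUBE_chi_cont (e : E) (δ : ℝ) : Continuous (TUBE_chi e δ) := by
  unfold TUBE_chi
  fun_prop

theorem TUBE_chi_mem (e : E) (δ : ℝ) (x : E) : 0 ≤ TUBE_chi e δ x ∧ TUBE_chi e δ x ≤ 1 :=
  ⟨le_min zero_le_one (le_max_left _ _), min_le_left _ _⟩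

theorem TUBE_chi_one {e : E} {δ : ℝ} (hδ : 0 < δ) {x : E} (hx : δ < ‖x - ⟪x, e⟫ • e‖) :
    TUBE_chi e δ x = 1 := by
  refine min_eq_left (le_max_of_le_right ?_)
  rw [le_sub_iff_add_le, le_div_iff₀ hδ]
  linarith

theorem TUBE_chi_zero {e : E} {δ : ℝ} (hδ : 0 < δ) {x : E} (hx : ‖x - ⟪x, e⟫ • e‖ < δ / 2) :
    TUBE_chi e δ x = 0 := by
  have h1 : 2 * ‖x - ⟪x, e⟫ • e‖ / δ - 1 ≤ 0 := by
    rw [sub_nonpos, div_le_one hδ]
    linarith
  unfold TUBE_chi
  rw [max_eq_left h1, min_eq_right zero_le_one]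

theorem TUBE_err {M : Surf} (h : M.Bd) {e : E} (he : ‖e‖ = 1) {R δ C : ℝ} (hδ : 0 < δ)
    (hδR : δ ≤ R) {F : E × E → ℝ} (hF : Continuous F) {K : Set E} (hK : IsCompact K)
    (hKR : K ⊆ ball 0 R) (h0 : ∀ x n, x ∉ K → F (x, n) = 0) (hC0 : 0 ≤ C)
    (hC : ∀ x ∈ K, ∀ n : E, ‖n‖ = 1 → |F (x, n)| ≤ C) :
    |∫ x, F (x, M.N x) ∂M.μ - ∫ x, TUBE_chi e δ x * F (x, M.N x) ∂M.μ| ≤ C * (100 * δ * R) := by
  have hG : Continuous fun q : E × E => TUBE_chi e δ q.1 * F q :=
    ((TUBE_chi_cont e δ).comp continuous_fst).mul hF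
  have i1 := TUBE_int h hF hK h0
  have i2 : Integrable (fun x => TUBE_chi e δ x * F (x, M.N x)) M.μ :=
    TUBE_int h hG hK fun x n hx => by simp only [h0 x n hx, mul_zero]
  set T : Set E := {x | x ∈ ball (0 : E) R ∧ ‖x - ⟪x, e⟫ • e‖ ≤ δ} with hT
  have hTm : MeasurableSet T :=
    measurableSet_ball.inter (isClosed_le (f := fun x : E => ‖x - ⟪x, e⟫ • e‖) (by fun_prop)
      continuous_const).measurableSet
  have hTμ := TUBE_mass h he hδ hδR
  have hTfin : M.μ T < ⊤ := lt_of_le_of_lt hTμ ENNReal.ofReal_lt_top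
  have hR : 0 ≤ 100 * δ * R := by
    have : 0 < R := lt_of_lt_of_le hδ hδR
    positivity
  have hTr : M.μ.real T ≤ 100 * δ * R := ENNReal.toReal_le_of_le_ofReal hR hTμ
  rw [← integral_sub i1 i2, ← Real.norm_eq_abs]
  have hb : Integrable (T.indicator fun _ => C) M.μ :=
    (integrableOn_const hTfin.ne).integrable_indicator hTm
  refine (norm_integral_le_of_norm_le hb ?_).trans ?_
  · filter_upwards [M.ae_unit] with x hx
    by_cases hxK : x ∈ K
    · by_cases hxT : x ∈ T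
      · rw [indicator_of_mem hxT, Real.norm_eq_abs]
        have h1 := TUBE_chi_mem e δ x
        have h2 := hC x hxK _ hx
        have h3 : F (x, M.N x) - TUBE_chi e δ x * F (x, M.N x)
            = (1 - TUBE_chi e δ x) * F (x, M.N x) := by ring
        rw [h3, abs_mul, abs_of_nonneg (by linarith [h1.2])]
        nlinarith [abs_nonneg (F (x, M.N x)), h1.1, h1.2]
      · have h1 : δ < ‖x - ⟪x, e⟫ • e‖ := by
          by_contra hle
          exact hxT ⟨hKR hxK, not_lt.1 hle⟩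
        rw [TUBE_chi_one hδ h1, one_mul, sub_self, norm_zero]
        exact indicator_nonneg (fun _ _ => hC0) x
    · rw [h0 x _ hxK, mul_zero, sub_self, norm_zero]
      exact indicator_nonneg (fun _ _ => hC0) x
  · rw [integral_indicator hTm, setIntegral_const, smul_eq_mul, mul_comm]
    exact mul_le_mul_of_nonneg_left hTr hC0

theorem TUBE_conv {U : Filter ℕ} {Mk : ℕ → Surf} {M : Surf} {e : E} (hk : ∀ k, (Mk k).Mem)
    (hM : M.Bd) (hc : Conv U Mk M) (he : ‖e‖ = 1) (hO : ∀ x, x ≠ ⟪x, e⟫ • e → x ∈ M.O)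
    (F : E × E → ℝ) (K : Set E) (hF : Continuous F) (hK : IsCompact K)
    (h0 : ∀ x n, x ∉ K → F (x, n) = 0) :
    Tendsto (fun k => ∫ x, F (x, (Mk k).N x) ∂(Mk k).μ) U (𝓝 (∫ x, F (x, M.N x) ∂M.μ)) := by
  obtain ⟨C, hC0, hC⟩ := TUBE_bound hF hK
  obtain ⟨R, hR, hKR⟩ := hK.isBounded.subset_ball_lt 0 (0 : E)
  rw [Metric.tendsto_nhds]
  intro ε hε
  have hA : 0 < 100 * C * R + 1 := by positivity
  set δ : ℝ := min R (ε / 3 / (100 * C * R + 1)) with hδdef
  have hδ : 0 < δ := lt_min hR (by positivity)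
  have hδR : δ ≤ R := min_le_left _ _
  have hδε : C * (100 * δ * R) ≤ ε / 3 := by
    have h1 : δ ≤ ε / 3 / (100 * C * R + 1) := min_le_right _ _
    rw [le_div_iff₀ hA] at h1
    nlinarith
  have hG : Continuous fun q : E × E => TUBE_chi e δ q.1 * F q :=
    ((TUBE_chi_cont e δ).comp continuous_fst).mul hF
  have hK' : IsCompact (K ∩ {x : E | δ / 2 ≤ ‖x - ⟪x, e⟫ • e‖}) :=
    hK.inter_right (isClosed_le continuous_const (by fun_prop))
  have hK'O : K ∩ {x : E | δ / 2 ≤ ‖x - ⟪x, e⟫ • e‖} ⊆ M.O := by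
    rintro x ⟨-, hx⟩
    refine hO x fun hxe => ?_
    have hx' : δ / 2 ≤ ‖x - ⟪x, e⟫ • e‖ := hx
    rw [← hxe, sub_self, norm_zero] at hx'
    linarith
  have hlim := hc.meas _ _ hG hK' hK'O fun x n hx => by
    by_cases hxK : x ∈ K
    · have h1 : ‖x - ⟪x, e⟫ • e‖ < δ / 2 := by
        by_contra hle
        exact hx ⟨hxK, not_lt.1 hle⟩
      simp only [TUBE_chi_zero hδ h1, zero_mul]
    · simp only [h0 x n hxK, mul_zero]
  rw [Metric.tendsto_nhds] at hlim
  filter_upwards [hlim (ε / 3) (by positivity)] with k hk'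
  have e1 := TUBE_err (hk k).bd he hδ hδR hF hK hKR h0 hC0 hC
  have e2 := TUBE_err hM he hδ hδR hF hK hKR h0 hC0 hC
  rw [Real.dist_eq] at hk' ⊢
  rw [abs_lt] at hk' ⊢
  rw [abs_le] at e1 e2
  constructor <;> linarith [e1.1, e1.2, e2.1, e2.2, hk'.1, hk'.2]

theorem TUBE_le {M : Surf} (h : M.Bd) {g : E × E → ℝ} (hg : Continuous g) {R : ℝ} (hR : 0 < R) :
    ∫ x, max (R - ‖x‖) 0 * g (x, M.N x) ^ 2 ∂M.μ ≤ R * ∫ x in ball 0 R, g (x, M.N x) ^ 2 ∂M.μ := by
  have hg2 : Continuous fun q : E × E => g q ^ 2 := hg.pow 2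
  have hF : Continuous fun q : E × E => max (R - ‖q.1‖) 0 * g q ^ 2 := by fun_prop
  obtain ⟨C, -, hC⟩ := TUBE_bound hg2 (isCompact_closedBall (0 : E) R)
  have i1 : IntegrableOn (fun x => g (x, M.N x) ^ 2) (ball 0 R) M.μ :=
    h.integrableOn isBounded_ball (TUBE_meas M hg2) (C := C)
      (fun x hx => hC x (ball_subset_closedBall hx.1) _ (M.N_unit x hx.2)) measurableSet_ball
  have i2 : Integrable (fun x => max (R - ‖x‖) 0 * g (x, M.N x) ^ 2) M.μ :=
    TUBE_int h hF (isCompact_closedBall (0 : E) R) fun x n hx => by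
      rw [mem_closedBall_zero_iff, not_le] at hx
      simp only [max_eq_right (show R - ‖x‖ ≤ 0 by linarith), zero_mul]
  rw [← setIntegral_eq_integral_of_forall_compl_eq_zero (s := ball (0 : E) R) fun x hx => by
    rw [mem_ball_zero_iff, not_lt] at hx
    simp only [max_eq_right (show R - ‖x‖ ≤ 0 by linarith), zero_mul], ← integral_const_mul]
  refine setIntegral_mono_on i2.integrableOn (i1.const_mul R) measurableSet_ball fun x _ => ?_
  refine mul_le_mul_of_nonneg_right (max_le ?_ hR.le) (sq_nonneg _)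
  linarith [norm_nonneg x]

theorem tube_of : S_TUBE := by
  intro U Mk M e hk hM hc he hO
  have hconv := TUBE_conv hk hM hc he hO
  refine ⟨TUBE_null hM he, hconv, fun p r hr => ?_, fun g hg hlim x hx => ?_⟩
  · have h1 := hconv (fun q => lam (‖q.1 - p‖ ^ 2 / r ^ 2)) (closedBall p r)
      ((dens_continuous_lam p r).comp continuous_fst) (isCompact_closedBall p r) fun x n hx => by
        rw [mem_closedBall, dist_eq_norm, not_le] at hx
        exact dens_lam_zero hr hx.le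
    exact h1.div_const (r ^ 2)
  · set R : ℝ := ‖x‖ + 1 with hRdef
    have hR : 0 < R := by positivity
    have hF : Continuous fun q : E × E => max (R - ‖q.1‖) 0 * g q ^ 2 := by fun_prop
    have h0 : ∀ (y n : E), y ∉ closedBall (0 : E) R → max (R - ‖y‖) 0 * g (y, n) ^ 2 = 0 := by
      intro y n hy
      rw [mem_closedBall_zero_iff, not_le] at hy
      rw [max_eq_right (show R - ‖y‖ ≤ 0 by linarith), zero_mul]
    have h1 := hconv _ _ hF (isCompact_closedBall (0 : E) R) h0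
    have h2 : Tendsto (fun k => R * ∫ y in ball 0 R, g (y, (Mk k).N y) ^ 2 ∂(Mk k).μ) U
        (𝓝 (R * 0)) := (hlim R).const_mul R
    have h3 : ∫ y, max (R - ‖y‖) 0 * g (y, M.N y) ^ 2 ∂M.μ ≤ R * 0 :=
      le_of_tendsto_of_tendsto' h1 h2 fun k => TUBE_le (hk k).bd hg hR
    have hnn : ∀ y : E, 0 ≤ max (R - ‖y‖) 0 * g (y, M.N y) ^ 2 := fun y =>
      mul_nonneg (le_max_right _ _) (sq_nonneg _)
    have h4 : ∫ y, max (R - ‖y‖) 0 * g (y, M.N y) ^ 2 ∂M.μ = 0 :=
      le_antisymm (by simpa using h3) (integral_nonneg hnn)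
    have h5 := (integral_eq_zero_iff_of_nonneg hnn
      (TUBE_int hM hF (isCompact_closedBall (0 : E) R) h0)).1 h4
    refine M.eq_zero_of_ae (g := fun y => g (y, M.N y)) (U := ball 0 R) isOpen_ball ?_ ?_ x
      ⟨hx, ?_⟩
    · exact hg.comp_continuousOn (continuousOn_id.prodMk (M.N_cont.mono inter_subset_left))
    · filter_upwards [h5] with y hy hyR
      rw [mem_ball_zero_iff] at hyR
      have h6 : max (R - ‖y‖) 0 * g (y, M.N y) ^ 2 = 0 := hy
      have h7 : 0 < max (R - ‖y‖) 0 := lt_max_of_lt_left (by linarith)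
      exact pow_eq_zero_iff two_ne_zero |>.1 ((mul_eq_zero.1 h6).resolve_left h7.ne')
    · rw [mem_ball_zero_iff]
      linarith

end MW
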