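import Pool.Agent.P.MP_064970_gt.SG

/-!
G7. Step 1: for delta in (0,1] there is e(delta) > 0 such that members that are not Scherk have
FlatW or swap.FlatW whenever 2 - Theta <= e(delta) (contradiction, TRI, the cross case gives Scherk
by PROPI with gamma = |<nu1,nu2>|). Step 2: with delta0 = 1/100 and Z = {(p,rho) : 2 - Theta p rho
<= e(delta0)}, the type is the same on Z: FlatW.not_swap for (p,rho), (p,rho'), rho <= rho' <= 2 rho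
(MONO keeps Z), induction along doubling, and for (p,rho), (q,rho) with rho >= 10 |p - q|.
eps(delta) = min (e (min delta delta0)) (e delta0) for delta > 0; FlatW.mono.
-/

open scoped Manifold ContDiff
open MeasureTheory Set Filter Topology Metric
open scoped RealInnerProductSpace ENNReal ComplexConjugate Real

noncomputable section

namespace MW

universe u

/-- Step 1: away from Scherk surfaces only the two flat pictures occur. -/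
theorem TYPE_step1 (hTRI : S_TRI) (hPROPI : S_PROPI) (δ : ℝ) :
    ∃ e : ℝ, 0 < e ∧ (0 < δ → δ ≤ 1 → ∀ M : Surf, M.Mem → ¬ IsScherk M.S → ∀ (p : E) (ρ : ℝ),
      0 < ρ → 2 - M.Θ p ρ ≤ e → (∃ ν, M.FlatW p ρ δ ν) ∨ ∃ ν, M.swap.FlatW p ρ δ ν) := by
  by_contra hcon
  have key : ∀ k : ℕ, ∃ (M : Surf) (p : E) (ρ : ℝ), (0 < δ ∧ δ ≤ 1) ∧ M.Mem ∧ ¬ IsScherk M.S ∧
      0 < ρ ∧ 2 - M.Θ p ρ ≤ 1 / ((k : ℝ) + 1) ∧ (¬ ∃ ν, M.FlatW p ρ δ ν) ∧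
      ¬ ∃ ν, M.swap.FlatW p ρ δ ν := by
    intro k
    by_contra hk
    refine hcon ⟨1 / ((k : ℝ) + 1), Nat.one_div_pos_of_nat, fun h0 h1 M hM hS p ρ hρ he => ?_⟩
    by_contra hn
    exact hk ⟨M, p, ρ, ⟨h0, h1⟩, hM, hS, hρ, he, fun h => hn (Or.inl h), fun h => hn (Or.inr h)⟩
  choose Mk pk ρk hδ hM hS hρ he hA hB using key
  have hU : ((hyperfilter ℕ : Ultrafilter ℕ) : Filter ℕ) ≤ atTop := by
    rw [← Nat.cofinite_eq_atTop]
    exact hyperfilter_le_cofinite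
  have h0 : Tendsto (fun k : ℕ => 1 / ((k : ℝ) + 1)) (hyperfilter ℕ : Ultrafilter ℕ) (𝓝 0) :=
    tendsto_one_div_add_atTop_nhds_zero_nat.mono_left hU
  have hT : Tendsto (fun k => (Mk k).Θ (pk k) (ρk k)) (hyperfilter ℕ : Ultrafilter ℕ) (𝓝 2) := by
    have h1 : Tendsto (fun k : ℕ => 2 - 1 / ((k : ℝ) + 1)) (hyperfilter ℕ : Ultrafilter ℕ)
        (𝓝 2) := by
      simpa using (tendsto_const_nhds (x := (2 : ℝ))).sub h0
    refine tendsto_of_tendsto_of_tendsto_of_le_of_le h1 tendsto_const_nhds (fun k => ?_)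
      fun k => (hM k).bd.Θ_le_two _ (hρ k)
    have := he k
    simp only
    linarith
  rcases hTRI (hyperfilter ℕ) Mk pk ρk hM hρ hT with ⟨ν, h⟩ | ⟨ν, h⟩ | ⟨ν₁, ν₂, hγ, h⟩
  · obtain ⟨k, hk⟩ := (h δ (hδ 0).1 (hδ 0).2).exists
    exact hA k ⟨ν, hk⟩
  · obtain ⟨k, hk⟩ := (h δ (hδ 0).1 (hδ 0).2).exists
    exact hB k ⟨ν, hk⟩
  · obtain ⟨δ', ε', h1, h2, h3, h4⟩ := hPROPI _ hγ
    obtain ⟨k, hk, hk'⟩ := ((h δ' h1 h2).and (h0.eventually (ge_mem_nhds h3))).exists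
    exact hS k (h4 (Mk k) (hM k) (pk k) (ρk k) ν₁ ν₂ (hρ k) le_rfl ((he k).trans hk') hk)

theorem TYPE_up (hMONO : S_MONO) {M : Surf} (hM : M.Mem) {p : E} {ρ ρ' e : ℝ} (hρ : 0 < ρ)
    (h : ρ ≤ ρ') (he : 2 - M.Θ p ρ ≤ e) : 2 - M.Θ p ρ' ≤ e := by
  have := (hMONO M p ρ ρ' hρ h (by rw [hM.univ]; exact subset_univ _)).1
  linarith

/-- The type propagates to larger scales. -/
theorem TYPE_scale (hMONO : S_MONO) {M : Surf} (hM : M.Mem) {e : ℝ}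
    (hd : ∀ (p : E) (ρ : ℝ), 0 < ρ → 2 - M.Θ p ρ ≤ e →
      (∃ ν, M.FlatW p ρ (1 / 100) ν) ∨ ∃ ν, M.swap.FlatW p ρ (1 / 100) ν)
    {p : E} {ρ : ℝ} (hρ : 0 < ρ) (he : 2 - M.Θ p ρ ≤ e) (hA : ∃ ν, M.FlatW p ρ (1 / 100) ν)
    {ρ' : ℝ} (h : ρ ≤ ρ') : ∃ ν, M.FlatW p ρ' (1 / 100) ν := by
  have step : ∀ r r' : ℝ, ρ ≤ r → r ≤ r' → r' ≤ 2 * r → (∃ ν, M.FlatW p r (1 / 100) ν) →
      ∃ ν, M.FlatW p r' (1 / 100) ν := by
    rintro r r' h1 h2 h3 ⟨ν, hν⟩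
    have hr : 0 < r := hρ.trans_le h1
    have hr' : 0 < r' := hr.trans_le h2
    refine (hd p r' hr' (TYPE_up hMONO hM hρ (h1.trans h2) he)).resolve_right ?_
    rintro ⟨ν', hν'⟩
    refine hν.not_swap hν' hr hr' (by linarith) h3 ?_ (by norm_num) le_rfl
    rw [sub_self, norm_zero]
    positivity
  have ind : ∀ (n : ℕ) (r : ℝ), ρ ≤ r → r ≤ 2 ^ n * ρ → ∃ ν, M.FlatW p r (1 / 100) ν := by
    intro n
    induction n with
    | zero =>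
      intro r h1 h2
      rw [pow_zero, one_mul] at h2
      rw [le_antisymm h2 h1]
      exact hA
    | succ n ih =>
      intro r h1 h2
      by_cases h3 : r ≤ 2 ^ n * ρ
      · exact ih r h1 h3
      · have h4 : ρ ≤ 2 ^ n * ρ := le_mul_of_one_le_left hρ.le (one_le_pow₀ one_le_two)
        refine step (2 ^ n * ρ) r h4 (le_of_not_ge h3) ?_ (ih _ h4 le_rfl)
        rw [pow_succ] at h2
        linarith
  obtain ⟨n, hn⟩ := pow_unbounded_of_one_lt (ρ' / ρ) (one_lt_two : (1 : ℝ) < 2)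
  exact ind n ρ' h ((div_le_iff₀ hρ).1 hn.le)

/-- Step 2: the two types do not both occur. -/
theorem TYPE_excl (hMONO : S_MONO) {M : Surf} (hM : M.Mem) {e : ℝ}
    (hd : ∀ (p : E) (ρ : ℝ), 0 < ρ → 2 - M.Θ p ρ ≤ e →
      (∃ ν, M.FlatW p ρ (1 / 100) ν) ∨ ∃ ν, M.swap.FlatW p ρ (1 / 100) ν)
    {p q : E} {ρ σ : ℝ} (hρ : 0 < ρ) (hσ : 0 < σ) (he : 2 - M.Θ p ρ ≤ e) (he' : 2 - M.Θ q σ ≤ e)
    (hA : ∃ ν, M.FlatW p ρ (1 / 100) ν) (hB : ∃ ν, M.swap.FlatW q σ (1 / 100) ν) : False := by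
  have hn := norm_nonneg (p - q)
  have hR : 0 < ρ + σ + 10 * ‖p - q‖ := by positivity
  obtain ⟨ν, hν⟩ := TYPE_scale hMONO hM hd hρ he hA (ρ' := ρ + σ + 10 * ‖p - q‖) (by linarith)
  obtain ⟨ν', hν'⟩ := TYPE_scale hMONO hM.swap (e := e)
    (fun p ρ h1 h2 => by rw [Surf.swap_swap]; exact (hd p ρ h1 h2).symm) hσ he' hB
    (ρ' := ρ + σ + 10 * ‖p - q‖) (by linarith)
  exact hν.not_swap hν' hR hR (by linarith) (by linarith) (by linarith) (by norm_num) le_rfl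

theorem type_of (hTRI : S_TRI) (hPROPI : S_PROPI) (hMONO : S_MONO) : S_TYPE := by
  choose e he hE using TYPE_step1 hTRI hPROPI
  refine ⟨fun δ => min (e (min δ (1 / 100))) (e (1 / 100)), fun δ _ => lt_min (he _) (he _),
    fun M hM hS => ?_⟩
  have hd := hE (1 / 100) (by norm_num) (by norm_num) M hM hS
  have hd' : ∀ δ : ℝ, 0 < δ → ∀ (p : E) (ρ : ℝ), 0 < ρ →
      2 - M.Θ p ρ ≤ min (e (min δ (1 / 100))) (e (1 / 100)) →
      ((∃ ν, M.FlatW p ρ δ ν) ∧ ∃ ν, M.FlatW p ρ (1 / 100) ν) ∨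
        ((∃ ν, M.swap.FlatW p ρ δ ν) ∧ ∃ ν, M.swap.FlatW p ρ (1 / 100) ν) := by
    intro δ hδ p ρ hρ h
    have h0 : 0 < min δ (1 / 100) := lt_min hδ (by norm_num)
    rcases hE _ h0 ((min_le_right _ _).trans (by norm_num)) M hM hS p ρ hρ
      (h.trans (min_le_left _ _)) with ⟨ν, hν⟩ | ⟨ν, hν⟩
    · exact Or.inl ⟨⟨ν, hν.mono hMONO hM hρ h0 (min_le_left _ _)⟩,
        ν, hν.mono hMONO hM hρ h0 (min_le_right _ _)⟩
    · exact Or.inr ⟨⟨ν, hν.mono hMONO hM.swap hρ h0 (min_le_left _ _)⟩,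
        ν, hν.mono hMONO hM.swap hρ h0 (min_le_right _ _)⟩
  by_cases hc : ∃ (p : E) (ρ : ℝ), 0 < ρ ∧ 2 - M.Θ p ρ ≤ e (1 / 100) ∧
      ∃ ν, M.FlatW p ρ (1 / 100) ν
  · obtain ⟨p₀, ρ₀, h1, h2, h3⟩ := hc
    refine Or.inl fun δ hδ _ p ρ hρ h => ?_
    rcases hd' δ hδ p ρ hρ h with h4 | h4
    · exact h4.1
    · exact (TYPE_excl hMONO hM hd h1 hρ h2 (h.trans (min_le_right _ _)) h3 h4.2).elim
  · refine Or.inr fun δ hδ _ p ρ hρ h => ?_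
    rcases hd' δ hδ p ρ hρ h with h4 | h4
    · exact (hc ⟨p, ρ, hρ, h.trans (min_le_right _ _), h4.2⟩).elim
    · exact h4.1

end MW
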