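import Pool.Agent.P.MP_064970_gt.SG

/-!
G2. x -> int_{ball x s} f dmu is lower semicontinuous for f >= 0 (Fatou or monotone exhaustion by
smaller balls), so Good is closed. Vitali.exists_disjoint_subfamily_covering_enlargement_closedBall
for the balls B(x, s_x), x not good in ball 0 R; Bd.closedBall gives mu(closedBall x (5 s)) <= 50 pi
s^2 <= 50 pi tau^-2 int_{ball x s}; the open balls are disjoint and lie in ball 0 (R+1).
-/

open scoped Manifold ContDiff
open MeasureTheory Set Filter Topology Metric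
open scoped RealInnerProductSpace ENNReal ComplexConjugate Real

noncomputable section

namespace MW

universe u

/-- The tilt measure. -/
def VIT_nu (M : Surf) : Measure E :=
  M.μ.withDensity fun z => ENNReal.ofReal (‖pr (M.N z)‖ ^ 2)

theorem VIT_ofReal {M : Surf} (h : M.Bd) (x : E) (s : ℝ) :
    ENNReal.ofReal (∫ z in ball x s, ‖pr (M.N z)‖ ^ 2 ∂M.μ) = VIT_nu M (ball x s) := by
  rw [VIT_nu, withDensity_apply _ measurableSet_ball]
  refine ofReal_integral_eq_lintegral_ofReal ?_ (ae_of_all _ fun z => sq_nonneg _)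
  refine h.integrableOn isBounded_ball ((measurable_pr.comp M.N_meas).norm.pow_const 2) (C := 1)
    (fun z hz => ?_) measurableSet_ball
  rw [abs_of_nonneg (sq_nonneg _)]
  exact pow_le_one₀ (norm_nonneg _) ((norm_pr_le _).trans (M.N_unit z hz.2).le)

theorem VIT_le_iff {M : Surf} (h : M.Bd) (x : E) (s : ℝ) {c : ℝ} (hc : 0 ≤ c) :
    ∫ z in ball x s, ‖pr (M.N z)‖ ^ 2 ∂M.μ ≤ c ↔ VIT_nu M (ball x s) ≤ ENNReal.ofReal c := by
  rw [← VIT_ofReal h, ENNReal.ofReal_le_ofReal_iff hc]

theorem VIT_closed (ν : Measure E) (s : ℝ) (c : ℝ≥0∞) : IsClosed {x | ν (ball x s) ≤ c} := by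
  refine isClosed_of_closure_subset fun x hx => ?_
  have hm : Monotone fun n : ℕ => ball x (s - 1 / ((n : ℝ) + 1)) := fun m n hmn =>
    ball_subset_ball (sub_le_sub_left (Nat.one_div_le_one_div hmn) s)
  have hU : ball x s ⊆ ⋃ n : ℕ, ball x (s - 1 / ((n : ℝ) + 1)) := fun z hz => by
    obtain ⟨n, hn⟩ := exists_nat_one_div_lt (sub_pos.2 (mem_ball.1 hz))
    exact mem_iUnion.2 ⟨n, mem_ball.2 (by linarith)⟩
  refine (measure_mono hU).trans ?_
  rw [hm.measure_iUnion]
  refine iSup_le fun n => ?_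
  obtain ⟨y, hy, hd⟩ := Metric.mem_closure_iff.1 hx _ (Nat.one_div_pos_of_nat (n := n))
  exact (measure_mono (ball_subset_ball' (by linarith))).trans hy

theorem vit_of : S_VIT := by
  intro M hM τ hτ
  have h := hM.bd
  refine ⟨?_, fun R _ => ?_⟩
  · have e : {x | M.Good τ x} = ⋂ s : ℝ, ⋂ _ : 0 < s, ⋂ _ : s ≤ 1,
        {x | VIT_nu M (ball x s) ≤ ENNReal.ofReal (τ ^ 2 * s ^ 2)} := by
      ext x
      simp only [Surf.Good, mem_ofPred_eq, mem_iInter]
      exact forall₃_congr fun s _ _ => VIT_le_iff h x s (by positivity)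
    rw [e]
    exact isClosed_iInter fun s => isClosed_iInter fun _ => isClosed_iInter fun _ =>
      VIT_closed _ _ _
  set T : Set E := ball 0 R \ {x | M.Good τ x}
  have hr : ∀ x : E, ∃ s : ℝ, x ∈ T →
      0 < s ∧ s ≤ 1 ∧ ENNReal.ofReal (τ ^ 2 * s ^ 2) ≤ VIT_nu M (ball x s) := fun x => by
    by_cases hx : x ∈ T
    · have h1 : ¬ M.Good τ x := hx.2
      simp only [Surf.Good, not_forall] at h1
      obtain ⟨s, h0, h1, h2⟩ := h1
      rw [VIT_le_iff h x s (by positivity), not_le] at h2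
      exact ⟨s, fun _ => ⟨h0, h1, h2.le⟩⟩
    · exact ⟨0, fun h1 => absurd h1 hx⟩
  choose r hr using hr
  obtain ⟨u, hu, hd, hc⟩ := Vitali.exists_disjoint_subfamily_covering_enlargement_ball T
    (fun a => a) r 1 (fun a ha => (hr a ha).2.1) 5 (by norm_num)
  have hcnt : u.Countable := hd.countable_of_isOpen (fun a _ => isOpen_ball)
    fun a ha => nonempty_ball.2 (hr a (hu ha)).1
  have hK : 0 ≤ 200 / τ ^ 2 := by positivity
  refine ENNReal.toReal_le_of_le_ofReal
    (mul_nonneg hK (integral_nonneg fun z => sq_nonneg _)) ?_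
  rw [ENNReal.ofReal_mul hK, VIT_ofReal h]
  calc M.μ T ≤ M.μ (⋃ b ∈ u, ball b (5 * r b)) := by
        refine measure_mono fun a ha => ?_
        obtain ⟨b, hb, hs⟩ := hc a ha
        exact mem_biUnion hb (hs (mem_ball_self (hr a ha).1))
    _ ≤ ∑' b : u, M.μ (ball (b : E) (5 * r b)) := measure_biUnion_le _ hcnt _
    _ ≤ ∑' b : u, ENNReal.ofReal (200 / τ ^ 2) * VIT_nu M (ball (b : E) (r b)) := by
        refine ENNReal.tsum_le_tsum fun b => ?_
        obtain ⟨h0, -, h2⟩ := hr b (hu b.2)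
        refine (h _ _ (by positivity)).trans (le_trans ?_ (mul_le_mul_right h2 _))
        rw [← ENNReal.ofReal_mul hK]
        refine ENNReal.ofReal_le_ofReal ?_
        rw [show 200 / τ ^ 2 * (τ ^ 2 * r b ^ 2) = 200 * r b ^ 2 by field_simp]
        nlinarith [Real.pi_le_four, sq_nonneg (r b)]
    _ = ENNReal.ofReal (200 / τ ^ 2) * VIT_nu M (⋃ b ∈ u, ball b (r b)) := by
        rw [ENNReal.tsum_mul_left, measure_biUnion hcnt hd fun _ _ => measurableSet_ball]
    _ ≤ _ := by
        refine mul_le_mul_right (measure_mono (iUnion₂_subset fun b hb => ?_)) _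
        have h1 := mem_ball.1 (hu hb).1
        exact ball_subset_ball' (by linarith [(hr b (hu hb)).2.1])

end MW
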