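import Pool.Agent.P.MP_064970_gt.SG

/-!
The axis {f1 = f2 = 0} is a line, null by Bd.tube. Off it S is the disjoint union of P_i minus axis,
with N = +-nu_i. Area formula with A e3 = nu_i on G = P_i minus axis (one point per line; prA A '' G
is the plane minus a line, which is null): the contribution is r^-2 int lam((|y - y0|^2 + f^2)/r^2)
dy = (1 - f^2/r^2)_+^4 (lam(s + a) = (1-a)^3 lam(s/(1-a)) for a < 1, then integral_lam with radius r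
sqrt(1-a)).
-/

open scoped Manifold ContDiff
open MeasureTheory Set Filter Topology Metric
open scoped RealInnerProductSpace ENNReal ComplexConjugate Real

noncomputable section

namespace MW

universe u

theorem XDEN_inner_pt (A : E ≃ₗᵢ[ℝ] E) (y : ℂ) (t : ℝ) : ⟪A (pt y t), A e3⟫ = t := by
  rw [A.inner_map_map, inner_e3]
  rfl

theorem XDEN_inner_zero (A : E ≃ₗᵢ[ℝ] E) (y : ℂ) (v : E) : ⟪A (pt y 0), v⟫ = ⟪prA A v, y⟫ := by
  have h : ⟪A (pt y 0), v⟫ = ⟪A (pt y 0), A (A.symm v)⟫ := by rw [A.apply_symm_apply]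
  rw [h, A.inner_map_map, real_inner_comm, inner_pt, mul_zero, add_zero]
  rfl

theorem XDEN_ne (A : E ≃ₗᵢ[ℝ] E) {v : E} (hv : ‖v‖ = 1) (h : |⟪A e3, v⟫| < 1) : prA A v ≠ 0 := by
  intro h0
  have h1 := apply_pt_prA A v
  rw [h0] at h1
  have h2 : ‖v‖ ^ 2 = ⟪v, A e3⟫ ^ 2 := by
    conv_lhs => rw [← h1]
    rw [A.norm_map, norm_pt_sq]
    simp
  rw [real_inner_comm] at h
  have h3 := (sq_lt_one_iff_abs_lt_one _).2 h
  rw [← h2, hv] at h3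
  norm_num at h3

theorem XDEN_line_null {w : ℂ} (hw : w ≠ 0) : volume {y : ℂ | ⟪w, y⟫ = 0} = 0 := by
  have h : {y : ℂ | ⟪w, y⟫ = 0} = ((ℝ ∙ w)ᗮ : Submodule ℝ ℂ) := by
    ext y
    simp only [SetLike.mem_coe, Submodule.mem_orthogonal_singleton_iff_inner_right]
    rfl
  rw [h]
  refine Measure.addHaar_submodule _ _ fun ht => hw ?_
  have : w ∈ ((ℝ ∙ w)ᗮ : Submodule ℝ ℂ) := by rw [ht]; trivial
  rw [Submodule.mem_orthogonal_singleton_iff_inner_right] at this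
  exact inner_self_eq_zero.1 this

theorem XDEN_axis {M : Surf} (hM : M.Bd) {ν ν' : E} (hν : ‖ν‖ = 1) (hν' : ‖ν'‖ = 1)
    (h : |⟪ν, ν'⟫| < 1) : M.μ {x | ⟪x, ν⟫ = 0 ∧ ⟪x, ν'⟫ = 0} = 0 := by
  obtain ⟨A, rfl⟩ := exists_iso_e3 hν
  have hw := XDEN_ne A hν' h
  set w := prA A ν' with hwdef
  have hwn : 0 < ‖w‖ := norm_pos_iff.2 hw
  let u : ℂ := (‖w‖⁻¹ : ℝ) • (Complex.I * w)
  have hu : ‖u‖ = 1 := by
    simp only [u, norm_smul, norm_mul, Complex.norm_I, one_mul, norm_inv, norm_norm]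
    exact inv_mul_cancel₀ hwn.ne'
  let e : E := A (pt u 0)
  have he : ‖e‖ = 1 := by rw [A.norm_map, norm_pt_zero, hu]
  have key : ∀ x : E, ⟪x, A e3⟫ = 0 → ⟪x, ν'⟫ = 0 → x = ⟪x, e⟫ • e := by
    intro x h1 h2
    have h3 := apply_pt_prA A x
    rw [h1] at h3
    set y := prA A x with hy
    have h4 : ⟪w, y⟫ = 0 := by rw [hwdef, ← XDEN_inner_zero, h3, h2]
    have h5 : ⟪x, e⟫ = ⟪y, u⟫ := by rw [real_inner_comm, XDEN_inner_zero]
    have h6 : y = ⟪y, u⟫ • u := by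
      have hn : ‖w‖ ^ 2 = w.re ^ 2 + w.im ^ 2 := by
        rw [Complex.sq_norm, Complex.normSq_apply]; ring
      have h7 : y.re * w.re + y.im * w.im = 0 := by
        simpa [Complex.inner] using h4
      have h8 : ⟪y, u⟫ = ‖w‖⁻¹ * (w.re * y.im - w.im * y.re) := by
        simp only [u, real_inner_smul_right]
        simp [Complex.inner]
        left
        ring
      rw [h8]
      have h9 := hwn.ne'
      apply Complex.ext
      · simp [u]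
        field_simp
        rw [hn]
        linear_combination w.re * h7
      · simp [u]
        field_simp
        rw [hn]
        linear_combination w.im * h7
    rw [h5, ← h3]
    conv_lhs => rw [h6]
    rw [← map_smul, ← pt_smul, mul_zero]
  have hsub : {x : E | ⟪x, A e3⟫ = 0 ∧ ⟪x, ν'⟫ = 0} ⊆
      ⋃ n : ℕ, {x : E | x ∈ ball (0 : E) ((n : ℝ) + 1) ∧ x = ⟪x, e⟫ • e} := by
    intro x hx
    obtain ⟨n, hn⟩ := exists_nat_gt ‖x‖
    exact mem_iUnion.2 ⟨n, by simpa using hn.trans (lt_add_one _), key x hx.1 hx.2⟩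
  refine measure_mono_null hsub (measure_iUnion_null fun n => ?_)
  have hR : (1 : ℝ) ≤ (n : ℝ) + 1 := by linarith [(Nat.cast_nonneg n : (0 : ℝ) ≤ n)]
  refine le_antisymm (ge_of_tendsto (f := fun δ : ℝ => ENNReal.ofReal (100 * δ * ((n : ℝ) + 1)))
    (x := 𝓝[>] 0) ?_ ?_) zero_le
  · have : Tendsto (fun δ : ℝ => 100 * δ * ((n : ℝ) + 1)) (𝓝 0) (𝓝 (100 * 0 * ((n : ℝ) + 1))) :=
      Continuous.tendsto (by fun_prop) 0
    have h2 := ENNReal.tendsto_ofReal (this.mono_left (nhdsWithin_le_nhds (s := Ioi 0)))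
    simpa using h2
  · filter_upwards [Ioc_mem_nhdsGT (zero_lt_one' ℝ)] with δ hδ
    refine le_trans (measure_mono ?_) (hM.tube 0 e he hδ.1 (hδ.2.trans hR))
    intro x hx
    refine ⟨hx.1, ?_⟩
    rw [sub_zero, ← hx.2, sub_self, norm_zero]
    exact hδ.1.le

theorem XDEN_plane (hAREA : S_AREA) (M : Surf) (A : E ≃ₗᵢ[ℝ] E) {ν' : E} (hw : prA A ν' ≠ 0)
    (hG : ∀ x, ⟪x, A e3⟫ = 0 → ⟪x, ν'⟫ ≠ 0 → x ∈ M.S ∧ |⟪M.N x, A e3⟫| = 1)
    {F : E → ℝ≥0∞} (hF : Measurable F) :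
    ∫⁻ x in {x | ⟪x, A e3⟫ = 0 ∧ ⟪x, ν'⟫ ≠ 0}, F x ∂M.μ = ∫⁻ y : ℂ, F (A (pt y 0)) := by
  classical
  set G : Set E := {x | ⟪x, A e3⟫ = 0 ∧ ⟪x, ν'⟫ ≠ 0} with hGdef
  have hGm : MeasurableSet G :=
    (measurableSet_eq_fun (by fun_prop) measurable_const).inter
      (measurableSet_eq_fun (by fun_prop) measurable_const).compl
  have h := ((hAREA M A).1 (G.indicator F) (hF.indicator hGm)).2
  rw [← lintegral_indicator hGm]
  refine Eq.trans (lintegral_congr fun x => ?_) (h.trans (lintegral_congr_ae ?_))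
  · by_cases hx : x ∈ G
    · rw [(hG x hx.1 hx.2).2]; simp
    · simp [indicator_of_notMem hx]
  · have h0 : ∀ᵐ y : ℂ, ⟪prA A ν', y⟫ ≠ 0 := by
      rw [ae_iff]
      simpa only [not_not] using XDEN_line_null hw
    filter_upwards [h0] with y hy
    have hy' : A (pt y 0) ∈ G := ⟨XDEN_inner_pt A y 0, by rwa [XDEN_inner_zero]⟩
    rw [tsum_eq_single 0]
    · rw [if_pos (hG _ hy'.1 hy'.2).1, indicator_of_mem hy']
    · intro t ht
      have : A (pt y t) ∉ G := fun hh => ht ((XDEN_inner_pt A y t).symm.trans hh.1)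
      simp [indicator_of_notMem this]

theorem XDEN_lam (y₀ : ℂ) (f : ℝ) {r : ℝ} (hr : 0 < r) :
    ∫⁻ y : ℂ, ENNReal.ofReal (lam ((‖y - y₀‖ ^ 2 + f ^ 2) / r ^ 2))
      = ENNReal.ofReal (r ^ 2 * max (1 - f ^ 2 / r ^ 2) 0 ^ 4) := by
  have hr2 : 0 < r ^ 2 := by positivity
  rcases le_or_gt (r ^ 2) (f ^ 2) with h | h
  · have h1 : 1 ≤ f ^ 2 / r ^ 2 := (one_le_div hr2).2 h
    rw [max_eq_right (by linarith)]
    have h2 : ∀ y : ℂ, lam ((‖y - y₀‖ ^ 2 + f ^ 2) / r ^ 2) = 0 := fun y =>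
      lam_eq_zero ((one_le_div hr2).2 (by nlinarith [sq_nonneg ‖y - y₀‖]))
    simp [h2]
  · have h1 : 0 < 1 - f ^ 2 / r ^ 2 := by
      have := (div_lt_one hr2).2 h
      linarith
    have h3 : 0 < r ^ 2 - f ^ 2 := by linarith
    set ρ := √(r ^ 2 - f ^ 2) with hρ
    have hρ0 : 0 < ρ := Real.sqrt_pos.2 h3
    have hρ2 : ρ ^ 2 = r ^ 2 - f ^ 2 := Real.sq_sqrt h3.le
    have h2 : ∀ y : ℂ, lam ((‖y - y₀‖ ^ 2 + f ^ 2) / r ^ 2)
        = (1 - f ^ 2 / r ^ 2) ^ 3 * lam (‖y - y₀‖ ^ 2 / ρ ^ 2) := fun y => by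
      have h4 : 1 - (‖y - y₀‖ ^ 2 + f ^ 2) / r ^ 2
          = (1 - f ^ 2 / r ^ 2) * (1 - ‖y - y₀‖ ^ 2 / ρ ^ 2) := by
        rw [hρ2]
        field_simp
        ring
      unfold lam
      rw [h4, show (0 : ℝ) = (1 - f ^ 2 / r ^ 2) * 0 by ring, ← mul_max_of_nonneg _ _ h1.le]
      simp only [mul_zero]
      ring
    simp only [h2]
    rw [← ofReal_integral_eq_lintegral_ofReal ((integrable_lam y₀ hρ0).const_mul _)
      (ae_of_all _ fun y => mul_nonneg (pow_nonneg h1.le 3) (lam_nonneg _)),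
      integral_const_mul, integral_lam y₀ hρ0, max_eq_left h1.le, hρ2]
    congr 1
    field_simp

theorem XDEN_part (hAREA : S_AREA) (M : Surf) {ν ν' : E} (hν : ‖ν‖ = 1) (hν' : ‖ν'‖ = 1)
    (h : |⟪ν, ν'⟫| < 1) (hG : ∀ x, ⟪x, ν⟫ = 0 → ⟪x, ν'⟫ ≠ 0 → x ∈ M.S ∧ (M.N x = ν ∨ M.N x = -ν))
    (q : E) {r : ℝ} (hr : 0 < r) :
    ∫⁻ x in {x | ⟪x, ν⟫ = 0 ∧ ⟪x, ν'⟫ ≠ 0}, ENNReal.ofReal (lam (‖x - q‖ ^ 2 / r ^ 2)) ∂M.μ
      = ENNReal.ofReal (r ^ 2 * max (1 - ⟪q, ν⟫ ^ 2 / r ^ 2) 0 ^ 4) := by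
  obtain ⟨A, rfl⟩ := exists_iso_e3 hν
  rw [XDEN_plane hAREA M A (XDEN_ne A hν' h) (fun x h1 h2 => ⟨(hG x h1 h2).1, ?_⟩)
    (dens_continuous_lam q r).measurable.ennreal_ofReal, ← XDEN_lam (prA A q) _ hr]
  · refine lintegral_congr fun y => ?_
    congr 3
    conv_lhs => rw [← apply_pt_prA A q]
    rw [← map_sub, A.norm_map, ← pt_sub, norm_pt_sq]
    ring
  · rcases (hG x h1 h2).2 with h3 | h3
    · rw [h3, real_inner_self_eq_norm_sq, hν]; simp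
    · rw [h3, inner_neg_left, real_inner_self_eq_norm_sq, hν]; simp

theorem xden_of (hAREA : S_AREA) : S_XDEN := by
  intro M ν₁ ν₂ hM hC q r hr
  have hang : |⟪ν₂, ν₁⟫| < 1 := by rw [real_inner_comm]; exact hC.ang
  have h1 := XDEN_part hAREA M hC.unit₁ hC.unit₂ hC.ang (fun x h1 h2 =>
    ⟨(hC.mem x (Or.inr h2)).2 (Or.inl h1),
      (lt_or_gt_of_ne h2).symm.imp (hC.pos₁ x h1) (hC.neg₁ x h1)⟩) q hr
  have h2 := XDEN_part hAREA M hC.unit₂ hC.unit₁ hang (fun x h1 h2 =>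
    ⟨(hC.mem x (Or.inl h2)).2 (Or.inr h1),
      (lt_or_gt_of_ne h2).symm.imp (hC.pos₂ x h1) (hC.neg₂ x h1)⟩) q hr
  set G₁ : Set E := {x | ⟪x, ν₁⟫ = 0 ∧ ⟪x, ν₂⟫ ≠ 0} with hG₁
  set G₂ : Set E := {x | ⟪x, ν₂⟫ = 0 ∧ ⟪x, ν₁⟫ ≠ 0} with hG₂
  have hm : MeasurableSet G₂ :=
    (measurableSet_eq_fun (by fun_prop) measurable_const).inter
      (measurableSet_eq_fun (by fun_prop) measurable_const).compl
  have hd : Disjoint G₁ G₂ := Set.disjoint_left.2 fun x hx hx' => hx.2 hx'.1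
  have hae : ∀ᵐ x ∂M.μ, x ∈ G₁ ∪ G₂ := by
    have ha : ∀ᵐ x ∂M.μ, x ∈ M.S := M.conc
    have hb : ∀ᵐ x ∂M.μ, ¬ (⟪x, ν₁⟫ = 0 ∧ ⟪x, ν₂⟫ = 0) := by
      rw [ae_iff]
      simpa only [not_not] using XDEN_axis hM hC.unit₁ hC.unit₂ hC.ang
    filter_upwards [ha, hb] with x hx hx'
    rcases (hC.mem x (not_and_or.1 hx')).1 hx with h | h
    · exact Or.inl ⟨h, fun h' => hx' ⟨h, h'⟩⟩
    · exact Or.inr ⟨h, fun h' => hx' ⟨h', h⟩⟩
  have h3 : ∫⁻ x, ENNReal.ofReal (lam (‖x - q‖ ^ 2 / r ^ 2)) ∂M.μ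
      = ∫⁻ x in G₁ ∪ G₂, ENNReal.ofReal (lam (‖x - q‖ ^ 2 / r ^ 2)) ∂M.μ := by
    rw [Measure.restrict_eq_self_of_ae_mem hae]
  rw [lintegral_union hm hd, h1, h2, ← ENNReal.ofReal_add (by positivity) (by positivity)] at h3
  unfold Surf.Θ theta
  rw [integral_eq_lintegral_of_nonneg_ae (ae_of_all _ fun x => lam_nonneg _)
    (dens_continuous_lam q r).aestronglyMeasurable, h3, ENNReal.toReal_ofReal (by positivity)]
  field_simp

end MW
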