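import Pool.Agent.P.MP_064970_gt.SG

/-!
Take a unit e orthogonal to nu1, nu2; x <> <x,e> e implies f1 x <> 0 or f2 x <> 0. pos/neg: first
clause of CONV on the compact set closedBall 0 (1/delta) cap {delta <= f2}. pat: Conv.inW, inW' on
the compact sets {|f_i| >= delta, sign}. near and dens: TUBE gives Theta_k(q,r) -> Theta(q,r)
pointwise, Bd.Θ_lip and Θ_lip_r make it uniform on the compact set closedBall x [delta, 1/delta]
(finite net); XDEN: |f1 q| > r/2 gives Theta <= 1 + (3/4)^4 < 3/2, and Theta = 2 on the axis.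
-/

open scoped Manifold ContDiff
open MeasureTheory Set Filter Topology Metric
open scoped RealInnerProductSpace ENNReal ComplexConjugate Real

noncomputable section

namespace MW

universe u

/-- Two independent unit vectors have a common unit normal, which spans the intersection of the two
planes. -/
theorem XLIM_axis {a b : E} (ha : ‖a‖ = 1) (hb : ‖b‖ = 1) (hab : |⟪a, b⟫| < 1) :
    ∃ e : E, ‖e‖ = 1 ∧ ∀ x : E, ⟪x, a⟫ = 0 → ⟪x, b⟫ = 0 → x = ⟪x, e⟫ • e := by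
  set w : E := WithLp.toLp 2 ![a 1 * b 2 - a 2 * b 1, a 2 * b 0 - a 0 * b 2, a 0 * b 1 - a 1 * b 0]
    with hw
  have w0 : w 0 = a 1 * b 2 - a 2 * b 1 := rfl
  have w1 : w 1 = a 2 * b 0 - a 0 * b 2 := rfl
  have w2 : w 2 = a 0 * b 1 - a 1 * b 0 := rfl
  have haa : ⟪a, a⟫ = 1 := by rw [real_inner_self_eq_norm_sq, ha]; norm_num
  have hbb : ⟪b, b⟫ = 1 := by rw [real_inner_self_eq_norm_sq, hb]; norm_num
  have hww : ‖w‖ ^ 2 = 1 - ⟪a, b⟫ ^ 2 := by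
    rw [← real_inner_self_eq_norm_sq, inner_eq w w, w0, w1, w2, inner_eq a b]
    rw [inner_eq] at haa hbb
    linear_combination (b 0 * b 0 + b 1 * b 1 + b 2 * b 2) * haa + hbb
  have hpos : 0 < ‖w‖ ^ 2 := by
    rw [hww]
    have h1 : ⟪a, b⟫ ^ 2 < 1 := by
      rw [← sq_abs]
      nlinarith [abs_nonneg ⟪a, b⟫]
    linarith
  have hn : 0 < ‖w‖ := by
    rcases (norm_nonneg w).lt_or_eq with h | h
    · exact h
    · rw [← h] at hpos
      norm_num at hpos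
  refine ⟨‖w‖⁻¹ • w, ?_, fun x hxa hxb => ?_⟩
  · rw [norm_smul, norm_inv, norm_norm, inv_mul_cancel₀ hn.ne']
  · have key : (‖w‖ ^ 2) • x = ⟪x, w⟫ • w := by
      rw [← real_inner_self_eq_norm_sq, inner_eq w w, inner_eq x w]
      rw [inner_eq] at hxa hxb
      ext i
      fin_cases i
      · show (w 0 * w 0 + w 1 * w 1 + w 2 * w 2) * x 0 = (x 0 * w 0 + x 1 * w 1 + x 2 * w 2) * w 0
        rw [w0, w1, w2]
        linear_combination ((a 2 * b 0 - a 0 * b 2) * a 2 - (a 0 * b 1 - a 1 * b 0) * a 1) * hxb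
          - ((a 2 * b 0 - a 0 * b 2) * b 2 - (a 0 * b 1 - a 1 * b 0) * b 1) * hxa
      · show (w 0 * w 0 + w 1 * w 1 + w 2 * w 2) * x 1 = (x 0 * w 0 + x 1 * w 1 + x 2 * w 2) * w 1
        rw [w0, w1, w2]
        linear_combination ((a 0 * b 1 - a 1 * b 0) * a 0 - (a 1 * b 2 - a 2 * b 1) * a 2) * hxb
          - ((a 0 * b 1 - a 1 * b 0) * b 0 - (a 1 * b 2 - a 2 * b 1) * b 2) * hxa
      · show (w 0 * w 0 + w 1 * w 1 + w 2 * w 2) * x 2 = (x 0 * w 0 + x 1 * w 1 + x 2 * w 2) * w 2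
        rw [w0, w1, w2]
        linear_combination ((a 1 * b 2 - a 2 * b 1) * a 1 - (a 2 * b 0 - a 0 * b 2) * a 0) * hxb
          - ((a 1 * b 2 - a 2 * b 1) * b 1 - (a 2 * b 0 - a 0 * b 2) * b 0) * hxa
    rw [real_inner_smul_right, smul_smul]
    have e1 : ‖w‖⁻¹ * ⟪x, w⟫ * ‖w‖⁻¹ = (‖w‖ ^ 2)⁻¹ * ⟪x, w⟫ := by
      field_simp
    rw [e1, ← smul_smul, ← key, smul_smul, inv_mul_cancel₀ hpos.ne', one_smul]

/-- Compactness along an ultrafilter. -/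
theorem XLIM_ultra {X : Type} [TopologicalSpace X] [Nonempty X] (U : Ultrafilter ℕ) {K : Set X}
    (hK : IsCompact K) (P : ℕ → X → Prop)
    (h : ∀ (xk : ℕ → X) (x : X), x ∈ K → Tendsto xk (U : Filter ℕ) (𝓝 x) →
      (∀ᶠ k in (U : Filter ℕ), ¬ P k (xk k)) → False) :
    ∀ᶠ k in (U : Filter ℕ), ∀ x ∈ K, P k x := by
  classical
  by_contra hne
  have h1 : ∀ᶠ k in (U : Filter ℕ), ¬ ∀ x ∈ K, P k x := Ultrafilter.eventually_not.2 hne
  have h2 : ∀ k, ∃ y : X, (¬ ∀ x ∈ K, P k x) → y ∈ K ∧ ¬ P k y := by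
    intro k
    by_cases hk : ∀ x ∈ K, P k x
    · exact ⟨Classical.arbitrary X, fun h' => (h' hk).elim⟩
    · have hk' := hk
      push Not at hk'
      obtain ⟨y, hy, hy'⟩ := hk'
      exact ⟨y, fun _ => ⟨hy, hy'⟩⟩
  choose xk hxk using h2
  have h3 : ∀ᶠ k in (U : Filter ℕ), xk k ∈ K ∧ ¬ P k (xk k) := h1.mono fun k hk => hxk k hk
  have h4 : (↑(U.map xk) : Filter X) ≤ 𝓟 K := by
    rw [le_principal_iff, Ultrafilter.coe_map, mem_map]
    exact h3.mono fun k hk => hk.1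
  obtain ⟨x, hx, hle⟩ := hK.ultrafilter_le_nhds (U.map xk) h4
  exact h xk x hx hle (h3.mono fun k hk => hk.2)

/-- Points and normals over a half space where the limit is a piece of a plane. -/
theorem XLIM_half (U : Ultrafilter ℕ) {Mk : ℕ → Surf} {M : Surf} (hc : Conv (U : Filter ℕ) Mk M)
    (a b n : E) (hO : ∀ x, 0 < ⟪x, b⟫ → x ∈ M.O)
    (hS : ∀ x, 0 < ⟪x, b⟫ → x ∈ M.S → ⟪x, a⟫ = 0 ∧ M.N x = n) (R : ℝ) {δ : ℝ} (hδ : 0 < δ) :
    ∀ᶠ k in (U : Filter ℕ), ∀ x ∈ (Mk k).S ∩ ball 0 R, δ < ⟪x, b⟫ →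
      |⟪x, a⟫| ≤ δ ∧ ‖(Mk k).N x - n‖ ≤ δ := by
  have hK : IsCompact (closedBall (0 : E) R ∩ {x | δ ≤ ⟪x, b⟫}) :=
    (isCompact_closedBall 0 R).inter_right (isClosed_le continuous_const (by fun_prop))
  have h := XLIM_ultra U hK
    (fun k x => x ∈ (Mk k).S → |⟪x, a⟫| ≤ δ ∧ ‖(Mk k).N x - n‖ ≤ δ) ?_
  · filter_upwards [h] with k hk x hx hb
    exact hk x ⟨ball_subset_closedBall hx.2, hb.le⟩ hx.1
  intro xk x hx hlim hnot
  have hb : 0 < ⟪x, b⟫ := hδ.trans_le hx.2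
  have hmem : ∀ᶠ k in (U : Filter ℕ), xk k ∈ (Mk k).S := hnot.mono fun k hk => by
    by_contra h'
    exact hk fun h'' => (h' h'').elim
  obtain ⟨hxS, hN⟩ := hc.pts xk x hmem hlim (hO x hb)
  obtain ⟨ha, hn⟩ := hS x hb hxS
  have t1 : Tendsto (fun k => |⟪xk k, a⟫|) (U : Filter ℕ) (𝓝 |⟪x, a⟫|) :=
    (hlim.inner (𝕜 := ℝ) tendsto_const_nhds).abs
  have t2 : Tendsto (fun k => ‖(Mk k).N (xk k) - n‖) (U : Filter ℕ) (𝓝 ‖M.N x - n‖) :=
    (hN.sub tendsto_const_nhds).norm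
  rw [ha, abs_zero] at t1
  rw [hn, sub_self, norm_zero] at t2
  have e1 := t1.eventually (gt_mem_nhds hδ)
  have e2 := t2.eventually (gt_mem_nhds hδ)
  obtain ⟨k, hk1, hk2, hk3⟩ := (hnot.and (e1.and e2)).exists
  exact hk1 fun _ => ⟨hk2.le, hk3.le⟩

/-- Pointwise convergence of the densities is uniform. -/
theorem XLIM_dens {U : Filter ℕ} {Mk : ℕ → Surf} {M : Surf} (hB : ∀ k, (Mk k).Bd)
    (hT : ∀ (p : E) (r : ℝ), 0 < r → Tendsto (fun k => (Mk k).Θ p r) U (𝓝 (M.Θ p r)))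
    {qk : ℕ → E} {rk : ℕ → ℝ} {q : E} {r : ℝ} (hr : 0 < r) (hq : Tendsto qk U (𝓝 q))
    (hrk : Tendsto rk U (𝓝 r)) :
    Tendsto (fun k => (Mk k).Θ (qk k) (rk k)) U (𝓝 (M.Θ q r)) := by
  have hpos : ∀ᶠ k in U, 0 < rk k := hrk.eventually (lt_mem_nhds hr)
  have t1 : Tendsto (fun k => 400 * |rk k - r| / min (rk k) r) U (𝓝 (400 * |r - r| / min r r)) :=
    (((hrk.sub tendsto_const_nhds).abs).const_mul 400).div (hrk.min tendsto_const_nhds)
      (by rw [min_self]; exact hr.ne')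
  have t2 : Tendsto (fun k => 400 * ‖qk k - q‖ / r) U (𝓝 (400 * ‖q - q‖ / r)) :=
    (((hq.sub tendsto_const_nhds).norm).const_mul 400).div_const r
  rw [sub_self, abs_zero, mul_zero, zero_div] at t1
  rw [sub_self, norm_zero, mul_zero, zero_div] at t2
  have t3 := t1.add t2
  rw [add_zero] at t3
  have t4 : Tendsto (fun k => (Mk k).Θ (qk k) (rk k) - (Mk k).Θ q r) U (𝓝 0) := by
    refine squeeze_zero_norm' ?_ t3
    filter_upwards [hpos] with k hk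
    have h1 := Surf.dens_lip_min (hB k) (qk k) hr hk
    have h2 := (hB k).Θ_lip q (qk k) hr
    rw [Real.norm_eq_abs]
    have h3 := abs_sub_le ((Mk k).Θ (qk k) (rk k)) ((Mk k).Θ (qk k) r) ((Mk k).Θ q r)
    linarith
  have t5 := t4.add (hT q r hr)
  simpa using t5

/-- The density profile of a cross is below `3 / 2` away from the axis. -/
theorem XLIM_profile {s t r : ℝ} (hr : 0 < r)
    (h : 3 / 2 ≤ max (1 - s ^ 2 / r ^ 2) 0 ^ 4 + max (1 - t ^ 2 / r ^ 2) 0 ^ 4) : |s| < r / 2 := by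
  by_contra hs
  rw [not_lt] at hs
  have hr2 : 0 < r ^ 2 := by positivity
  have h1 : 1 / 4 ≤ s ^ 2 / r ^ 2 := by
    rw [le_div_iff₀ hr2, ← sq_abs s]
    nlinarith
  have h2 : 0 ≤ t ^ 2 / r ^ 2 := by positivity
  have h3 : max (1 - s ^ 2 / r ^ 2) 0 ^ 4 ≤ (3 / 4) ^ 4 :=
    pow_le_pow_left₀ (le_max_right _ _) (max_le (by linarith) (by norm_num)) 4
  have h4 : max (1 - t ^ 2 / r ^ 2) 0 ^ 4 ≤ 1 ^ 4 :=
    pow_le_pow_left₀ (le_max_right _ _) (max_le (by linarith) (by norm_num)) 4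
  norm_num at h3 h4
  linarith

theorem xlim_of (hTUBE : S_TUBE) (hXDEN : S_XDEN) (hCONV : S_CONV) : S_XLIM := by
  intro U Mk M ν₁ ν₂ hmem hBd hc hX δ hδ hδ1
  obtain ⟨e, he, hax⟩ := XLIM_axis hX.unit₁ hX.unit₂ hX.ang
  have hoff : ∀ x, x ≠ ⟪x, e⟫ • e → x ∈ M.O := fun x hx => by
    refine hX.off x ?_
    by_contra h
    rw [not_or, not_not, not_not] at h
    exact hx (hax x h.1 h.2)
  have hT := (hTUBE U Mk M e hmem hBd hc he hoff).2.2.1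
  have hB : ∀ k, (Mk k).Bd := fun k => (hmem k).bd
  have hD := hXDEN M ν₁ ν₂ hBd hX
  have p1 := XLIM_half U hc ν₁ ν₂ ν₁ (fun x hx => hX.off x (Or.inr hx.ne'))
    (fun x hx hS => by
      have h0 : ⟪x, ν₁⟫ = 0 := ((hX.mem x (Or.inr hx.ne')).1 hS).resolve_right hx.ne'
      exact ⟨h0, hX.pos₁ x h0 hx⟩) (1 / δ) hδ
  have n1 := XLIM_half U hc ν₁ (-ν₂) (-ν₁)
    (fun x hx => hX.off x (Or.inr (by rw [inner_neg_right] at hx; linarith [hx] : ⟪x, ν₂⟫ < 0).ne))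
    (fun x hx hS => by
      have hx' : ⟪x, ν₂⟫ < 0 := by rw [inner_neg_right] at hx; linarith
      have h0 : ⟪x, ν₁⟫ = 0 := ((hX.mem x (Or.inr hx'.ne)).1 hS).resolve_right hx'.ne
      exact ⟨h0, hX.neg₁ x h0 hx'⟩) (1 / δ) hδ
  have p2 := XLIM_half U hc ν₂ ν₁ ν₂ (fun x hx => hX.off x (Or.inl hx.ne'))
    (fun x hx hS => by
      have h0 : ⟪x, ν₂⟫ = 0 := ((hX.mem x (Or.inl hx.ne')).1 hS).resolve_left hx.ne'
      exact ⟨h0, hX.pos₂ x h0 hx⟩) (1 / δ) hδ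
  have n2 := XLIM_half U hc ν₂ (-ν₁) (-ν₂)
    (fun x hx => hX.off x (Or.inl (by rw [inner_neg_right] at hx; linarith [hx] : ⟪x, ν₁⟫ < 0).ne))
    (fun x hx hS => by
      have hx' : ⟪x, ν₁⟫ < 0 := by rw [inner_neg_right] at hx; linarith
      have h0 : ⟪x, ν₂⟫ = 0 := ((hX.mem x (Or.inl hx'.ne)).1 hS).resolve_left hx'.ne
      exact ⟨h0, hX.neg₂ x h0 hx'⟩) (1 / δ) hδ
  have hKW : IsCompact (closedBall (0 : E) (1 / δ) ∩ {x | ⟪x, ν₁⟫ * ⟪x, ν₂⟫ ≤ -(δ * δ)}) :=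
    (isCompact_closedBall 0 _).inter_right (isClosed_le (by fun_prop) continuous_const)
  have hKW' : IsCompact (closedBall (0 : E) (1 / δ) ∩ {x | δ * δ ≤ ⟪x, ν₁⟫ * ⟪x, ν₂⟫}) :=
    (isCompact_closedBall 0 _).inter_right (isClosed_le continuous_const (by fun_prop))
  have hδδ : 0 < δ * δ := mul_pos hδ hδ
  have w1 := hc.inW _ hKW fun x hx => (hX.pat x).1 (by
    have h : ⟪x, ν₁⟫ * ⟪x, ν₂⟫ ≤ -(δ * δ) := hx.2
    linarith)
  have w2 := hc.inW' _ hKW' fun x hx => (hX.pat x).2 (by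
    have h : δ * δ ≤ ⟪x, ν₁⟫ * ⟪x, ν₂⟫ := hx.2
    linarith)
  have hKn : IsCompact (closedBall (0 : E) (1 / δ) ×ˢ Icc δ (1 / δ)) :=
    (isCompact_closedBall 0 _).prod isCompact_Icc
  have nr := XLIM_ultra U hKn (fun k z => 3 / 2 ≤ (Mk k).Θ z.1 z.2 →
      |⟪z.1, ν₁⟫| ≤ z.2 / 2 ∧ |⟪z.1, ν₂⟫| ≤ z.2 / 2) (by
    intro zk z hz hlim hnot
    have hr : 0 < z.2 := hδ.trans_le hz.2.1
    have hq : Tendsto (fun k => (zk k).1) (U : Filter ℕ) (𝓝 z.1) :=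
      (continuous_fst.tendsto z).comp hlim
    have hrk : Tendsto (fun k => (zk k).2) (U : Filter ℕ) (𝓝 z.2) :=
      (continuous_snd.tendsto z).comp hlim
    have hΘ := XLIM_dens hB hT hr hq hrk
    have hge : 3 / 2 ≤ M.Θ z.1 z.2 := by
      refine ge_of_tendsto hΘ (hnot.mono fun k hk => ?_)
      by_contra h'
      exact hk fun h'' => (h' h'').elim
    rw [hD z.1 z.2 hr] at hge
    have a1 := XLIM_profile hr hge
    have a2 := XLIM_profile hr (by rw [add_comm]; exact hge)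
    have t1 : Tendsto (fun k => |⟪(zk k).1, ν₁⟫|) (U : Filter ℕ) (𝓝 |⟪z.1, ν₁⟫|) :=
      (hq.inner (𝕜 := ℝ) tendsto_const_nhds).abs
    have t2 : Tendsto (fun k => |⟪(zk k).1, ν₂⟫|) (U : Filter ℕ) (𝓝 |⟪z.1, ν₂⟫|) :=
      (hq.inner (𝕜 := ℝ) tendsto_const_nhds).abs
    have e1 := t1.eventually_lt (hrk.div_const 2) a1
    have e2 := t2.eventually_lt (hrk.div_const 2) a2
    obtain ⟨k, hk1, hk2, hk3⟩ := (hnot.and (e1.and e2)).exists
    exact hk1 fun _ => ⟨hk2.le, hk3.le⟩)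
  have hKd : IsCompact (closedBall (0 : E) (1 / δ) ∩ ({x | ⟪x, ν₁⟫ = 0} ∩ {x | ⟪x, ν₂⟫ = 0})) :=
    (isCompact_closedBall 0 _).inter_right
      ((isClosed_eq (by fun_prop) continuous_const).inter
        (isClosed_eq (by fun_prop) continuous_const))
  have dn := XLIM_ultra U hKd (fun k q => 2 - (Mk k).Θ q δ ≤ δ) (by
    intro qk q hq hlim hnot
    have hΘ := XLIM_dens hB hT hδ hlim (tendsto_const_nhds (x := δ))
    have h1 : ⟪q, ν₁⟫ = 0 := hq.2.1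
    have h2 : ⟪q, ν₂⟫ = 0 := hq.2.2
    have h3 : M.Θ q δ = 2 := by
      rw [hD q δ hδ, h1, h2]
      norm_num
    rw [h3] at hΘ
    have e1 := hΘ.eventually (lt_mem_nhds (show 2 - δ < 2 by linarith))
    obtain ⟨k, hk1, hk2⟩ := (hnot.and e1).exists
    exact hk1 (by linarith))
  filter_upwards [p1, n1, p2, n2, w1, w2, nr, dn] with k p1 n1 p2 n2 w1 w2 nr dn
  refine ⟨hX.unit₁, hX.unit₂, ?_, ?_, ?_, ?_, ?_, ?_, ?_⟩
  · intro x hx h
    rw [sub_zero, mul_one] at *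
    exact p1 x hx h
  · intro x hx h
    rw [sub_zero, mul_one] at *
    have h' := n1 x hx (by rw [inner_neg_right]; linarith)
    rwa [sub_neg_eq_add] at h'
  · intro x hx h
    rw [sub_zero, mul_one] at *
    exact p2 x hx h
  · intro x hx h
    rw [sub_zero, mul_one] at *
    have h' := n2 x hx (by rw [inner_neg_right]; linarith)
    rwa [sub_neg_eq_add] at h'
  · intro x hx h1 h2
    simp only [sub_zero, mul_one] at h1 h2 ⊢
    have h3 : δ * δ < |⟪x, ν₁⟫ * ⟪x, ν₂⟫| := by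
      rw [abs_mul]
      exact mul_lt_mul'' h1 h2 hδ.le hδ.le
    refine ⟨fun h => w1 ⟨ball_subset_closedBall hx, ?_⟩, fun h => w2 ⟨ball_subset_closedBall hx, ?_⟩⟩
    · rw [abs_of_neg h] at h3
      show ⟪x, ν₁⟫ * ⟪x, ν₂⟫ ≤ -(δ * δ)
      linarith
    · rw [abs_of_pos h] at h3
      exact h3.le
  · intro q hq r h1 h2 h3
    simp only [sub_zero, mul_one] at h1 ⊢
    exact nr (q, r) ⟨ball_subset_closedBall hq, h1, h2⟩ h3
  · intro q hq h1 h2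
    simp only [sub_zero, mul_one] at h1 h2 ⊢
    exact dn q ⟨ball_subset_closedBall hq, h1, h2⟩

end MW
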