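import Pool.Agent.P.MP_064970_gt.G.STAD
import Pool.Agent.P.MP_064970_gt.G.VIT
import Pool.Agent.P.MP_064970_gt.G.GOOD
import Pool.Agent.P.MP_064970_gt.G.STR0
import Pool.Agent.P.MP_064970_gt.G.TUBE
import Pool.Agent.P.MP_064970_gt.G.STR1
import Pool.Agent.P.MP_064970_gt.G.HALF
import Pool.Agent.P.MP_064970_gt.G.HALFM
import Pool.Agent.P.MP_064970_gt.G.COUNT
import Pool.Agent.P.MP_064970_gt.G.XDEN
import Pool.Agent.P.MP_064970_gt.G.XLIM
import Pool.Agent.P.MP_064970_gt.G.STR2
import Pool.Agent.P.MP_064970_gt.G.STR3A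
import Pool.Agent.P.MP_064970_gt.G.STR3B
import Pool.Agent.P.MP_064970_gt.G.STR3
import Pool.Agent.P.MP_064970_gt.G.STR
import Pool.Agent.P.MP_064970_gt.G.BAD
import Pool.Agent.P.MP_064970_gt.G.GAP
import Pool.Agent.P.MP_064970_gt.G.COR
import Pool.Agent.P.MP_064970_gt.G.DEC
import Pool.Agent.P.MP_064970_gt.G.TRI
import Pool.Agent.P.MP_064970_gt.G.CONE
import Pool.Agent.P.MP_064970_gt.G.TYPE
import Pool.Agent.P.MP_064970_gt.G.MAIN
import Pool.Agent.P.MP_064970_gt.I.All

/-! Section 2 of the paper: all statements proved. -/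

namespace MW

theorem g_stad : S_STAD := stad_of i_fv
theorem g_vit : S_VIT := vit_of
theorem g_good : S_GOOD := good_of g_stad i_low i_mono
theorem g_str0 : S_STR0 := str0_of i_mono i_shift
theorem g_tube : S_TUBE := tube_of
theorem g_str1 : S_STR1 := str1_of i_flat1 i_area
theorem g_half : S_HALF := half_of i_flat1
theorem g_halfm : S_HALFM := halfm_of i_area
theorem g_count : S_COUNT := count_of
theorem g_xden : S_XDEN := xden_of i_area
theorem g_xlim : S_XLIM := xlim_of g_tube g_xden i_conv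
theorem g_str2 : S_STR2 := str2_of i_lim g_str0 g_tube g_half g_halfm g_count g_xlim i_fv
theorem g_str3a : S_STR3A := str3a_of i_low
theorem g_str3b : S_STR3B := str3b_of g_vit g_good i_area0 i_area
theorem g_str3 : S_STR3 := str3_of g_str0 g_str3a g_str3b
theorem g_str : S_STR := str_of g_str0 i_lim g_tube g_str1 g_str2 g_str3
theorem g_bad : S_BAD := bad_of i_pp i_lim i_conv i_mono
theorem g_gap : S_GAP := gap_of g_str g_bad i_rig1 i_flat2 i_mono
theorem g_cor : S_COR := cor_of g_bad g_gap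
theorem g_dec : S_DEC := dec_of g_cor i_lim i_conv g_gap i_up i_mono
theorem g_tri : S_TRI := tri_of g_str g_cor i_mono
theorem g_cone : S_CONE := cone_of g_tri
theorem g_type (hPROPI : S_PROPI) : S_TYPE := type_of g_tri hPROPI i_mono
theorem g_main (hPROPI : S_PROPI) (hCASEII : S_CASEII) (hII3 : S_II3) : S_MAIN :=
  main_of i_flat2 (g_type hPROPI) hCASEII hII3

end MW
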