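import Pool.Agent.P.MP_064970_gt.SG

/-!
G1. h(u) = u_+^2/(u_+ + d) is C1, 0 <= h' <= 1, u - d <= h u <= u_+. kap t = h(t - t0 - d) - h(t0 -
t), g x = |pr x - y|^2 + kap(x 2)^2, Y x = pt (pr x - y) (kap (x 2)), A(s) = s^-2 int lam(g/s^2)
dmu. g < s^2 implies x in ball (pt y t1) (s + 2d) (since |kap t| >= |t - t1| - 2d). Vector first
variation for lam(g/s^2) Y: dv Y - N.DY N = 2 - |N'|^2 + kap' |N'|^2 >= 2 - |N'|^2 and 2g - (Dg Y -
(Dg N)(N.Y)) = 2 kap^2 (1 - kap') + 2 (N'.z + N3 kap kap')(N'.z + N3 kap) >= -2 |N'| g (z = pr x -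
y). Hence s A'(s) >= -(28/pi) tau (differentiate under the integral, or use the field Lam(g) Y with
Lam(t) = s^-2 l(t/s^2) - r^-2 l(t/r^2) as in MONO on short steps r < s). A(s0) >= sum Theta(p_i,
s0): g <= |x - p_i|^2, lam antitone, the balls are disjoint. A(s1) <= (1+k)^3 Theta by lam_cmp with
shift 2d/s1. tau >= 0 follows from the tilt hypothesis.
-/

open scoped Manifold ContDiff
open MeasureTheory Set Filter Topology Metric
open scoped RealInnerProductSpace ENNReal ComplexConjugate Real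

noncomputable section

namespace MW

universe u

/-- The one-sided profile: zero on the left, slope between zero and one. -/
def STAD_h (d u : ℝ) : ℝ := (max u 0 ^ 2 - max (u - 2 * d) 0 ^ 2) / (4 * d)

/-- Its derivative. -/
def STAD_h1 (d u : ℝ) : ℝ := (max u 0 - max (u - 2 * d) 0) / (2 * d)

theorem STAD_h_contDiff (d : ℝ) : ContDiff ℝ 1 (STAD_h d) :=
  (Coord_contDiff_sq.sub (Coord_contDiff_sq.comp (contDiff_id.sub contDiff_const))).div_const _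

theorem STAD_h_deriv {d : ℝ} (hd : 0 < d) (u : ℝ) : HasDerivAt (STAD_h d) (STAD_h1 d u) u := by
  have h1 := Coord_hasDerivAt_pos 0 u
  have h2 := (Coord_hasDerivAt_pos 0 (u - 2 * d)).comp u ((hasDerivAt_id u).sub_const (2 * d))
  have h3 := (h1.sub h2).div_const (4 * d)
  refine HasDerivAt.congr_deriv h3 ?_
  unfold STAD_h1
  field_simp
  push_cast
  ring

theorem STAD_h1_mem {d : ℝ} (hd : 0 < d) (u : ℝ) :
    0 ≤ STAD_h1 d u ∧ STAD_h1 d u ≤ 1 ∧ (u ≤ 0 → STAD_h1 d u = 0) := by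
  unfold STAD_h1
  refine ⟨div_nonneg (sub_nonneg.2 (max_le_max (by linarith) le_rfl)) (by positivity), ?_,
    fun hu => ?_⟩
  · rw [div_le_one (by positivity)]
    rcases le_total u 0 with h | h
    · rw [max_eq_right h]
      linarith [le_max_right (u - 2 * d) 0]
    · rw [max_eq_left h]
      linarith [le_max_left (u - 2 * d) 0]
  · rw [max_eq_right hu, max_eq_right (by linarith), sub_self, zero_div]

theorem STAD_h_mem {d : ℝ} (hd : 0 < d) (u : ℝ) :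
    (u ≤ 0 → STAD_h d u = 0) ∧
      (0 ≤ u → 0 ≤ STAD_h d u ∧ STAD_h d u ≤ u ∧ u - d ≤ STAD_h d u) := by
  unfold STAD_h
  refine ⟨fun hu => ?_, fun hu => ?_⟩
  · rw [max_eq_right hu, max_eq_right (by linarith), sub_self, zero_div]
  · rw [max_eq_left hu, le_div_iff₀ (by positivity), div_le_iff₀ (by positivity),
      le_div_iff₀ (by positivity)]
    rcases le_total (u - 2 * d) 0 with h | h
    · rw [max_eq_right h]
      refine ⟨by nlinarith, by nlinarith, by nlinarith [sq_nonneg (u - 2 * d)]⟩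
    · rw [max_eq_left h]
      refine ⟨by nlinarith, by nlinarith, by nlinarith⟩

theorem STAD_kap (t₀ : ℝ) {d : ℝ} (hd : 0 < d) : ∃ k k' : ℝ → ℝ, ContDiff ℝ 1 k ∧
    (∀ t, HasDerivAt k (k' t) t) ∧ (∀ t, 0 ≤ k' t ∧ k' t ≤ 1) ∧
    ∀ t, ∀ a ∈ Icc t₀ (t₀ + d), |k t| ≤ |t - a| ∧ |t - a| ≤ |k t| + 2 * d := by
  refine ⟨fun t => STAD_h d (t - (t₀ + d)) - STAD_h d (t₀ - t),
    fun t => STAD_h1 d (t - (t₀ + d)) + STAD_h1 d (t₀ - t),
    ((STAD_h_contDiff d).comp (contDiff_id.sub contDiff_const)).sub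
      ((STAD_h_contDiff d).comp (contDiff_const.sub contDiff_id)), fun t => ?_, fun t => ?_,
    fun t a ha => ?_⟩
  · have h1 := (STAD_h_deriv hd (t - (t₀ + d))).comp t ((hasDerivAt_id t).sub_const (t₀ + d))
    have h2 := (STAD_h_deriv hd (t₀ - t)).comp t ((hasDerivAt_id t).const_sub t₀)
    refine HasDerivAt.congr_deriv (h1.sub h2) ?_
    ring
  · obtain ⟨a1, a2, a3⟩ := STAD_h1_mem hd (t - (t₀ + d))
    obtain ⟨b1, b2, b3⟩ := STAD_h1_mem hd (t₀ - t)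
    refine ⟨add_nonneg a1 b1, ?_⟩
    rcases le_total t t₀ with h | h
    · have := a3 (by linarith)
      linarith
    · have := b3 (by linarith)
      linarith
  · obtain ⟨a1, a2⟩ := STAD_h_mem hd (t - (t₀ + d))
    obtain ⟨b1, b2⟩ := STAD_h_mem hd (t₀ - t)
    obtain ⟨ha1, ha2⟩ := ha
    rcases le_total t t₀ with h | h
    · obtain ⟨c1, c2, c3⟩ := b2 (by linarith)
      simp only [a1 (by linarith), zero_sub, abs_neg]
      rw [abs_of_nonneg c1, abs_of_nonpos (by linarith)]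
      constructor <;> linarith
    rcases le_total t (t₀ + d) with h' | h'
    · simp only [a1 (by linarith), b1 (by linarith), sub_self, abs_zero]
      refine ⟨abs_nonneg _, ?_⟩
      rw [abs_le]
      constructor <;> linarith
    · obtain ⟨c1, c2, c3⟩ := a2 (by linarith)
      simp only [b1 (by linarith), sub_zero]
      rw [abs_of_nonneg c1, abs_of_nonneg (by linarith)]
      constructor <;> linarith

/-- The squared modified distance. -/
def STAD_g (y : ℂ) (k : ℝ → ℝ) (x : E) : ℝ :=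
  (x 0 - y.re) ^ 2 + (x 1 - y.im) ^ 2 + k (x 2) ^ 2

/-- The modified position field. -/
def STAD_Y (y : ℂ) (k : ℝ → ℝ) (x : E) : E :=
  (x 0 - y.re) • EuclideanSpace.single 0 (1 : ℝ) + (x 1 - y.im) • EuclideanSpace.single 1 (1 : ℝ)
    + k (x 2) • EuclideanSpace.single 2 (1 : ℝ)

/-- The derivative of `lam`. -/
def STAD_l1 (u : ℝ) : ℝ := -(12 / π) * max (1 - u) 0 ^ 2

/-- The test field. -/
def STAD_Z (y : ℂ) (k : ℝ → ℝ) (s : ℝ) (x : E) : E := lam (STAD_g y k x / s ^ 2) • STAD_Y y k x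

theorem STAD_g_nonneg (y : ℂ) (k : ℝ → ℝ) (x : E) : 0 ≤ STAD_g y k x := by
  unfold STAD_g
  positivity

theorem STAD_norm_sq (x : E) (y : ℂ) (t : ℝ) :
    ‖x - pt y t‖ ^ 2 = (x 0 - y.re) ^ 2 + (x 1 - y.im) ^ 2 + (x 2 - t) ^ 2 := by
  rw [← real_inner_self_eq_norm_sq, inner_eq]
  simp only [PiLp.sub_apply, pt_zero, pt_one, pt_two]
  ring

theorem STAD_g_le {y : ℂ} {k : ℝ → ℝ} {x : E} {a : ℝ} (h : |k (x 2)| ≤ |x 2 - a|) :
    STAD_g y k x ≤ ‖x - pt y a‖ ^ 2 := by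
  rw [STAD_norm_sq]
  unfold STAD_g
  have := sq_le_sq.2 h
  linarith

theorem STAD_le_g {y : ℂ} {k : ℝ → ℝ} {x : E} {a d : ℝ} (hd : 0 < d)
    (h : |x 2 - a| ≤ |k (x 2)| + 2 * d) : ‖x - pt y a‖ ≤ √(STAD_g y k x) + 2 * d := by
  have h0 := STAD_g_nonneg y k x
  have h1 : |k (x 2)| ≤ √(STAD_g y k x) := by
    refine Real.abs_le_sqrt ?_
    unfold STAD_g
    nlinarith [sq_nonneg (x 0 - y.re), sq_nonneg (x 1 - y.im)]
  refine abs_le_of_sq_le_sq' ?_ (by positivity) |>.2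
  have h2 : (x 2 - a) ^ 2 ≤ (|k (x 2)| + 2 * d) ^ 2 := by
    rw [← sq_abs (x 2 - a)]
    exact pow_le_pow_left₀ (abs_nonneg _) h 2
  have h3 := Real.sq_sqrt h0
  have h4 := sq_abs (k (x 2))
  rw [STAD_norm_sq, add_sq _ (2 * d), h3]
  unfold STAD_g at *
  nlinarith

theorem STAD_contDiff_g (y : ℂ) {k : ℝ → ℝ} (hk : ContDiff ℝ 1 k) : ContDiff ℝ 1 (STAD_g y k) := by
  unfold STAD_g
  fun_prop

theorem STAD_contDiff_Z (y : ℂ) {k : ℝ → ℝ} (hk : ContDiff ℝ 1 k) (s : ℝ) :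
    ContDiff ℝ 1 (STAD_Z y k s) := by
  have h1 : ContDiff ℝ 1 lam := contDiff_lam.of_le (by norm_num)
  have h2 : ContDiff ℝ 1 (STAD_Y y k) := by
    unfold STAD_Y
    fun_prop
  exact (h1.comp ((STAD_contDiff_g y hk).div_const _)).smul h2

/-- The derivative of the test field. -/
theorem STAD_fderiv (y : ℂ) {k k' : ℝ → ℝ} (hk : ∀ t, HasDerivAt k (k' t) t) (s : ℝ) (x v : E) :
    fderiv ℝ (STAD_Z y k s) x v = lam (STAD_g y k x / s ^ 2) •
      (v 0 • EuclideanSpace.single 0 (1 : ℝ) + v 1 • EuclideanSpace.single 1 (1 : ℝ)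
        + (k' (x 2) * v 2) • EuclideanSpace.single 2 (1 : ℝ))
      + (STAD_l1 (STAD_g y k x / s ^ 2) * ((2 * (x 0 - y.re) * v 0 + 2 * (x 1 - y.im) * v 1
        + 2 * k (x 2) * (k' (x 2) * v 2)) / s ^ 2)) • STAD_Y y k x := by
  have hp : ∀ i : Fin 3, HasFDerivAt (fun x : E => x i)
      (EuclideanSpace.proj i : E →L[ℝ] ℝ) x := fun i =>
    (EuclideanSpace.proj i : E →L[ℝ] ℝ).hasFDerivAt
  have h0 := (hp 0).sub_const y.re
  have h1 := (hp 1).sub_const y.im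
  have h2 := (hk (x 2)).comp_hasFDerivAt x (hp 2)
  have hg := ((h0.pow 2).add (h1.pow 2)).add (h2.pow 2)
  have hl := (hasDerivAt_lam (STAD_g y k x / s ^ 2)).comp_hasFDerivAt x
    (hg.mul_const (s ^ 2)⁻¹)
  have hY := ((h0.smul_const (EuclideanSpace.single 0 (1 : ℝ) : E)).add
    (h1.smul_const (EuclideanSpace.single 1 (1 : ℝ) : E))).add
    (h2.smul_const (EuclideanSpace.single 2 (1 : ℝ) : E))
  have hZ : HasFDerivAt (STAD_Z y k s) _ x := hl.smul hY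
  rw [hZ.fderiv]
  simp [STAD_l1, STAD_Y, STAD_g, div_eq_mul_inv]
  module

/-- The integrand of the first variation. -/
def STAD_G (y : ℂ) (k : ℝ → ℝ) (s : ℝ) (x n : E) : ℝ :=
  dv (STAD_Z y k s) x - ⟪n, fderiv ℝ (STAD_Z y k s) x n⟫

/-- The derivative of the weight in the scale. -/
def STAD_F1 (s c : ℝ) : ℝ := -2 / s ^ 3 * (lam (c / s ^ 2) + c / s ^ 2 * STAD_l1 (c / s ^ 2))

theorem STAD_hasDerivAt {s : ℝ} (hs : 0 < s) (c : ℝ) :
    HasDerivAt (fun s : ℝ => lam (c / s ^ 2) / s ^ 2) (STAD_F1 s c) s := by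
  have h1 : HasDerivAt (fun s : ℝ => s ^ 2) (2 * s) s := by
    simpa using hasDerivAt_pow 2 s
  have h2 := (hasDerivAt_const s c).div h1 (by positivity)
  have h3 := ((hasDerivAt_lam (c / s ^ 2)).comp s h2).div h1 (by positivity)
  refine HasDerivAt.congr_deriv h3 ?_
  unfold STAD_F1 STAD_l1
  simp only [Function.comp, Pi.div_apply]
  field_simp
  ring

theorem STAD_l1_mem {u : ℝ} (hu : 0 ≤ u) :
    0 ≤ -STAD_l1 u ∧ u * -STAD_l1 u ≤ 4 ∧ (1 ≤ u → STAD_l1 u = 0) := by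
  have hπ := Real.pi_gt_three
  have h1 : 12 / π ≤ 4 := by
    rw [div_le_iff₀ (by positivity)]
    linarith
  have h2 : 0 < 12 / π := by positivity
  unfold STAD_l1
  refine ⟨by rw [neg_mul, neg_neg]; positivity, ?_, fun h => ?_⟩
  · rw [neg_mul, neg_neg]
    rcases le_total (1 - u) 0 with h | h
    · rw [max_eq_right h]
      norm_num
    · rw [max_eq_left h]
      have h3 : u * (1 - u) ^ 2 ≤ 1 := by
        have : (1 - u) ^ 2 ≤ 1 := by nlinarith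
        nlinarith [sq_nonneg (1 - u)]
      have h4 : 0 ≤ u * (1 - u) ^ 2 := by positivity
      nlinarith
  · rw [max_eq_right (by linarith)]
    simp

theorem STAD_lam_le {u : ℝ} (hu : 0 ≤ u) : lam u ≤ 2 := by
  refine (lam_le hu).trans ?_
  have hπ := Real.pi_gt_three
  rw [div_le_iff₀ (by positivity)]
  linarith

theorem STAD_G_eq (y : ℂ) {k k' : ℝ → ℝ} (hk : ∀ t, HasDerivAt k (k' t) t) (s : ℝ) (x n : E) :
    STAD_G y k s x n = lam (STAD_g y k x / s ^ 2)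
        * (2 + k' (x 2) - (n 0 ^ 2 + n 1 ^ 2 + k' (x 2) * n 2 ^ 2))
      + STAD_l1 (STAD_g y k x / s ^ 2) / s ^ 2
        * (2 * (x 0 - y.re) ^ 2 + 2 * (x 1 - y.im) ^ 2 + 2 * k (x 2) ^ 2 * k' (x 2)
          - 2 * ((x 0 - y.re) * n 0 + (x 1 - y.im) * n 1 + k (x 2) * n 2 * k' (x 2))
            * ((x 0 - y.re) * n 0 + (x 1 - y.im) * n 1 + k (x 2) * n 2)) := by
  unfold STAD_G dv
  simp only [STAD_fderiv y hk, inner_eq, Fin.sum_univ_three]
  simp [STAD_Y]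
  ring

/-- The algebraic inequality. -/
theorem STAD_alg {z0 z1 k k' n0 n1 n2 m : ℝ} (hk0 : 0 ≤ k') (hk1 : k' ≤ 1) (hm : 0 ≤ m)
    (hm2 : m ^ 2 = n0 ^ 2 + n1 ^ 2) (hn : m ^ 2 + n2 ^ 2 = 1) :
    -m ≤ k' - (n0 ^ 2 + n1 ^ 2 + k' * n2 ^ 2) ∧
    2 * z0 ^ 2 + 2 * z1 ^ 2 + 2 * k ^ 2 * k'
      - 2 * (z0 * n0 + z1 * n1 + k * n2 * k') * (z0 * n0 + z1 * n1 + k * n2)
      ≤ 2 * (z0 ^ 2 + z1 ^ 2 + k ^ 2) + 2 * m * (z0 ^ 2 + z1 ^ 2 + k ^ 2) := by
  have hm1 : m ≤ 1 := by nlinarith [sq_nonneg n2]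
  constructor
  · have h1 : n2 ^ 2 = 1 - m ^ 2 := by linarith
    rw [← hm2, h1]
    nlinarith [mul_nonneg hk0 (sq_nonneg m)]
  · set a := z0 * n0 + z1 * n1 with ha
    set b := k * n2 with hb
    have ha2 : a ^ 2 ≤ m ^ 2 * (z0 ^ 2 + z1 ^ 2) := by
      rw [hm2, ha]
      nlinarith [sq_nonneg (z0 * n1 - z1 * n0)]
    have hb2 : b ^ 2 ≤ k ^ 2 := by
      rw [hb, mul_pow]
      have : n2 ^ 2 ≤ 1 := by nlinarith [sq_nonneg m]
      nlinarith [sq_nonneg k]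
    have hab : |2 * (a * b)| ≤ m * (z0 ^ 2 + z1 ^ 2 + k ^ 2) := by
      refine abs_le_of_sq_le_sq ?_ (by positivity)
      have h1 : a ^ 2 * b ^ 2 ≤ m ^ 2 * (z0 ^ 2 + z1 ^ 2) * k ^ 2 :=
        mul_le_mul ha2 hb2 (sq_nonneg _) (by positivity)
      nlinarith [mul_nonneg (sq_nonneg m) (sq_nonneg (z0 ^ 2 + z1 ^ 2 - k ^ 2))]
    have h2 := (abs_le.1 hab).1
    have h3 : 0 ≤ m * (z0 ^ 2 + z1 ^ 2 + k ^ 2) := by positivity
    have h4 : -(m * (z0 ^ 2 + z1 ^ 2 + k ^ 2)) * k' ≤ 2 * (a * b) * k' :=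
      mul_le_mul_of_nonneg_right h2 hk0
    have h5 : m * (z0 ^ 2 + z1 ^ 2 + k ^ 2) * k' ≤ m * (z0 ^ 2 + z1 ^ 2 + k ^ 2) :=
      mul_le_of_le_one_right h3 hk1
    have h6 : k ^ 2 * k' ≤ k ^ 2 := mul_le_of_le_one_right (sq_nonneg _) hk1
    have h7 : 0 ≤ b ^ 2 * k' := by positivity
    nlinarith [sq_nonneg a]

/-- The pointwise inequality. -/
theorem STAD_point (y : ℂ) {k k' : ℝ → ℝ} (hk : ∀ t, HasDerivAt k (k' t) t)
    (hk' : ∀ t, 0 ≤ k' t ∧ k' t ≤ 1) {s : ℝ} (hs : 0 < s) (x : E) {n : E} (hn : ‖n‖ = 1) :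
    -(10 * ‖pr n‖) ≤ s ^ 3 * STAD_F1 s (STAD_g y k x) + STAD_G y k s x n := by
  have hm2 : ‖pr n‖ ^ 2 = n 0 ^ 2 + n 1 ^ 2 := by
    rw [Complex.sq_norm, Complex.normSq_apply, pr_re, pr_im]
    ring
  have hn2 : ‖pr n‖ ^ 2 + n 2 ^ 2 = 1 := by rw [← norm_sq_eq, hn, one_pow]
  obtain ⟨h1, h2⟩ := STAD_alg (z0 := x 0 - y.re) (z1 := x 1 - y.im) (k := k (x 2))
    (hk' (x 2)).1 (hk' (x 2)).2 (norm_nonneg (pr n)) hm2 hn2
  rw [STAD_G_eq y hk]
  have hg : (x 0 - y.re) ^ 2 + (x 1 - y.im) ^ 2 + k (x 2) ^ 2 = STAD_g y k x := rfl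
  rw [hg] at h2
  set g := STAD_g y k x
  have hu : 0 ≤ g / s ^ 2 := div_nonneg (STAD_g_nonneg y k x) (sq_nonneg s)
  obtain ⟨l1, l2, -⟩ := STAD_l1_mem hu
  have l3 := lam_nonneg (g / s ^ 2)
  have l4 := STAD_lam_le hu
  have e : s ^ 3 * STAD_F1 s g = -2 * lam (g / s ^ 2) + 2 * g * (-STAD_l1 (g / s ^ 2) / s ^ 2) := by
    unfold STAD_F1
    field_simp
    ring
  rw [e]
  have h3 := mul_le_mul_of_nonneg_left h1 l3
  have h4 := mul_le_mul_of_nonneg_left h2 (div_nonneg l1 (sq_nonneg s))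
  have h5 : -STAD_l1 (g / s ^ 2) / s ^ 2 * g = g / s ^ 2 * -STAD_l1 (g / s ^ 2) := by ring
  have hm := norm_nonneg (pr n)
  have h6 : lam (g / s ^ 2) * ‖pr n‖ ≤ 2 * ‖pr n‖ := mul_le_mul_of_nonneg_right l4 hm
  have h7 : -STAD_l1 (g / s ^ 2) / s ^ 2 * g * ‖pr n‖ ≤ 4 * ‖pr n‖ :=
    mul_le_mul_of_nonneg_right (h5 ▸ l2) hm
  rw [neg_div] at *
  nlinarith

theorem STAD_zero (y : ℂ) {k k' : ℝ → ℝ} (hk : ∀ t, HasDerivAt k (k' t) t) {s : ℝ} {x : E}
    (h : 1 ≤ STAD_g y k x / s ^ 2) (n : E) :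
    STAD_F1 s (STAD_g y k x) = 0 ∧ STAD_G y k s x n = 0 := by
  rw [STAD_G_eq y hk]
  unfold STAD_F1
  rw [lam_eq_zero h, (STAD_l1_mem (by linarith)).2.2 h]
  simp

theorem STAD_F1_le {s r c : ℝ} (hr : 0 < r) (hs : r ≤ s) (hc : 0 ≤ c) :
    |STAD_F1 s c| ≤ 12 / r ^ 3 := by
  have hs0 : 0 < s := hr.trans_le hs
  have hu : 0 ≤ c / s ^ 2 := by positivity
  obtain ⟨l1, l2, -⟩ := STAD_l1_mem hu
  have l3 := lam_nonneg (c / s ^ 2)
  have l4 := STAD_lam_le hu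
  have l5 := mul_nonneg hu l1
  unfold STAD_F1
  rw [abs_mul, neg_div, abs_neg, abs_of_pos (by positivity)]
  have h1 : |lam (c / s ^ 2) + c / s ^ 2 * STAD_l1 (c / s ^ 2)| ≤ 6 := by
    rw [abs_le]
    constructor <;> linarith
  calc 2 / s ^ 3 * _ ≤ 2 / r ^ 3 * 6 := by gcongr
    _ = 12 / r ^ 3 := by ring

section main

variable {M : Surf} {y : ℂ} {k k' : ℝ → ℝ} {p : E} {d : ℝ}

theorem STAD_out (hp : ∀ x, ‖x - p‖ ≤ √(STAD_g y k x) + 2 * d) {s r : ℝ} (hs : 0 < s)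
    (hsr : s ≤ r) {x : E} (hx : x ∉ ball p (r + 2 * d)) : 1 ≤ STAD_g y k x / s ^ 2 := by
  rw [mem_ball, dist_eq_norm, not_lt] at hx
  rw [le_div_iff₀ (by positivity), one_mul]
  have h1 : s ≤ √(STAD_g y k x) := by linarith [hp x]
  exact (Real.le_sqrt' hs).1 h1

theorem STAD_int_F (hM : M.Bd) (hk : ContDiff ℝ 1 k)
    (hp : ∀ x, ‖x - p‖ ≤ √(STAD_g y k x) + 2 * d) {s : ℝ} (hs : 0 < s) :
    Integrable (fun x => lam (STAD_g y k x / s ^ 2)) M.μ := by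
  refine hM.integrable (A := ball p (s + 2 * d)) isBounded_ball
    (contDiff_lam.continuous.comp
      ((STAD_contDiff_g y hk).continuous.div_const _)).measurable (C := 2) (fun x _ => ?_)
    fun x _ hx => lam_eq_zero (STAD_out hp hs le_rfl hx)
  rw [abs_of_nonneg (lam_nonneg _)]
  exact STAD_lam_le (div_nonneg (STAD_g_nonneg y k x) (sq_nonneg s))

theorem STAD_deriv (hM : M.Bd) (hk : ContDiff ℝ 1 k) (hk1 : ∀ t, HasDerivAt k (k' t) t)
    (hp : ∀ x, ‖x - p‖ ≤ √(STAD_g y k x) + 2 * d) {s : ℝ} (hs : 0 < s) :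
    Integrable (fun x => STAD_F1 s (STAD_g y k x)) M.μ ∧
    HasDerivAt (fun s : ℝ => ∫ x, lam (STAD_g y k x / s ^ 2) / s ^ 2 ∂M.μ)
      (∫ x, STAD_F1 s (STAD_g y k x) ∂M.μ) s := by
  have hg := (STAD_contDiff_g y hk).continuous
  have hl := contDiff_lam.continuous
  refine hasDerivAt_integral_of_dominated_loc_of_deriv_le (s := Ioo (s / 2) (2 * s))
    (F := fun s x => lam (STAD_g y k x / s ^ 2) / s ^ 2)
    (F' := fun s x => STAD_F1 s (STAD_g y k x))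
    (bound := (ball p (2 * s + 2 * d)).indicator fun _ => 12 / (s / 2) ^ 3)
    (Ioo_mem_nhds (by linarith) (by linarith))
    (Eventually.of_forall fun r => Continuous.aestronglyMeasurable (by fun_prop))
    ((STAD_int_F hM hk hp hs).div_const _) (Continuous.aestronglyMeasurable ?_)
    (Eventually.of_forall fun x r hr => ?_) ?_
    (Eventually.of_forall fun x r hr => STAD_hasDerivAt (by linarith [hr.1]) _)
  · unfold STAD_F1 STAD_l1
    fun_prop
  · by_cases hx : x ∈ ball p (2 * s + 2 * d)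
    · rw [indicator_of_mem hx]
      exact STAD_F1_le (by linarith) hr.1.le (STAD_g_nonneg y k x)
    · rw [indicator_of_notMem hx,
        (STAD_zero y hk1 (STAD_out hp (by linarith [hr.1]) hr.2.le hx) 0).1, norm_zero]
  · exact (integrable_indicator_iff measurableSet_ball).2
      (integrableOn_const (hM.lt_top isBounded_ball).ne)

theorem STAD_int_G (hM : M.Bd) (hk : ContDiff ℝ 1 k) (hk1 : ∀ t, HasDerivAt k (k' t) t)
    (hp : ∀ x, ‖x - p‖ ≤ √(STAD_g y k x) + 2 * d) {s : ℝ} (hs : 0 < s) :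
    Integrable (fun x => STAD_G y k s x (M.N x)) M.μ := by
  have hD := (STAD_contDiff_Z y hk s).continuous_fderiv one_ne_zero
  have hc : Continuous fun q : E × E => STAD_G y k s q.1 q.2 := by
    unfold STAD_G dv
    fun_prop
  obtain ⟨C, hC⟩ := ((isCompact_closedBall p (s + 2 * d)).prod
    (isCompact_closedBall (0 : E) 1)).exists_bound_of_continuousOn hc.continuousOn
  refine hM.integrable (A := ball p (s + 2 * d)) isBounded_ball
    (hc.measurable.comp (measurable_id.prodMk M.N_meas)) (C := max C 0) (fun x hx => ?_)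
    fun x _ hx => (STAD_zero y hk1 (STAD_out hp hs le_rfl hx) _).2
  by_cases hb : x ∈ ball p (s + 2 * d)
  · refine le_max_of_le_left (hC (x, M.N x) ⟨ball_subset_closedBall hb, ?_⟩)
    rw [mem_closedBall_zero_iff, M.N_unit x hx]
  · rw [(STAD_zero y hk1 (STAD_out hp hs le_rfl hb) _).2, abs_zero]
    exact le_max_right _ _

theorem STAD_lower (hFV : S_FV) (hM : M.Mem) (hk : ContDiff ℝ 1 k)
    (hk1 : ∀ t, HasDerivAt k (k' t) t) (hk' : ∀ t, 0 ≤ k' t ∧ k' t ≤ 1)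
    (hp : ∀ x, ‖x - p‖ ≤ √(STAD_g y k x) + 2 * d) {s : ℝ} (hs : 0 < s) :
    -(10 * ∫ x in ball p (s + 2 * d), ‖pr (M.N x)‖ ∂M.μ)
      ≤ s ^ 3 * ∫ x, STAD_F1 s (STAD_g y k x) ∂M.μ := by
  have hsupp : HasCompactSupport (STAD_Z y k s) := by
    refine HasCompactSupport.intro (isCompact_closedBall p (s + 2 * d)) fun x hx => ?_
    unfold STAD_Z
    rw [lam_eq_zero (STAD_out hp hs le_rfl fun h => hx (ball_subset_closedBall h)), zero_smul]
  have h0 : ∫ x, STAD_G y k s x (M.N x) ∂M.μ = 0 :=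
    (hFV M).2 _ (STAD_contDiff_Z y hk s) hsupp (hM.sub _)
  have i1 := (STAD_deriv hM.bd hk hk1 hp hs).1.const_mul (s ^ 3)
  have i2 := STAD_int_G hM.bd hk hk1 hp hs
  have i3 : IntegrableOn (fun x => -(10 * ‖pr (M.N x)‖)) (ball p (s + 2 * d)) M.μ := by
    refine Integrable.neg (Integrable.const_mul ?_ _)
    refine hM.bd.integrableOn isBounded_ball (measurable_pr.comp M.N_meas).norm (C := 1)
      (fun x hx => ?_) measurableSet_ball
    rw [abs_norm, ← M.N_unit x hx.2]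
    exact norm_pr_le _
  rw [← integral_const_mul, ← integral_neg, ← integral_indicator measurableSet_ball,
    ← integral_const_mul, ← add_zero (∫ x, s ^ 3 * _ ∂M.μ), ← h0, ← integral_add i1 i2]
  refine integral_mono_ae ((integrable_indicator_iff measurableSet_ball).2 i3) (i1.add i2) ?_
  filter_upwards [M.ae_unit] with x hx
  by_cases hb : x ∈ ball p (s + 2 * d)
  · rw [indicator_of_mem hb]
    exact STAD_point y hk1 hk' hs x hx
  · obtain ⟨z1, z2⟩ := STAD_zero y hk1 (STAD_out hp hs le_rfl hb) (M.N x)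
    rw [indicator_of_notMem hb, z1, z2, mul_zero, add_zero]

theorem STAD_mono (hFV : S_FV) (hM : M.Mem) (hk : ContDiff ℝ 1 k)
    (hk1 : ∀ t, HasDerivAt k (k' t) t) (hk' : ∀ t, 0 ≤ k' t ∧ k' t ≤ 1)
    (hp : ∀ x, ‖x - p‖ ≤ √(STAD_g y k x) + 2 * d) {s₀ s₁ τ : ℝ} (hs₀ : 0 < s₀) (hs : s₀ ≤ s₁)
    (hτ : ∀ s ∈ Icc s₀ s₁, ∫ x in ball p (s + 2 * d), ‖pr (M.N x)‖ ∂M.μ ≤ τ * s ^ 2) :
    ∫ x, lam (STAD_g y k x / s₀ ^ 2) / s₀ ^ 2 ∂M.μ
      ≤ ∫ x, lam (STAD_g y k x / s₁ ^ 2) / s₁ ^ 2 ∂M.μ + 10 * τ * Real.log (s₁ / s₀) := by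
  have hd : ∀ s ∈ Icc s₀ s₁, HasDerivAt
      (fun s : ℝ => ∫ x, lam (STAD_g y k x / s ^ 2) / s ^ 2 ∂M.μ + 10 * τ * Real.log s)
      (∫ x, STAD_F1 s (STAD_g y k x) ∂M.μ + 10 * τ * s⁻¹) s := fun s h =>
    (STAD_deriv hM.bd hk hk1 hp (hs₀.trans_le h.1)).2.add
      ((Real.hasDerivAt_log (hs₀.trans_le h.1).ne').const_mul _)
  have hm := monotoneOn_of_deriv_nonneg (convex_Icc s₀ s₁)
    (fun s h => (hd s h).continuousAt.continuousWithinAt)
    (fun s h => (hd s (interior_subset h)).differentiableAt.differentiableWithinAt)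
    (fun s h => by
      have h' : s ∈ Icc s₀ s₁ := interior_subset h
      have hs' := hs₀.trans_le h'.1
      rw [(hd s h').deriv]
      have h1 := STAD_lower hFV hM hk hk1 hk' hp hs'
      have h2 := hτ s h'
      refine le_of_mul_le_mul_left ?_ (pow_pos hs' 3)
      have e : s ^ 3 * (10 * τ * s⁻¹) = 10 * (τ * s ^ 2) := by field_simp
      rw [mul_add, e]
      linarith)
  have h1 := hm (left_mem_Icc.2 hs) (right_mem_Icc.2 hs) hs
  rw [Real.log_div (hs₀.trans_le hs).ne' hs₀.ne']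
  simp only at h1
  linarith

end main

theorem stad_of (hFV : S_FV) : S_STAD := by
  intro M hM n y h t₀ t₁ d s₀ s₁ κ τ hd hh ht₁ hsep hs₀ hs hκ hκ1 hdκ hτ
  obtain ⟨k, k', hk, hk1, hk', hkb⟩ := STAD_kap t₀ hd
  have hs₁ : 0 < s₁ := hs₀.trans_le hs
  have hp : ∀ x : E, ‖x - pt y t₁‖ ≤ √(STAD_g y k x) + 2 * d := fun x =>
    STAD_le_g hd (hkb _ _ ht₁).2
  have hτ0 : 0 ≤ τ := by
    have h1 := (integral_nonneg fun x => norm_nonneg _).trans (hτ s₀ (left_mem_Icc.2 hs))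
    exact nonneg_of_mul_nonneg_left h1 (by positivity)
  have hlog : 0 ≤ Real.log (s₁ / s₀) := Real.log_nonneg ((one_le_div hs₀).2 hs)
  have hmain := STAD_mono hFV hM hk hk1 hk' hp hs₀ hs hτ
  have hlow : ∑ i, M.Θ (pt y (h i)) s₀ ≤ ∫ x, lam (STAD_g y k x / s₀ ^ 2) / s₀ ^ 2 ∂M.μ := by
    unfold Surf.Θ theta
    rw [integral_div, ← Finset.sum_div,
      ← integral_finsetSum _ fun i _ => hM.bd.integrable_lam (pt y (h i)) hs₀]
    refine div_le_div_of_nonneg_right (integral_mono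
      (integrable_finsetSum _ fun i _ => hM.bd.integrable_lam (pt y (h i)) hs₀)
      (STAD_int_F hM.bd hk hp hs₀) fun x => ?_) (sq_nonneg _)
    by_cases hx : ∃ i, ‖x - pt y (h i)‖ < s₀
    · obtain ⟨i, hi⟩ := hx
      simp only
      rw [Finset.sum_eq_single i (fun j _ hj => dens_lam_zero hs₀ ?_) (by simp)]
      · exact lam_antitone
          (div_le_div_of_nonneg_right (STAD_g_le (hkb _ _ (hh i)).1) (sq_nonneg _))
      · have h1 := hsep j i hj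
        have h2 := abs_two_le (pt y (h j) - pt y (h i))
        rw [PiLp.sub_apply, pt_two, pt_two] at h2
        have h3 := norm_sub_le_norm_sub_add_norm_sub (pt y (h j)) x (pt y (h i))
        rw [norm_sub_rev (pt y (h j)) x] at h3
        linarith
    · push Not at hx
      simp only
      rw [Finset.sum_eq_zero fun j _ => dens_lam_zero hs₀ (hx j)]
      exact lam_nonneg _
  have hup : ∫ x, lam (STAD_g y k x / s₁ ^ 2) / s₁ ^ 2 ∂M.μ
      ≤ (1 + κ) ^ 3 * M.Θ (pt y t₁) ((1 + κ) * s₁) := by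
    unfold Surf.Θ theta
    have hr : 0 < (1 + κ) * s₁ := by positivity
    have h1 : ∫ x, lam (STAD_g y k x / s₁ ^ 2) ∂M.μ
        ≤ ∫ x, (1 + κ) * lam (‖x - pt y t₁‖ ^ 2 / ((1 + κ) * s₁) ^ 2) ∂M.μ := by
      refine integral_mono (STAD_int_F hM.bd hk hp hs₁)
        ((hM.bd.integrable_lam _ hr).const_mul _) fun x => ?_
      have h2 := lam_cmp (a := √(STAD_g y k x) / s₁) (b := ‖x - pt y t₁‖ / s₁) (d := 2 * d / s₁)
        (by positivity) (by positivity) hκ hκ1 (by positivity)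
        (by rw [div_le_iff₀ hs₁]; linarith)
        (by rw [← add_div]; exact div_le_div_of_nonneg_right (hp x) hs₁.le)
      rw [div_pow, Real.sq_sqrt (STAD_g_nonneg y k x), div_pow, div_div, ← mul_pow,
        mul_comm s₁] at h2
      exact h2
    rw [integral_const_mul] at h1
    rw [integral_div]
    refine (div_le_div_of_nonneg_right h1 (sq_nonneg _)).trans (le_of_eq ?_)
    field_simp
  have := mul_nonneg hτ0 hlog
  linarith

end MW
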