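import Pool.Agent.P.MP_064970_gt.SG

/-!
|N'|^2 = <ex,N>^2 + <ey,N>^2. x3 N3 = <x,N> - <x',N'> and |x3| <= |x3||N3| + |x3||N'|^2, so
int_{ball 0 R} x3^2 -> 0. If x in S cap ball 0 R has |x 2| > delta then |z 2| >= delta/2 on ball x
(delta/2), which has mass >= pi delta^2/16 by LOW.
-/

open scoped Manifold ContDiff
open MeasureTheory Set Filter Topology Metric
open scoped RealInnerProductSpace ENNReal ComplexConjugate Real

noncomputable section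

namespace MW

universe u

theorem STR3A_ex (n : E) : ⟪ex, n⟫ = n 0 := by
  rw [inner_eq]; simp [ex]

theorem STR3A_ey (n : E) : ⟪ey, n⟫ = n 1 := by
  rw [inner_eq]; simp [ey]

theorem STR3A_pr (n : E) : ‖pr n‖ ^ 2 = ⟪ex, n⟫ ^ 2 + ⟪ey, n⟫ ^ 2 := by
  rw [STR3A_ex, STR3A_ey, Complex.sq_norm, Complex.normSq_apply, pr_re, pr_im]; ring

theorem STR3A_intv {M : Surf} (h : M.Mem) (v : E) (R : ℝ) :
    IntegrableOn (fun x => ⟪v, M.N x⟫ ^ 2) (ball 0 R) M.μ := by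
  refine h.bd.integrableOn isBounded_ball ((measurable_const.inner M.N_meas).pow_const 2)
    (C := ‖v‖ ^ 2) (fun x hx => ?_) measurableSet_ball
  have h1 := abs_real_inner_le_norm v (M.N x)
  rw [M.N_unit x hx.2, mul_one] at h1
  rw [abs_pow]
  exact pow_le_pow_left₀ (abs_nonneg _) h1 2

theorem STR3A_intx {M : Surf} (h : M.Mem) (R : ℝ) :
    IntegrableOn (fun x => ⟪x, M.N x⟫ ^ 2) (ball 0 R) M.μ := by
  refine h.bd.integrableOn isBounded_ball ((measurable_id.inner M.N_meas).pow_const 2)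
    (C := R ^ 2) (fun x hx => ?_) measurableSet_ball
  have h1 := abs_real_inner_le_norm x (M.N x)
  rw [M.N_unit x hx.2, mul_one] at h1
  rw [abs_pow]
  exact pow_le_pow_left₀ (abs_nonneg _) (h1.trans (mem_ball_zero_iff.1 hx.1).le) 2

theorem STR3A_int2 {M : Surf} (h : M.Mem) (R : ℝ) :
    IntegrableOn (fun x : E => x 2 ^ 2) (ball 0 R) M.μ := by
  refine h.bd.integrableOn isBounded_ball (by fun_prop)
    (C := R ^ 2) (fun x hx => ?_) measurableSet_ball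
  rw [abs_pow]
  exact pow_le_pow_left₀ (abs_nonneg _) ((abs_two_le x).trans (mem_ball_zero_iff.1 hx.1).le) 2

theorem STR3A_eq {M : Surf} (h : M.Mem) (R : ℝ) :
    ∫ x in ball 0 R, ‖pr (M.N x)‖ ^ 2 ∂M.μ =
      ∫ x in ball 0 R, ⟪ex, M.N x⟫ ^ 2 ∂M.μ + ∫ x in ball 0 R, ⟪ey, M.N x⟫ ^ 2 ∂M.μ := by
  rw [← integral_add (STR3A_intv h ex R) (STR3A_intv h ey R)]
  simp only [STR3A_pr]

theorem STR3A_point {x n : E} {R : ℝ} (hx : ‖x‖ ≤ R) (hn : ‖n‖ = 1) :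
    x 2 ^ 2 ≤ 2 * ⟪x, n⟫ ^ 2 + 3 * R ^ 2 * (⟪ex, n⟫ ^ 2 + ⟪ey, n⟫ ^ 2) := by
  rw [← STR3A_pr]
  have h1 := norm_sq_eq n
  rw [hn] at h1
  have h2 := inner_eq_pr x n
  have h3 : |⟪pr x, pr n⟫| ≤ R * ‖pr n‖ :=
    (abs_real_inner_le_norm _ _).trans
      (mul_le_mul_of_nonneg_right ((norm_pr_le x).trans hx) (norm_nonneg _))
  have h4 : ⟪pr x, pr n⟫ ^ 2 ≤ R ^ 2 * ‖pr n‖ ^ 2 := by
    rw [← mul_pow, ← sq_abs]
    exact pow_le_pow_left₀ (abs_nonneg _) h3 2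
  have h5 : x 2 ^ 2 ≤ R ^ 2 := by
    rw [← sq_abs]
    exact pow_le_pow_left₀ (abs_nonneg _) ((abs_two_le x).trans hx) 2
  have h6 : x 2 ^ 2 * ‖pr n‖ ^ 2 ≤ R ^ 2 * ‖pr n‖ ^ 2 :=
    mul_le_mul_of_nonneg_right h5 (sq_nonneg _)
  have h7 : x 2 ^ 2 = (x 2 * n 2) ^ 2 + x 2 ^ 2 * ‖pr n‖ ^ 2 := by
    have : n 2 ^ 2 = 1 - ‖pr n‖ ^ 2 := by linarith
    rw [mul_pow, this]; ring
  have h8 : x 2 * n 2 = ⟪x, n⟫ - ⟪pr x, pr n⟫ := by linarith
  have h9 : (x 2 * n 2) ^ 2 ≤ 2 * ⟪x, n⟫ ^ 2 + 2 * ⟪pr x, pr n⟫ ^ 2 := by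
    rw [h8]; nlinarith [sq_nonneg (⟪x, n⟫ + ⟪pr x, pr n⟫)]
  linarith

theorem STR3A_upper {M : Surf} (h : M.Mem) (R : ℝ) :
    ∫ x in ball 0 R, x 2 ^ 2 ∂M.μ ≤ 2 * ∫ x in ball 0 R, ⟪x, M.N x⟫ ^ 2 ∂M.μ +
      3 * R ^ 2 * (∫ x in ball 0 R, ⟪ex, M.N x⟫ ^ 2 ∂M.μ +
        ∫ x in ball 0 R, ⟪ey, M.N x⟫ ^ 2 ∂M.μ) := by
  have i1 := STR3A_intv h ex R
  have i2 := STR3A_intv h ey R
  have i3 := STR3A_intx h R
  have i4 : Integrable (fun x => 3 * R ^ 2 * (⟪ex, M.N x⟫ ^ 2 + ⟪ey, M.N x⟫ ^ 2))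
      (M.μ.restrict (ball 0 R)) := (i1.add i2).const_mul _
  rw [← integral_add i1 i2, ← integral_const_mul, ← integral_const_mul,
    ← integral_add (i3.const_mul 2) i4]
  refine integral_mono_ae (STR3A_int2 h R) ((i3.const_mul 2).add i4) ?_
  filter_upwards [ae_restrict_mem measurableSet_ball, ae_restrict_of_ae M.ae_unit] with x hx hn
  exact STR3A_point (mem_ball_zero_iff.1 hx).le hn

theorem STR3A_lower (hLOW : S_LOW) {M : Surf} (h : M.Mem) {R δ : ℝ} (hδ : 0 < δ) {x : E}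
    (hx : x ∈ M.S ∩ ball 0 R) (hlt : δ < |x 2|) :
    δ ^ 2 / 4 * (π / 4 * (δ / 2) ^ 2) ≤ ∫ z in ball 0 (R + δ), z 2 ^ 2 ∂M.μ := by
  have hm := (hLOW M x (δ / 2) hx.1 (by positivity) (h.sub _)).2
  have hsub : ball x (δ / 2) ⊆ ball (0 : E) (R + δ) := by
    intro z hz
    have h1 := mem_ball_zero_iff.1 hx.2
    have h2 := mem_ball_iff_norm.1 hz
    have h3 : ‖z‖ ≤ ‖z - x‖ + ‖x‖ := by simpa using norm_add_le (z - x) x
    exact mem_ball_zero_iff.2 (by linarith)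
  have i1 := STR3A_int2 h (R + δ)
  have h1 : ∫ z in ball x (δ / 2), z 2 ^ 2 ∂M.μ ≤ ∫ z in ball 0 (R + δ), z 2 ^ 2 ∂M.μ :=
    setIntegral_mono_set i1 (Eventually.of_forall fun z => sq_nonneg _) hsub.eventuallyLE
  have h2 : δ ^ 2 / 4 * M.μ.real (ball x (δ / 2)) ≤ ∫ z in ball x (δ / 2), z 2 ^ 2 ∂M.μ := by
    refine setIntegral_ge_of_const_le_real measurableSet_ball (h.bd.lt_top isBounded_ball).ne
      (fun z hz => ?_) (i1.mono_set hsub)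
    have h2 := mem_ball_iff_norm.1 hz
    have h3 : |(z - x) 2| ≤ ‖z - x‖ := abs_two_le _
    rw [PiLp.sub_apply] at h3
    have h4 : |x 2| ≤ |z 2| + |z 2 - x 2| := by
      have := abs_sub (z 2) (z 2 - x 2)
      rwa [sub_sub_cancel] at this
    have h5 : δ / 2 ≤ |z 2| := by linarith
    have h6 := pow_le_pow_left₀ (by positivity) h5 2
    rw [sq_abs] at h6
    linarith
  have h3 : δ ^ 2 / 4 * (π / 4 * (δ / 2) ^ 2) ≤ δ ^ 2 / 4 * M.μ.real (ball x (δ / 2)) :=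
    mul_le_mul_of_nonneg_left hm (by positivity)
  linarith

theorem str3a_of (hLOW : S_LOW) : S_STR3A := by
  intro U Mk hM h0 h1 h2
  refine ⟨fun R => ?_, fun R δ hδ => ?_⟩
  · simp only [fun k => STR3A_eq (hM k) R]
    simpa using (h1 R).add (h2 R)
  · have hπ := Real.pi_pos
    have hc : 0 < δ ^ 2 / 4 * (π / 4 * (δ / 2) ^ 2) := by positivity
    have ht := ((h0 (R + δ)).const_mul 2).add
      (((h1 (R + δ)).add (h2 (R + δ))).const_mul (3 * (R + δ) ^ 2))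
    simp only [mul_zero, add_zero] at ht
    filter_upwards [ht.eventually (gt_mem_nhds hc)] with k hk x hx
    by_contra hlt
    have h3 := STR3A_lower hLOW (hM k) hδ hx (not_le.1 hlt)
    have h4 := STR3A_upper (hM k) (R + δ)
    linarith

end MW
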